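import Pool.Agent.R588.S.RO

/-!
# The strong tree property in the extension: definitions

`RO P` is the complete Boolean algebra of the regular sets of conditions of a forcing notion `P`;
its elements are the truth values of sentences about the extension, and `p ∈ φ` means that `p`
forces `φ`. The ordinals of the extension are those of the ground model. A name for a subset of a
ground model set `X` is a function from `X` to `RO P`, and a name for a relation between `X` and
`Y` is a function from `X × Y` to `RO P`, written in the curried form.
-/

set_option autoImplicit false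

namespace Run7.h888

open Pool.Agent.R588.S

universe v

section

variable {P : Type} [Preorder P]

/-- there is `i` with `φ i` -/
def ex {ι : Sort v} (φ : ι → RO P) : RO P where
  c := {p | ∀ q ≤ p, ∃ r ≤ q, ∃ i, r ∈ φ i}
  down := fun hp hq r hr => hp r (hr.trans hq)
  reg := fun {p} h q hq => by
    obtain ⟨r, hr, h'⟩ := h q hq
    obtain ⟨r', hr', i, h''⟩ := h' r le_rfl
    exact ⟨r', hr'.trans hr, i, h''⟩

/-- the named subsets `x` and `y` of `X` are equal -/
def EqN {X : Type} (x y : X → RO P) : RO P := al fun a => iv (x a) (y a)

/-- the named subset `x` of `X` is contained in the named subset `y` -/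
def LeN {X : Type} (x y : X → RO P) : RO P := al fun a => im (x a) (y a)

/-- the intersection of two named subsets of `X` -/
def capN {X : Type} (x y : X → RO P) : X → RO P := fun a => an (x a) (y a)

/-- the named relation `f` is (the graph of) a function from a subset of `X` to `Y` -/
def FunN {X Y : Type} (f : X → Y → RO P) : RO P :=
  al fun x => al fun y => al fun y' => im (an (f x y) (f x y')) (gr (y = y'))

/-- each element of `Y` is a value of the named relation `f` -/
def OntoN {X Y : Type} (f : X → Y → RO P) : RO P := al fun y => ex fun x => f x y

/-- `β` is an infinite cardinal of the extension: no function from a subset of an ordinal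
`α < β` to `β` is onto. -/
def CardN (β : Ordinal.{0}) : RO P :=
  an (gr (Ordinal.omega0 ≤ β)) (al fun α : Set.Iio β =>
    neg (ex fun f : α.1.ToType → β.ToType → RO P => an (FunN f) (OntoN f)))

/-- `γ` is an infinite regular cardinal of the extension: it is an infinite cardinal, and every
function from a subset of an ordinal `α < γ` to `γ` is bounded. -/
def RegN (γ : Ordinal.{0}) : RO P :=
  an (CardN γ) (al fun α : Set.Iio γ => al fun f : α.1.ToType → γ.ToType → RO P =>
    im (FunN f) (ex fun b : γ.ToType => al fun x => al fun y => im (f x y) (gr (y < b))))

/-- `β = ℵ_α` in the extension: `β` is an infinite cardinal, and there is an order isomorphism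
`e` from `α` onto the set of the infinite cardinals below `β`. -/
noncomputable def AlephN (α β : Ordinal.{0}) : RO P :=
  an (CardN β) (ex fun e : α.ToType → β.ToType → RO P =>
    an (al fun x => ex fun y => e x y)
      (an (al fun x => al fun y => al fun x' => al fun y' =>
        im (an (e x y) (e x' y')) (gr (x < x' ↔ y < y')))
        (al fun y => iv (ex fun x => e x y) (CardN (Ordinal.ToType.mk.symm y).1))))

/-- The named subset `x` of `X` has size less than `κ`: it is covered by the range of a function
defined on a subset of some ordinal `α < κ`. (These are the elements of `P_κ(X)`.) -/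
def SmallN {X : Type} (κ : Ordinal.{0}) (x : X → RO P) : RO P :=
  ex fun α : Set.Iio κ => ex fun f : α.1.ToType → X → RO P =>
    an (FunN f) (al fun a => im (x a) (ex fun i => f i a))

/-- `D` is a `P_κ(X)`-list: an operation on the elements `x` of `P_κ(X)` (respecting equality)
with `D x ⊆ x`. -/
def ListN {X : Type} (κ : Ordinal.{0}) (D : (X → RO P) → X → RO P) : RO P :=
  an (al fun x => al fun y => im (an (SmallN κ x) (EqN x y)) (EqN (D x) (D y)))
    (al fun x => im (SmallN κ x) (LeN (D x) x))

/-- `C` is a closed unbounded subset of `P_κ(X)`: it is a subset of `P_κ(X)`, each element of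
`P_κ(X)` is contained in an element of `C`, and `C` contains the union of each increasing
sequence of elements of `C` of nonzero length `α < κ`. -/
def ClubN {X : Type} (κ : Ordinal.{0}) (C : (X → RO P) → RO P) : RO P :=
  an (al fun x => al fun y => im (an (C x) (EqN x y)) (C y))
    (an (al fun x => im (C x) (SmallN κ x))
      (an (al fun x => im (SmallN κ x) (ex fun y => an (C y) (LeN x y)))
        (al fun α : Set.Ioo 0 κ => al fun s : α.1.ToType → X → RO P =>
          im (an (al fun i => C (s i)) (al fun i => al fun j => al fun _ : i ≤ j =>
            LeN (s i) (s j))) (C fun a => ex fun i => s i a))))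

/-- The list `D` is thin: there is a closed unbounded set `C` such that for each `y` in `C`
the set of all `D x ∩ y`, for `x` in `P_κ(X)` containing `y`, has size less than `κ`. -/
def ThinN {X : Type} (κ : Ordinal.{0}) (D : (X → RO P) → X → RO P) : RO P :=
  ex fun C : (X → RO P) → RO P => an (ClubN κ C) (al fun y => im (C y)
    (ex fun α : Set.Iio κ => ex fun g : α.1.ToType → X → RO P => al fun x =>
      im (an (SmallN κ x) (LeN y x)) (ex fun i => EqN (g i) (capN (D x) y))))

/-- `b` is a cofinal branch of the list `D`: for each `x` in `P_κ(X)` there is `z` in
`P_κ(X)` containing `x` with `D z ∩ x = b ∩ x`. -/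
def BranchN {X : Type} (κ : Ordinal.{0}) (D : (X → RO P) → X → RO P) (b : X → RO P) : RO P :=
  al fun x => im (SmallN κ x) (ex fun z => an (SmallN κ z) (an (LeN x z)
    (EqN (capN (D z) x) (capN b x))))

/-- `κ` has the strong tree property in the extension: for each ordinal `lam ≥ κ`, every thin
`P_κ(lam)`-list has a cofinal branch. -/
def StrongTreeN (P : Type) [Preorder P] (κ : Ordinal.{0}) : RO P :=
  al fun lam : Set.Ici κ => al fun D : (lam.1.ToType → RO P) → lam.1.ToType → RO P =>
    im (an (ListN κ D) (ThinN κ D)) (ex fun b => BranchN κ D b)

end

end Run7.h888
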