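import Pool.Agent.R588.S.Conv
import Pool.Agent.Run7.h888.Defs

/-!
# Closure, distributivity, transfinite constructions
-/

set_option autoImplicit false

namespace Run7.h888

open Cardinal Set Pool.Agent.Helper669.Forcing Pool.Agent.Helper669.K Pool.Agent.R588.S

/-- closed for decreasing sequences of length at most `ν` -/
def Clo (ν : Cardinal.{0}) (Z : Type) [Preorder Z] : Prop :=
  ∀ (J : Type) [LinearOrder J] [Nonempty J], #J ≤ ν → ∀ p : J → Z,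
    (∀ j j', j ≤ j' → p j' ≤ p j) → ∃ q, ∀ j, q ≤ p j

theorem Clo.anti {ν ν' : Cardinal.{0}} {Z : Type} [Preorder Z] (h : Clo ν Z) (hν : ν' ≤ ν) :
    Clo ν' Z := fun J _ _ hJ p hp => h J (hJ.trans hν) p hp

theorem DirClosed.anti {ν ν' : Cardinal.{0}} {Z : Type} [Preorder Z] (h : DirClosed ν Z)
    (hν : ν' ≤ ν) : DirClosed ν' Z := fun D hD hne hdir => h D (hD.trans_le hν) hne hdir

theorem DirClosed.clo {ν : Cardinal.{0}} {Z : Type} [Preorder Z] (h : DirClosed (Order.succ ν) Z) :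
    Clo ν Z := by
  intro J _ _ hJ p hp
  obtain ⟨q, hq⟩ := h (Set.range p) (mk_range_le.trans_lt (Order.lt_succ_iff.2 hJ))
    (Set.range_nonempty p) (by
      rintro _ ⟨i, rfl⟩ _ ⟨j, rfl⟩
      exact ⟨p (max i j), ⟨_, rfl⟩, hp _ _ (le_max_left _ _), hp _ _ (le_max_right _ _)⟩)
  exact ⟨q, fun j => hq _ ⟨j, rfl⟩⟩

theorem rec_lemma {T : Type} [Preorder T] [Nonempty T] {J : Type} [LinearOrder J]
    [WellFoundedLT J] (H : J → Set T)
    (h : ∀ a (p : J → T), (∀ b < a, p b ∈ H b) → (∀ b c, b ≤ c → c < a → p c ≤ p b) →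
      ∃ q ∈ H a, ∀ b < a, q ≤ p b) :
    ∃ p : J → T, (∀ a, p a ∈ H a) ∧ ∀ b c, b ≤ c → p c ≤ p b := by
  classical
  have key : ∀ (a : J) (f : ∀ b, b < a → T), ∃ q,
      (∃ q' ∈ H a, ∀ b (hb : b < a), q' ≤ f b hb) → q ∈ H a ∧ ∀ b (hb : b < a), q ≤ f b hb := by
    intro a f
    by_cases h1 : ∃ q' ∈ H a, ∀ b (hb : b < a), q' ≤ f b hb
    · obtain ⟨q', h2, h3⟩ := h1
      exact ⟨q', fun _ => ⟨h2, h3⟩⟩
    · exact ⟨Classical.arbitrary T, fun h2 => absurd h2 h1⟩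
  choose F hF using key
  let p : J → T := (wellFounded_lt (α := J)).fix F
  have hp : ∀ a, p a = F a (fun b _ => p b) := fun a => WellFounded.fix_eq _ _ _
  have main : ∀ a, p a ∈ H a ∧ ∀ b < a, p a ≤ p b := by
    intro a
    induction a using WellFoundedLT.induction with
    | ind a ih =>
      have h1 := hF a (fun b _ => p b) (h a p (fun b hb => (ih b hb).1) (fun b c hbc hc => by
        rcases eq_or_lt_of_le hbc with rfl | h2
        · exact le_rfl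
        · exact (ih c hc).2 b h2))
      rw [← hp a] at h1
      exact h1
  refine ⟨p, fun a => (main a).1, fun b c hbc => ?_⟩
  rcases eq_or_lt_of_le hbc with rfl | h2
  · exact le_rfl
  · exact (main c).2 b h2

/-- **Distributivity.** -/
theorem Clo.dist {ν : Cardinal.{0}} {Z : Type} [Preorder Z] (hZ : Clo ν Z) {A : Type}
    (hA : #A ≤ ν) (Φ : A → Z → Prop) (hmono : ∀ a z z', z' ≤ z → Φ a z → Φ a z') (z0 : Z)
    (hd : ∀ a, ∀ z ≤ z0, ∃ z' ≤ z, Φ a z') : ∃ z ≤ z0, ∀ a, Φ a z := by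
  classical
  rcases isEmpty_or_nonempty A with hA0 | hA0
  · exact ⟨z0, le_rfl, fun a => isEmptyElim a⟩
  obtain ⟨e⟩ : Nonempty ((#A).ord.ToType ≃ A) := Cardinal.eq.1 (Cardinal.mk_ord_toType _)
  have hJ : #((#A).ord.ToType) ≤ ν := by rw [Cardinal.mk_ord_toType]; exact hA
  have : Nonempty ((#A).ord.ToType) := ⟨e.symm (Classical.arbitrary A)⟩
  have : Nonempty Z := ⟨z0⟩
  obtain ⟨p, hp, hp'⟩ := rec_lemma (T := Z) (J := (#A).ord.ToType)
    (fun j => {z | z ≤ z0 ∧ Φ (e j) z}) (by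
      intro a p h1 h2
      rcases isEmpty_or_nonempty (Set.Iio a) with h3 | h3
      · obtain ⟨z', h4, h5⟩ := hd (e a) z0 le_rfl
        exact ⟨z', ⟨h4, h5⟩, fun b hb => isEmptyElim (⟨b, hb⟩ : Set.Iio a)⟩
      · obtain ⟨q, hq⟩ := hZ (Set.Iio a) ((mk_set_le _).trans hJ) (fun b => p b.1)
          (fun b c hbc => h2 b.1 c.1 hbc c.2)
        obtain ⟨b0⟩ := h3
        obtain ⟨z', h4, h5⟩ := hd (e a) q ((hq b0).trans (h1 b0.1 b0.2).1)
        exact ⟨z', ⟨h4.trans ((hq b0).trans (h1 b0.1 b0.2).1), h5⟩,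
          fun b hb => h4.trans (hq ⟨b, hb⟩)⟩)
  obtain ⟨q, hq⟩ := hZ _ hJ p hp'
  refine ⟨q, (hq (Classical.arbitrary _)).trans (hp _).1, fun a => ?_⟩
  have h1 := hmono (e (e.symm a)) (p (e.symm a)) q (hq _) (hp _).2
  rwa [Equiv.apply_symm_apply] at h1

theorem Clo.prod {ν : Cardinal.{0}} {Z Z' : Type} [Preorder Z] [Preorder Z'] (h : Clo ν Z)
    (h' : Clo ν Z') : Clo ν (Z × Z') := by
  intro J _ _ hJ p hp
  obtain ⟨q, hq⟩ := h J hJ (fun j => (p j).1) fun j j' hj => (hp j j' hj).1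
  obtain ⟨q', hq'⟩ := h' J hJ (fun j => (p j).2) fun j j' hj => (hp j j' hj).2
  exact ⟨(q, q'), fun j => ⟨hq j, hq' j⟩⟩

theorem Clo.pi {ν : Cardinal.{0}} {I : Type} {Z : I → Type} [∀ i, Preorder (Z i)]
    (h : ∀ i, Clo ν (Z i)) : Clo ν (∀ i, Z i) := by
  intro J _ _ hJ p hp
  choose q hq using fun i => h i J hJ (fun j => p j i) fun j j' hj => hp j j' hj i
  exact ⟨q, fun j i => hq i j⟩

theorem DirClosed.prod {ν : Cardinal.{0}} {Z Z' : Type} [Preorder Z] [Preorder Z']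
    (h : DirClosed ν Z) (h' : DirClosed ν Z') : DirClosed ν (Z × Z') := by
  intro D hD hne hdir
  obtain ⟨q, hq⟩ := h (Prod.fst '' D) (mk_image_le.trans_lt hD) (hne.image _) (by
    rintro _ ⟨a, ha, rfl⟩ _ ⟨b, hb, rfl⟩
    obtain ⟨c, hc, h1, h2⟩ := hdir a ha b hb
    exact ⟨c.1, ⟨c, hc, rfl⟩, h1.1, h2.1⟩)
  obtain ⟨q', hq'⟩ := h' (Prod.snd '' D) (mk_image_le.trans_lt hD) (hne.image _) (by
    rintro _ ⟨a, ha, rfl⟩ _ ⟨b, hb, rfl⟩
    obtain ⟨c, hc, h1, h2⟩ := hdir a ha b hb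
    exact ⟨c.2, ⟨c, hc, rfl⟩, h1.2, h2.2⟩)
  exact ⟨(q, q'), fun a ha => ⟨hq _ ⟨a, ha, rfl⟩, hq' _ ⟨a, ha, rfl⟩⟩⟩

theorem DirClosed.pi {ν : Cardinal.{0}} {I : Type} {Z : I → Type} [∀ i, Preorder (Z i)]
    (h : ∀ i, DirClosed ν (Z i)) : DirClosed ν (∀ i, Z i) := by
  intro D hD hne hdir
  have h1 : ∀ i, ∃ q, ∀ a ∈ D, q ≤ a i := by
    intro i
    obtain ⟨q, hq⟩ := h i ((fun a => a i) '' D) (mk_image_le.trans_lt hD) (hne.image _) (by
      rintro _ ⟨a, ha, rfl⟩ _ ⟨b, hb, rfl⟩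
      obtain ⟨c, hc, h1, h2⟩ := hdir a ha b hb
      exact ⟨c i, ⟨c, hc, rfl⟩, h1 i, h2 i⟩)
    exact ⟨q, fun a ha => hq _ ⟨a, ha, rfl⟩⟩
  choose q hq using h1
  exact ⟨q, fun a ha i => hq i a ha⟩

/-! ### Existential quantifiers and names of elements -/

section

universe v

variable {P : Type} [Preorder P]

theorem mem_ex {ι : Sort v} {φ : ι → RO P} {p : P} :
    p ∈ ex φ ↔ ∀ q ≤ p, ∃ r ≤ q, ∃ i, r ∈ φ i := Iff.rfl

theorem mem_ex_of {ι : Sort v} {φ : ι → RO P} {p : P} (i : ι) (h : p ∈ φ i) : p ∈ ex φ :=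
  fun q hq => ⟨q, le_rfl, i, (φ i).dn h hq⟩

/-- names of elements of `Y` -/
structure Nm (P : Type) [Preorder P] (Y : Type) where
  v : Y → RO P
  tot : ∀ p, ∃ q ≤ p, ∃ y, q ∈ v y
  fn : ∀ p y y', p ∈ v y → p ∈ v y' → y = y'

/-- the name of an element of the ground model -/
def Nm.ck {Y : Type} (y : Y) : Nm P Y where
  v y' := gr (y' = y)
  tot := fun p => ⟨p, le_rfl, y, rfl⟩
  fn := fun _ _ _ h h' => h.trans h'.symm

/-- **Choice of names.** -/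
theorem exists_Nm {Y : Type} [Nonempty Y] (φ : Y → RO P) :
    ∃ F : Nm P Y, ∀ p y, p ∈ F.v y → p ∈ ex φ → p ∈ φ y := by
  classical
  have hch : ∀ p : P, ∃ y : Y, (∃ y, p ∈ φ y) → p ∈ φ y := by
    intro p
    by_cases h : ∃ y, p ∈ φ y
    · obtain ⟨y, hy⟩ := h
      exact ⟨y, fun _ => hy⟩
    · exact ⟨Classical.arbitrary Y, fun h' => absurd h' h⟩
  choose y0 hy0 using hch
  obtain ⟨F, hF⟩ := mix {p : P | (∃ y, p ∈ φ y) ∨ p ∈ neg (ex φ)}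
    (fun p (y : Y) => (gr (y = y0 p) : RO P))
  have hF' : ∀ q : P, ∃ r ≤ q, ∃ a, r ≤ a ∧ ((∃ y, a ∈ φ y) ∨ a ∈ neg (ex φ)) ∧
      ∀ y, ∀ u ≤ r, (u ∈ F y ↔ y = y0 a) := by
    intro q
    obtain ⟨r, hr, a, ha, hra, h1⟩ := hF q (by
      obtain ⟨r, hr, h1 | h1⟩ := em (ex φ) q
      · obtain ⟨r', hr', y, hy⟩ := h1 r le_rfl
        exact ⟨r', hr'.trans hr, Or.inl ⟨y, hy⟩⟩
      · exact ⟨r, hr, Or.inr h1⟩)
    exact ⟨r, hr, a, hra, ha, h1⟩
  refine ⟨⟨F, ?_, ?_⟩, ?_⟩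
  · intro p
    obtain ⟨r, hr, a, _, _, h1⟩ := hF' p
    exact ⟨r, hr, y0 a, (h1 _ r le_rfl).2 rfl⟩
  · intro p y y' h h'
    obtain ⟨r, hr, a, _, _, h1⟩ := hF' p
    exact ((h1 y r le_rfl).1 (RO.dn h hr)).trans ((h1 y' r le_rfl).1 (RO.dn h' hr)).symm
  · intro p y hy hex
    refine RO.rg fun q hq => ?_
    obtain ⟨r, hr, a, hra, ha, h1⟩ := hF' q
    refine ⟨r, hr, ?_⟩
    have h2 : y = y0 a := (h1 y r le_rfl).1 (RO.dn hy (hr.trans hq))
    rcases ha with ha | ha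
    · rw [h2]
      exact RO.dn (hy0 a ha) hra
    · exact absurd (RO.dn hex (hr.trans hq)) (ha r hra)

/-- the truth value of `φ` at a named element -/
def Nm.ev {Y : Type} (F : Nm P Y) (φ : Y → RO P) : RO P := ex fun y => an (F.v y) (φ y)

theorem Nm.mem_ev {Y : Type} {F : Nm P Y} {φ : Y → RO P} {p : P} :
    p ∈ F.ev φ ↔ ∀ q ≤ p, ∀ y, q ∈ F.v y → q ∈ φ y := by
  constructor
  · intro h q hq y hy
    refine RO.rg fun r hr => ?_
    obtain ⟨r', hr', y', h1, h2⟩ := h r (hr.trans hq)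
    have := F.fn r' y y' (RO.dn hy (hr'.trans hr)) h1
    subst this
    exact ⟨r', hr', h2⟩
  · intro h q hq
    obtain ⟨r, hr, y, hy⟩ := F.tot q
    exact ⟨r, hr, y, hy, h r (hr.trans hq) y hy⟩

/-- conditions deciding many names -/
theorem Clo.decide {ν : Cardinal.{0}} (hP : Clo ν P) {A : Type} (hA : #A ≤ ν) {Y : A → Type}
    (F : ∀ a, Nm P (Y a)) (p : P) : ∃ q ≤ p, ∃ y : ∀ a, Y a, ∀ a, q ∈ (F a).v (y a) := by
  obtain ⟨q, hq, h⟩ := hP.dist hA (fun a q => ∃ y, q ∈ (F a).v y)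
    (fun a z z' hz h => by
      obtain ⟨y, hy⟩ := h
      exact ⟨y, RO.dn hy hz⟩) p (fun a z _ => by
      obtain ⟨q, hq, y, hy⟩ := (F a).tot z
      exact ⟨q, hq, y, hy⟩)
  choose y hy using h
  exact ⟨q, hq, y, hy⟩

end

end Run7.h888
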