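import Pool.Agent.Run7.h888.A1

/-!
# Abstract branch lemmas
-/

set_option autoImplicit false

namespace Run7.h888

open Cardinal Set Pool.Agent.Helper669.Forcing Pool.Agent.Helper669.K Pool.Agent.R588.S

/-- every family of at most `χ` elements of `D` has an upper bound -/
def UpDir (χ : Cardinal.{0}) (D : Type) [Preorder D] : Prop :=
  ∀ (A : Type) (w : A → D), #A ≤ χ → ∃ y, ∀ a, w a ≤ y

theorem mkp (A B : Type) : #(A × B) = #A * #B := by rw [mk_prod, lift_id, lift_id]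

theorem UpDir.two {χ : Cardinal.{0}} {D : Type} [Preorder D] (h : UpDir χ D) (hχ : ℵ₀ ≤ χ)
    (a b : D) : ∃ y, a ≤ y ∧ b ≤ y := by
  obtain ⟨y, hy⟩ := h Bool (fun i => if i then a else b)
    ((lt_aleph0_of_finite Bool).le.trans hχ)
  exact ⟨y, hy true, hy false⟩

/-- the covering property of forcing extensions -/
def Cov (χ : Cardinal.{0}) (F : Type) [Preorder F] : Prop :=
  ∀ (A X : Type) (Φ : A → X → F → Prop), #A ≤ χ →
    (∀ a x p q, q ≤ p → Φ a x p → Φ a x q) → ∀ p, (∀ a, ∀ q ≤ p, ∃ r ≤ q, ∃ x, Φ a x r) →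
    ∃ q ≤ p, ∃ Z : A → Set X, (∀ a, #(Z a) ≤ χ) ∧ ∀ a, ∀ r ≤ q, ∃ r' ≤ r, ∃ x ∈ Z a, Φ a x r'

theorem Cov.pigeon {χ : Cardinal.{0}} {F : Type} [Preorder F] (h : Cov χ F) (hχ : ℵ₀ ≤ χ)
    {S V : Type} (hS : χ < #S) (hV : #V ≤ χ) (φ : S → V → F → Prop)
    (hφ : ∀ s v p q, q ≤ p → φ s v p → φ s v q) (p : F)
    (hd : ∀ s, ∀ q ≤ p, ∃ r ≤ q, ∃ v, φ s v r) :
    ∃ q ≤ p, ∃ s t v, s ≠ t ∧ φ s v q ∧ φ t v q := by
  classical
  by_contra hcon
  push Not at hcon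
  obtain ⟨q, hq, Z, hZ, hcov⟩ := h V (Option S)
    (fun v x r => match x with
      | some s => φ s v r
      | none => ∀ r' ≤ r, ∀ s, ¬ φ s v r') hV (by
      intro v x p q hq h1
      cases x with
      | none => exact fun r' hr' => h1 r' (hr'.trans hq)
      | some s => exact hφ s v p q hq h1) p (by
      intro v q _
      by_cases h1 : ∃ r ≤ q, ∃ s, φ s v r
      · obtain ⟨r, hr, s, hs⟩ := h1
        exact ⟨r, hr, some s, hs⟩
      · push Not at h1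
        exact ⟨q, le_rfl, none, h1⟩)
  have h1 : #(⋃ v, Z v) ≤ χ := by
    refine (mk_iUnion_le _).trans ?_
    exact mul_le_of_le hχ hV (ciSup_le' hZ)
  obtain ⟨s, hs⟩ : ∃ s : S, some s ∉ ⋃ v, Z v := by
    by_contra h2
    push Not at h2
    have h3 : #S ≤ #(⋃ v, Z v) :=
      mk_le_of_injective (f := fun s => (⟨some s, h2 s⟩ : (⋃ v, Z v : Set (Option S))))
        (fun s t hst => by
          have h4 : some s = some t := congrArg Subtype.val hst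
          exact Option.some.inj h4)
    exact absurd (h3.trans h1) (not_le.2 hS)
  obtain ⟨r, hr, v, hv⟩ := hd s q hq
  obtain ⟨r', hr', x, hx, h2⟩ := hcov v r hr
  have hv' := hφ s v r r' hr' hv
  cases x with
  | none => exact h2 r' le_rfl s hv'
  | some t =>
    refine hcon r' (hr'.trans (hr.trans hq)) s t v ?_ hv' h2
    rintro rfl
    exact hs (mem_iUnion.2 ⟨v, hx⟩)

/-- fibres -/
structure Fibr (Z K : Type) [Preorder Z] where
  val : Z → K → Prop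
  le : Z → K → K → Prop
  val_mono : ∀ {z z' k}, z' ≤ z → val z k → val z' k
  le_mono : ∀ {z z' k k'}, z' ≤ z → le z k' k → le z' k' k
  rfl' : ∀ z k, le z k k
  trans' : ∀ {z k k' k''}, le z k'' k' → le z k' k → le z k'' k

section

variable {Z K : Type} [Preorder Z]

def FClo (ν : Cardinal.{0}) (F : Fibr Z K) : Prop :=
  ∀ (J : Type) [LinearOrder J] [Nonempty J], #J ≤ ν → ∀ z (k : J → K), (∀ j, F.val z (k j)) →
    (∀ j j', j ≤ j' → F.le z (k j') (k j)) → ∃ k', F.val z k' ∧ ∀ j, F.le z k' (k j)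

structure Fam (F : Fibr Z K) (S : Type) where
  z : Z
  k : S → K
  ok : ∀ s, F.val z (k s)

instance (F : Fibr Z K) (S : Type) : Preorder (Fam F S) where
  le p q := p.z ≤ q.z ∧ ∀ s, F.le p.z (p.k s) (q.k s)
  le_refl p := ⟨le_rfl, fun _ => F.rfl' _ _⟩
  le_trans _ _ _ h h' := ⟨h.1.trans h'.1, fun s => F.trans' (h.2 s) (F.le_mono h.1 (h'.2 s))⟩

theorem Fam.le_def {F : Fibr Z K} {S : Type} {p q : Fam F S} :
    p ≤ q ↔ p.z ≤ q.z ∧ ∀ s, F.le p.z (p.k s) (q.k s) := Iff.rfl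

theorem Fam.clo {ν : Cardinal.{0}} {F : Fibr Z K} (hZ : Clo ν Z) (hF : FClo ν F) (S : Type) :
    Clo ν (Fam F S) := by
  intro J _ _ hJ p hp
  obtain ⟨z, hz⟩ := hZ J hJ (fun j => (p j).z) fun j j' hj => (hp j j' hj).1
  choose k hk hk' using fun s => hF J hJ z (fun j => (p j).k s)
    (fun j => F.val_mono (hz j) ((p j).ok s)) fun j j' hj => F.le_mono (hz j') ((hp j j' hj).2 s)
  exact ⟨⟨z, k, hk⟩, fun j => ⟨hz j, fun s => hk' s j⟩⟩

/-- changing one member of a family -/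
theorem Fam.upd {F : Fibr Z K} {S : Type} (T : Fam F S) {z : Z} (hz : z ≤ T.z)
    {k : S → K} (hk : ∀ s, F.val z (k s)) (hk' : ∀ s, F.le z (k s) (T.k s)) :
    (⟨z, k, hk⟩ : Fam F S) ≤ T := ⟨hz, hk'⟩

end

section

variable {P D N : Type} [Preorder P] [Preorder D]

/-- `br` names a cofinal branch through `R`, below `p` -/
def IsBr (R : D → N → D → N → RO P) (p : P) (br : D → N → RO P) : Prop :=
  (∀ y, ∀ q ≤ p, ∃ r ≤ q, ∃ y', y ≤ y' ∧ ∃ ξ, r ∈ br y' ξ) ∧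
  ∀ y y' ξ ξ', y ≤ y' → ∀ q ≤ p, q ∈ br y ξ → q ∈ br y' ξ' → q ∈ R y ξ y' ξ'

end

structure Abl (B Z K D N J : Type) [Preorder B] [Preorder Z] [Preorder D] where
  F : Fibr Z K
  Dec : J → B → Z → K → D → N → Prop
  R : J → D → N → D → N → RO (B × Z)
  dec_mono : ∀ {j b b' z z' k k' y ξ}, b' ≤ b → z' ≤ z → F.le z' k' k → Dec j b z k y ξ →
    Dec j b' z' k' y ξ
  coh : ∀ {j b z k y y' ξ ξ'}, F.val z k → y ≤ y' → Dec j b z k y ξ → Dec j b z k y' ξ' →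
    (b, z) ∈ R j y ξ y' ξ'
  tri : ∀ {p j y y' w ξ ξ' ζ}, y ≤ y' → y' ≤ w → p ∈ R j y ξ w ζ → p ∈ R j y' ξ' w ζ →
    p ∈ R j y ξ y' ξ'

section

variable {B Z K D N J : Type} [Preorder B] [Preorder Z] [Preorder D] (A : Abl B Z K D N J)

def Abl.Sp (j : J) (b : B) (z : Z) (k0 k1 : K) (w : D) : Prop :=
  (∀ b' ≤ b, ∀ z' ≤ z, ∀ k', A.F.val z' k' → A.F.le z' k' k0 → ∀ y, w ≤ y → ∀ ξ,
    ¬ A.Dec j b' z' k' y ξ) ∨
  (∀ b' ≤ b, ∀ z' ≤ z, ∀ k', A.F.val z' k' → A.F.le z' k' k1 → ∀ y, w ≤ y → ∀ ξ,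
    ¬ A.Dec j b' z' k' y ξ) ∨
  ∃ y0 y1 ξ0 ξ1, y0 ≤ y1 ∧ y1 ≤ w ∧ A.Dec j b z k0 y0 ξ0 ∧ A.Dec j b z k1 y1 ξ1 ∧
    (b, z) ∈ neg (A.R j y0 ξ0 y1 ξ1)

variable {A}

theorem Abl.Sp.mono {j : J} {b b' : B} {z z' : Z} {k0 k1 k0' k1' : K} {w w' : D}
    (h : A.Sp j b z k0 k1 w) (hb : b' ≤ b) (hz : z' ≤ z) (h0 : A.F.le z' k0' k0)
    (h1 : A.F.le z' k1' k1) (hw : w ≤ w') : A.Sp j b' z' k0' k1' w' := by
  rcases h with h | h | ⟨y0, y1, ξ0, ξ1, g1, g2, g3, g4, g5⟩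
  · exact Or.inl fun c hc u hu k' hk hk' y hy ξ => h c (hc.trans hb) u (hu.trans hz) k' hk
      (A.F.trans' hk' (A.F.le_mono hu h0)) y (hw.trans hy) ξ
  · exact Or.inr (Or.inl fun c hc u hu k' hk hk' y hy ξ => h c (hc.trans hb) u (hu.trans hz) k' hk
      (A.F.trans' hk' (A.F.le_mono hu h1)) y (hw.trans hy) ξ)
  · exact Or.inr (Or.inr ⟨y0, y1, ξ0, ξ1, g1, g2.trans hw, A.dec_mono hb hz h0 g3,
      A.dec_mono hb hz h1 g4, RO.dn g5 ⟨hb, hz⟩⟩)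

theorem Abl.Sp.absurd {j : J} {b : B} {z : Z} {k0 k1 k0' k1' : K} {w y : D} {ξ : N}
    (h : A.Sp j b z k0 k1 w) (hk0 : A.F.val z k0') (hk1 : A.F.val z k1')
    (h0 : A.F.le z k0' k0) (h1 : A.F.le z k1' k1) (hw : w ≤ y)
    (hd0 : A.Dec j b z k0' y ξ) (hd1 : A.Dec j b z k1' y ξ) : False := by
  rcases h with h | h | ⟨y0, y1, ξ0, ξ1, g1, g2, g3, g4, g5⟩
  · exact h b le_rfl z le_rfl k0' hk0 h0 y hw ξ hd0
  · exact h b le_rfl z le_rfl k1' hk1 h1 y hw ξ hd1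
  · have e1 := A.coh hk0 (g1.trans (g2.trans hw)) (A.dec_mono le_rfl le_rfl h0 g3) hd0
    have e2 := A.coh hk1 (g2.trans hw) (A.dec_mono le_rfl le_rfl h1 g4) hd1
    exact not_both (A.tri g1 (g2.trans hw) e1 e2) g5

/-- **Splitting.** -/
theorem Abl.split (hD : ∀ a b : D, ∃ y, a ≤ y ∧ b ≤ y) {b0 : B} {z0 : Z} {j : J}
    (nobr : ∀ p ≤ (b0, z0), ∀ br, ¬ IsBr (A.R j) p br) {b : B} {z : Z} (hb : b ≤ b0)
    (hz : z ≤ z0) {k0 k1 : K} (hk0 : A.F.val z k0) (hk1 : A.F.val z k1) :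
    ∃ b' ≤ b, ∃ z' ≤ z, ∃ k0' k1', A.F.val z' k0' ∧ A.F.val z' k1' ∧ A.F.le z' k0' k0 ∧
      A.F.le z' k1' k1 ∧ ∃ w, A.Sp j b' z' k0' k1' w := by
  by_contra hcon
  push Not at hcon
  -- both sides are decided cofinally
  have h0 : ∀ b' ≤ b, ∀ z' ≤ z, ∀ k', A.F.val z' k' → A.F.le z' k' k0 → ∀ w,
      ∃ b'' ≤ b', ∃ z'' ≤ z', ∃ k'', A.F.val z'' k'' ∧ A.F.le z'' k'' k' ∧ ∃ y, w ≤ y ∧ ∃ ξ,
        A.Dec j b'' z'' k'' y ξ := by
    intro b' hb' z' hz' k' hv hl w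
    by_contra h1
    refine hcon b' hb' z' hz' k' k1 hv (A.F.val_mono hz' hk1) hl (A.F.rfl' _ _) w (Or.inl ?_)
    intro b'' hb'' z'' hz'' k'' hv' hl' y hy ξ hdec
    exact h1 ⟨b'', hb'', z'', hz'', k'', hv', hl', y, hy, ξ, hdec⟩
  have h1 : ∀ b' ≤ b, ∀ z' ≤ z, ∀ k', A.F.val z' k' → A.F.le z' k' k1 → ∀ w,
      ∃ b'' ≤ b', ∃ z'' ≤ z', ∃ k'', A.F.val z'' k'' ∧ A.F.le z'' k'' k' ∧ ∃ y, w ≤ y ∧ ∃ ξ,
        A.Dec j b'' z'' k'' y ξ := by
    intro b' hb' z' hz' k' hv hl w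
    by_contra h1
    refine hcon b' hb' z' hz' k0 k' (A.F.val_mono hz' hk0) hv (A.F.rfl' _ _) hl w
      (Or.inr (Or.inl ?_))
    intro b'' hb'' z'' hz'' k'' hv' hl' y hy ξ hdec
    exact h1 ⟨b'', hb'', z'', hz'', k'', hv', hl', y, hy, ξ, hdec⟩
  have h2 : ∀ b' ≤ b, ∀ z' ≤ z, ∀ k0' k1', A.F.val z' k0' → A.F.val z' k1' →
      A.F.le z' k0' k0 → A.F.le z' k1' k1 → ∀ y0 y1 ξ0 ξ1, y0 ≤ y1 → A.Dec j b' z' k0' y0 ξ0 →
      A.Dec j b' z' k1' y1 ξ1 → (b', z') ∉ neg (A.R j y0 ξ0 y1 ξ1) := by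
    intro b' hb' z' hz' k0' k1' hv0 hv1 hl0 hl1 y0 y1 ξ0 ξ1 hy hd0 hd1 hneg
    exact hcon b' hb' z' hz' k0' k1' hv0 hv1 hl0 hl1 y1
      (Or.inr (Or.inr ⟨y0, y1, ξ0, ξ1, hy, le_rfl, hd0, hd1, hneg⟩))
  refine nobr (b, z) ⟨hb, hz⟩ (fun y ξ => cl {p : B × Z | p ≤ (b, z) ∧
    ∃ k', A.F.val p.2 k' ∧ A.F.le p.2 k' k0 ∧ A.Dec j p.1 p.2 k' y ξ}) ⟨?_, ?_⟩
  · intro y q hq
    obtain ⟨b'', hb'', z'', hz'', k'', hv, hl, y', hy', ξ, hdec⟩ :=
      h0 q.1 hq.1 q.2 hq.2 k0 (A.F.val_mono hq.2 hk0) (A.F.rfl' _ _) y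
    refine ⟨(b'', z''), ⟨hb'', hz''⟩, y', hy', ξ, meets_of_mem ⟨?_, k'', hv, hl, hdec⟩⟩
    exact ⟨hb''.trans hq.1, hz''.trans hq.2⟩
  · intro y y' ξ ξ' hyy' q hq hq1 hq2
    refine RO.rg fun q' hq' => ?_
    obtain ⟨q1, hq1', s1, ⟨hs1, ka, hva, hla, hda⟩, hqs1⟩ := hq1 q' hq'
    obtain ⟨q2, hq2', s2, ⟨hs2, kb, hvb, hlb, hdb⟩, hqs2⟩ := hq2 q1 (hq1'.trans hq')
    have hq2z : q2 ≤ (b, z) := (hq2'.trans (hq1'.trans hq')).trans hq
    obtain ⟨b3, hb3, z3, hz3, k3, hv3, hl3, w, hw, ζ, hd3⟩ :=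
      h1 q2.1 hq2z.1 q2.2 hq2z.2 k1 (A.F.val_mono hq2z.2 hk1) (A.F.rfl' _ _) y'
    -- transfer everything to `(b3, z3)`
    have hz3s1 : z3 ≤ s1.2 := hz3.trans ((hq2'.trans hqs1).2)
    have hb3s1 : b3 ≤ s1.1 := hb3.trans ((hq2'.trans hqs1).1)
    have hz3s2 : z3 ≤ s2.2 := hz3.trans (hqs2.2)
    have hb3s2 : b3 ≤ s2.1 := hb3.trans (hqs2.1)
    have hb3b : b3 ≤ b := hb3.trans hq2z.1
    have hz3z : z3 ≤ z := hz3.trans hq2z.2
    have e1 : (b3, z3) ∉ neg (A.R j y ξ w ζ) :=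
      h2 b3 hb3b z3 hz3z ka k3 (A.F.val_mono hz3s1 hva) hv3 (A.F.le_mono hz3s1 hla) hl3 y w ξ ζ
        (hyy'.trans hw) (A.dec_mono hb3s1 hz3s1 (A.F.rfl' _ _) hda) hd3
    obtain ⟨p4, hp4, hr4⟩ := exists_of_not_neg e1
    have hz4 : p4.2 ≤ z3 := hp4.2
    have hb4 : p4.1 ≤ b3 := hp4.1
    have e2 : (p4.1, p4.2) ∉ neg (A.R j y' ξ' w ζ) :=
      h2 p4.1 (hb4.trans hb3b) p4.2 (hz4.trans hz3z) kb k3
        (A.F.val_mono (hz4.trans hz3s2) hvb) (A.F.val_mono hz4 hv3)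
        (A.F.le_mono (hz4.trans hz3s2) hlb) (A.F.le_mono hz4 hl3) y' w ξ' ζ hw
        (A.dec_mono (hb4.trans hb3s2) (hz4.trans hz3s2) (A.F.rfl' _ _) hdb)
        (A.dec_mono hb4 hz4 (A.F.rfl' _ _) hd3)
    obtain ⟨p5, hp5, hr5⟩ := exists_of_not_neg e2
    have hp5' : p5 ≤ p4 := hp5
    refine ⟨p5, ?_, A.tri hyy' hw (RO.dn hr4 hp5') hr5⟩
    refine hp5'.trans (hp4.trans (le_trans ?_ (hq2'.trans hq1')))
    exact ⟨hb3, hz3⟩

/-- simultaneous splitting -/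
theorem Abl.split_fam (hD : ∀ a b : D, ∃ y, a ≤ y ∧ b ≤ y) {ν : Cardinal.{0}} (hν : ℵ₀ ≤ ν)
    (hZ : Clo ν Z) (hF : FClo ν A.F) (hB : #B ≤ ν) (hJ : #J ≤ ν) {b0 : B} {z0 : Z}
    (nobr : ∀ j, ∀ p ≤ (b0, z0), ∀ br, ¬ IsBr (A.R j) p br) {S Q : Type} (l r : Q → S)
    (hlr : ∀ q, l q ≠ r q) (hQ : #Q ≤ ν) (T0 : Fam A.F S) (hT0 : T0.z ≤ z0) :
    ∃ T ≤ T0, ∀ q j, ∀ b ≤ b0, ∃ b' ≤ b, ∃ w, A.Sp j b' T.z (T.k (l q)) (T.k (r q)) w := by
  classical
  obtain ⟨T, hT, h⟩ := (Fam.clo hZ hF S).dist (A := Q × J × B) (by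
      rw [mkp, mkp]
      exact mul_le_of_le hν hQ (mul_le_of_le hν hJ hB))
    (fun a T => a.2.2 ≤ b0 → ∃ b' ≤ a.2.2, ∃ w, A.Sp a.2.1 b' T.z (T.k (l a.1)) (T.k (r a.1)) w)
    (by
      rintro a T T' hTT h h1
      obtain ⟨b', hb', w, hw⟩ := h h1
      exact ⟨b', hb', w, hw.mono le_rfl hTT.1 (hTT.2 _) (hTT.2 _) le_rfl⟩) T0 (by
      rintro ⟨q, j, b⟩ T hT
      by_cases hb : b ≤ b0
      · obtain ⟨b', hb', z', hz', k0', k1', hv0, hv1, hl0, hl1, w, hw⟩ :=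
          Abl.split hD (nobr j) hb (hT.1.trans hT0) (T.ok (l q)) (T.ok (r q))
        have hne := hlr q
        refine ⟨⟨z', fun s => if s = l q then k0' else if s = r q then k1' else T.k s, ?_⟩,
          ⟨hz', ?_⟩, fun _ => ⟨b', hb', w, ?_⟩⟩
        · intro s
          by_cases h1 : s = l q
          · simp only [h1, if_true]
            exact hv0
          · by_cases h2 : s = r q
            · simp only [h1, h2, if_false, if_true]
              rw [if_neg hne.symm]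
              exact hv1
            · simp only [h1, h2, if_false]
              exact A.F.val_mono hz' (T.ok s)
        · intro s
          by_cases h1 : s = l q
          · simp only [h1, if_true]
            exact hl0
          · by_cases h2 : s = r q
            · simp only [h1, h2, if_false, if_true]
              rw [if_neg hne.symm]
              exact hl1
            · simp only [h1, h2, if_false]
              exact A.F.rfl' _ _
        · show A.Sp j b' z' (if l q = l q then k0' else if l q = r q then k1' else T.k (l q))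
            (if r q = l q then k0' else if r q = r q then k1' else T.k (r q)) w
          rw [if_pos rfl, if_neg hne.symm, if_pos rfl]
          exact hw
      · exact ⟨T, le_rfl, fun h => absurd h hb⟩)
  exact ⟨T, hT, fun q j b hb => h (q, j, b) hb⟩

/-- **First branch lemma.** -/
theorem Abl.branch1 {χ : Cardinal.{0}} (hχ : ℵ₀ ≤ χ) (hB : #B ≤ χ) (hN : #N ≤ χ) (hJ : #J ≤ χ)
    (hZ : Clo (Order.succ χ) Z) (hF : FClo (Order.succ χ) A.F) (hD : UpDir (Order.succ χ) D)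
    {b0 : B} {z0 : Z} {k0 : K} (hk0 : A.F.val z0 k0)
    (hlev : ∀ y, ∀ p ≤ (b0, z0), ∃ q ≤ p, ∃ y', y ≤ y' ∧ ∀ b ≤ q.1, ∀ z ≤ q.2, ∀ k,
      A.F.val z k → ∃ b' ≤ b, ∃ z' ≤ z, ∃ k', A.F.val z' k' ∧ A.F.le z' k' k ∧ ∃ j ξ,
        A.Dec j b' z' k' y' ξ) :
    ∃ j, ∃ p ≤ (b0, z0), ∃ br, IsBr (A.R j) p br := by
  classical
  by_contra hcon
  push Not at hcon
  have hsχ : χ ≤ Order.succ χ := Order.le_succ χ
  have hχ' : ℵ₀ ≤ Order.succ χ := hχ.trans hsχ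
  have hD2 : ∀ a b : D, ∃ y, a ≤ y ∧ b ≤ y := hD.two hχ'
  let S : Type := (Order.succ χ).ord.ToType
  have hS : #S = Order.succ χ := Cardinal.mk_ord_toType _
  obtain ⟨T1, hT1, h1⟩ := Abl.split_fam (A := A) hD2 hχ' hZ hF (hB.trans hsχ) (hJ.trans hsχ)
    hcon (S := S) (Q := {q : S × S // q.1 ≠ q.2}) (fun q => q.1.1) (fun q => q.1.2)
    (fun q => q.2) ((mk_subtype_le _).trans (by
      rw [mkp, hS]
      exact mul_le_of_le hχ' le_rfl le_rfl)) ⟨z0, fun _ => k0, fun _ => hk0⟩ le_rfl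
  have hne : Nonempty D := by
    obtain ⟨y, _⟩ := hD PEmpty (fun a => a.elim) (by simp)
    exact ⟨y⟩
  have h2 : ∀ a : {q : S × S // q.1 ≠ q.2} × J × B, ∃ w, a.2.2 ≤ b0 → ∃ b' ≤ a.2.2,
      A.Sp a.2.1 b' T1.z (T1.k a.1.1.1) (T1.k a.1.1.2) w := by
    rintro ⟨q, j, b⟩
    by_cases hb : b ≤ b0
    · obtain ⟨b', hb', w, hw⟩ := h1 q j b hb
      exact ⟨w, fun _ => ⟨b', hb', hw⟩⟩
    · exact ⟨Classical.arbitrary D, fun h => absurd h hb⟩
  choose W hW using h2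
  obtain ⟨w, hw⟩ := hD _ W (by
    rw [mkp, mkp]
    refine mul_le_of_le hχ' ?_ (mul_le_of_le hχ' (hJ.trans hsχ) (hB.trans hsχ))
    refine (mk_subtype_le _).trans ?_
    rw [mkp, hS]
    exact mul_le_of_le hχ' le_rfl le_rfl)
  obtain ⟨q, hq, y, hy, h3⟩ := hlev w (b0, T1.z) ⟨le_rfl, hT1.1⟩
  have hqz : q.2 ≤ T1.z := hq.2
  have hqb : q.1 ≤ b0 := hq.1
  obtain ⟨T3, hT3, h4⟩ := (Fam.clo hZ hF S).dist (A := S) (by rw [hS])
    (fun s T => ∃ b' ≤ q.1, ∃ j ξ, A.Dec j b' T.z (T.k s) y ξ) (by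
      rintro s T T' hTT ⟨b', hb', j, ξ, h⟩
      exact ⟨b', hb', j, ξ, A.dec_mono le_rfl hTT.1 (hTT.2 s) h⟩)
    ⟨q.2, T1.k, fun s => A.F.val_mono hqz (T1.ok s)⟩ (by
      intro s T hT
      obtain ⟨b', hb', z', hz', k', hv, hl, j, ξ, hdec⟩ := h3 q.1 le_rfl T.z hT.1 (T.k s) (T.ok s)
      refine ⟨⟨z', fun t => if t = s then k' else T.k t, ?_⟩, ⟨hz', ?_⟩, b', hb', j, ξ, ?_⟩
      · intro t
        by_cases h5 : t = s
        · simp only [h5, if_true]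
          exact hv
        · simp only [h5, if_false]
          exact A.F.val_mono hz' (T.ok t)
      · intro t
        by_cases h5 : t = s
        · simp only [h5, if_true]
          exact hl
        · simp only [h5, if_false]
          exact A.F.rfl' _ _
      · show A.Dec j b' z' (if s = s then k' else T.k s) y ξ
        rw [if_pos rfl]
        exact hdec)
  choose bs hbs js ξs hdec using h4
  have h5 : ¬ Function.Injective fun s => ((bs s, js s, ξs s) : B × J × N) := by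
    intro hinj
    have h6 := mk_le_of_injective hinj
    rw [hS, mkp, mkp] at h6
    exact absurd (h6.trans (mul_le_of_le hχ hB (mul_le_of_le hχ hJ hN)))
      (not_le.2 (Order.lt_succ χ))
  rw [Function.Injective] at h5
  push Not at h5
  obtain ⟨s, t, hst, hne'⟩ := h5
  obtain ⟨e1, e2, e3⟩ : bs s = bs t ∧ js s = js t ∧ ξs s = ξs t := by
    simpa using hst
  obtain ⟨b', hb', hsp⟩ := hW (⟨(s, t), hne'⟩, js s, bs s) ((hbs s).trans hqb)
  have hT31 : T3.z ≤ T1.z := hT3.1.trans hqz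
  refine (hsp.mono (k0' := T3.k s) (k1' := T3.k t) le_rfl hT31 (hT3.2 s) (hT3.2 t)
    (hw _)).absurd (T3.ok s) (T3.ok t)
    (A.F.rfl' _ _) (A.F.rfl' _ _) hy (A.dec_mono hb' le_rfl (A.F.rfl' _ _) (hdec s)) ?_
  have h7 := hdec t
  rw [← e1, ← e2, ← e3] at h7
  exact A.dec_mono hb' le_rfl (A.F.rfl' _ _) h7

/-- **Second branch lemma.** -/
theorem Abl.branch2 {χ : Cardinal.{0}} (hχ : ℵ₀ ≤ χ) (hχ2 : ∀ θ < χ, 2 ^ θ ≤ χ)
    (hB : #B ≤ Order.succ χ) (hN : #N ≤ χ) (hJ : #J ≤ χ)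
    (hZ : Clo (Order.succ χ) Z) (hF : FClo (Order.succ χ) A.F) (hD : UpDir χ D)
    (hcov : Cov χ (B × Z))
    {b0 : B} {z0 : Z} {k0 : K} (hk0 : A.F.val z0 k0)
    (hlev : ∀ y, ∀ p ≤ (b0, z0), ∃ q ≤ p, ∃ y', y ≤ y' ∧ ∀ b ≤ q.1, ∀ z ≤ q.2, ∀ k,
      A.F.val z k → ∃ b' ≤ b, ∃ z' ≤ z, ∃ k', A.F.val z' k' ∧ A.F.le z' k' k ∧ ∃ j ξ,
        A.Dec j b' z' k' y' ξ) :
    ∃ j, ∃ p ≤ (b0, z0), ∃ br, IsBr (A.R j) p br := by
  classical
  by_contra hcon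
  push Not at hcon
  have hsχ : χ ≤ Order.succ χ := Order.le_succ χ
  have hχ' : ℵ₀ ≤ Order.succ χ := hχ.trans hsχ
  have hD2 : ∀ a b : D, ∃ y, a ≤ y ∧ b ≤ y := hD.two hχ
  have hne : Nonempty D := by
    obtain ⟨y, _⟩ := hD PEmpty (fun a => a.elim) (by simp)
    exact ⟨y⟩
  let L : Type := χ.ord.ToType
  have hL : #L = χ := Cardinal.mk_ord_toType _
  have hIio : ∀ a : L, #(Set.Iio a) < χ := fun a => Cardinal.mk_Iio_toType_ord_lt a
  let S : Type := L → Bool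
  have hS : χ < #S := by
    show χ < #(L → Bool)
    rw [← power_def, hL, mk_bool]
    exact cantor χ
  let t0 : Fam A.F S := ⟨z0, fun _ => k0, fun _ => hk0⟩
  have : Nonempty (Fam A.F S) := ⟨t0⟩
  have hNdc : ∀ a : L, #(Set.Iio a → Bool) ≤ χ := by
    intro a
    rw [← power_def, mk_bool]
    exact hχ2 _ (hIio a)
  have hLne : Nonempty L := by
    rw [← mk_ne_zero_iff, hL]
    exact (aleph0_pos.trans_le hχ).ne'
  -- the construction of the tree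
  obtain ⟨p, hp, hp'⟩ := rec_lemma (T := Fam A.F S) (J := L)
    (fun a => {T | T ≤ t0 ∧ (∀ σ τ : S, (∀ b ≤ a, σ b = τ b) → T.k σ = T.k τ) ∧
      ∀ σ τ : S, (∀ b < a, σ b = τ b) → σ a = false → τ a = true → ∀ j, ∀ b ≤ b0,
        ∃ b' ≤ b, ∃ w, A.Sp j b' T.z (T.k σ) (T.k τ) w}) (by
      intro a p h1 h2
      -- a lower bound
      obtain ⟨T', hT't, hT'1, hT'2⟩ : ∃ T' : Fam A.F S, T' ≤ t0 ∧
          (∀ σ τ : S, (∀ b < a, σ b = τ b) → T'.k σ = T'.k τ) ∧ ∀ b < a, T' ≤ p b := by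
        rcases isEmpty_or_nonempty (Set.Iio a) with h3 | h3
        · exact ⟨t0, le_rfl, fun _ _ _ => rfl, fun b hb => isEmptyElim (⟨b, hb⟩ : Set.Iio a)⟩
        · have hc : #(Set.Iio a) ≤ Order.succ χ := (hIio a).le.trans hsχ
          obtain ⟨z, hz⟩ := hZ (Set.Iio a) hc (fun b => (p b.1).z)
            (fun b c hbc => (h2 b.1 c.1 hbc c.2).1)
          have h4 : ∀ f : Set.Iio a → K, ∃ k', (∃ k'', A.F.val z k'' ∧ ∀ b, A.F.le z k'' (f b)) →
              A.F.val z k' ∧ ∀ b, A.F.le z k' (f b) := by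
            intro f
            by_cases h5 : ∃ k'', A.F.val z k'' ∧ ∀ b, A.F.le z k'' (f b)
            · obtain ⟨k'', h6⟩ := h5
              exact ⟨k'', fun _ => h6⟩
            · exact ⟨k0, fun h => absurd h h5⟩
          choose Lb hLb using h4
          have h5 : ∀ σ, A.F.val z (Lb fun b => (p b.1).k σ) ∧
              ∀ b : Set.Iio a, A.F.le z (Lb fun b => (p b.1).k σ) ((p b.1).k σ) := by
            intro σ
            exact hLb _ (hF (Set.Iio a) hc z (fun b => (p b.1).k σ)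
              (fun b => A.F.val_mono (hz b) ((p b.1).ok σ))
              (fun b c hbc => A.F.le_mono (hz c) ((h2 b.1 c.1 hbc c.2).2 σ)))
          have h6 : ∀ b (hb : b < a),
              (⟨z, fun σ => Lb fun b => (p b.1).k σ, fun σ => (h5 σ).1⟩ : Fam A.F S) ≤ p b :=
            fun b hb => ⟨hz ⟨b, hb⟩, fun σ => (h5 σ).2 ⟨b, hb⟩⟩
          refine ⟨⟨z, fun σ => Lb fun b => (p b.1).k σ, fun σ => (h5 σ).1⟩, ?_, ?_, h6⟩
          · obtain ⟨b⟩ := h3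
            exact (h6 b.1 b.2).trans (h1 b.1 b.2).1
          · intro σ τ hστ
            have h7 : (fun b : Set.Iio a => (p b.1).k σ) = fun b => (p b.1).k τ := by
              funext b
              exact (h1 b.1 b.2).2.1 σ τ fun c hc => hστ c (lt_of_le_of_lt hc b.2)
            exact congrArg Lb h7
      -- extension of a node to a branch
      let ext : (Set.Iio a → Bool) → S := fun s b => if h : b < a then s ⟨b, h⟩ else false
      let T0 : Fam A.F ((Set.Iio a → Bool) × Bool) :=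
        ⟨T'.z, fun s => T'.k (ext s.1), fun s => T'.ok _⟩
      obtain ⟨U, hU, h8⟩ := Abl.split_fam (A := A) hD2 hχ' hZ hF hB (hJ.trans hsχ)
        hcon (Q := Set.Iio a → Bool) (fun s => (s, false)) (fun s => (s, true))
        (fun s => by simp) ((hNdc a).trans hsχ) T0 hT't.1
      have hle : (⟨U.z, fun σ => U.k (fun b => σ b.1, σ a), fun σ => U.ok _⟩ : Fam A.F S) ≤ T' := by
        refine ⟨hU.1, fun σ => ?_⟩
        have h9 := hU.2 (fun b => σ b.1, σ a)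
        have h10 : T'.k (ext fun b => σ b.1) = T'.k σ := by
          apply hT'1
          intro b hb
          show (if h : b < a then σ b else false) = σ b
          rw [dif_pos hb]
        show A.F.le U.z (U.k (fun b => σ b.1, σ a)) (T'.k σ)
        rw [← h10]
        exact h9
      refine ⟨⟨U.z, fun σ => U.k (fun b => σ b.1, σ a), fun σ => U.ok _⟩,
        ⟨hle.trans hT't, ?_, ?_⟩, fun b hb => hle.trans (hT'2 b hb)⟩
      · intro σ τ hστ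
        have h9 : (fun b : Set.Iio a => σ b.1) = fun b => τ b.1 := by
          funext b
          exact hστ b.1 (le_of_lt b.2)
        show U.k (fun b => σ b.1, σ a) = U.k (fun b => τ b.1, τ a)
        rw [h9, hστ a le_rfl]
      · intro σ τ hστ h9 h10 j b hb
        obtain ⟨b', hb', w, hw⟩ := h8 (fun b => σ b.1) j b hb
        refine ⟨b', hb', w, ?_⟩
        have h11 : (fun b : Set.Iio a => τ b.1) = fun b => σ b.1 := by
          funext b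
          exact (hστ b.1 b.2).symm
        show A.Sp j b' U.z (U.k (fun b => σ b.1, σ a)) (U.k (fun b => τ b.1, τ a)) w
        rw [h9, h10, h11]
        exact hw)
  -- the final family
  obtain ⟨T, hT⟩ := Fam.clo hZ hF S L (by rw [hL]; exact hsχ) p hp'
  have hT0 : T ≤ t0 := (hT (Classical.arbitrary L)).trans (hp _).1
  -- bounding the witnesses
  obtain ⟨q1, hq1, W, hW, hcW⟩ := hcov (Σ a : L, (Set.Iio a → Bool) × J) D
    (fun i w r => r.2 ≤ T.z ∧ ∀ σ τ : S, (∀ b : Set.Iio i.1, σ b.1 = i.2.1 b) →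
      (∀ b : Set.Iio i.1, τ b.1 = i.2.1 b) → σ i.1 = false → τ i.1 = true →
      A.Sp i.2.2 r.1 r.2 (T.k σ) (T.k τ) w) (by
      rw [mk_sigma]
      refine (sum_le_mk_mul_iSup _).trans ?_
      rw [hL]
      refine mul_le_of_le hχ le_rfl (ciSup_le' fun a => ?_)
      rw [mkp]
      exact mul_le_of_le hχ (hNdc a) hJ) (by
      intro i w r r' hr h
      exact ⟨hr.2.trans h.1, fun σ τ h1 h2 h3 h4 => (h.2 σ τ h1 h2 h3 h4).mono hr.1 hr.2
        (A.F.rfl' _ _) (A.F.rfl' _ _) le_rfl⟩) (b0, T.z) (by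
      rintro ⟨a, s, j⟩ q hq
      let σ0 : S := fun b => if h : b < a then s ⟨b, h⟩ else false
      let τ0 : S := fun b => if h : b < a then s ⟨b, h⟩ else true
      have e1 : ∀ b (hb : b < a), σ0 b = s ⟨b, hb⟩ := fun b hb => dif_pos hb
      have e2 : ∀ b (hb : b < a), τ0 b = s ⟨b, hb⟩ := fun b hb => dif_pos hb
      have e3 : σ0 a = false := dif_neg (lt_irrefl a)
      have e4 : τ0 a = true := dif_neg (lt_irrefl a)
      have hqb : q.1 ≤ b0 := hq.1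
      have hqz : q.2 ≤ T.z := hq.2
      obtain ⟨b', hb', w, hw⟩ := (hp a).2.2 σ0 τ0 (fun b hb => (e1 b hb).trans (e2 b hb).symm)
        e3 e4 j q.1 hqb
      refine ⟨(b', q.2), ⟨hb', le_rfl⟩, w, hqz, fun σ τ g1 g2 g3 g4 => ?_⟩
      have e5 : (p a).k σ = (p a).k σ0 := by
        apply (hp a).2.1
        intro b hb
        rcases eq_or_lt_of_le hb with h | h
        · rw [h, e3, g3]
        · rw [e1 b h]
          exact g1 ⟨b, h⟩
      have e6 : (p a).k τ = (p a).k τ0 := by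
        apply (hp a).2.1
        intro b hb
        rcases eq_or_lt_of_le hb with h | h
        · rw [h, e4, g4]
        · rw [e2 b h]
          exact g2 ⟨b, h⟩
      refine hw.mono le_rfl (hqz.trans (hT a).1) ?_ ?_ le_rfl
      · rw [← e5]
        exact A.F.le_mono hqz ((hT a).2 σ)
      · rw [← e6]
        exact A.F.le_mono hqz ((hT a).2 τ))
  obtain ⟨y0, hy0⟩ := hD (⋃ i, W i : Set D) (fun w => w.1) (by
    refine (mk_iUnion_le _).trans ?_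
    refine mul_le_of_le hχ ?_ (ciSup_le' hW)
    rw [mk_sigma]
    refine (sum_le_mk_mul_iSup _).trans ?_
    rw [hL]
    refine mul_le_of_le hχ le_rfl (ciSup_le' fun a => ?_)
    rw [mkp]
    exact mul_le_of_le hχ (hNdc a) hJ)
  have hq1b : q1.1 ≤ b0 := hq1.1
  have hq1z : q1.2 ≤ T.z := hq1.2
  obtain ⟨q2, hq2, y, hy, hdec⟩ := hlev y0 q1 ⟨hq1b, hq1z.trans hT0.1⟩
  have hq2b : q2.1 ≤ q1.1 := hq2.1
  have hq2z : q2.2 ≤ q1.2 := hq2.2
  obtain ⟨q3, hq3, σ, τ, ⟨j, ξ⟩, hne', ⟨ka, hva, hla, hda⟩, ⟨kb, hvb, hlb, hdb⟩⟩ :=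
    hcov.pigeon hχ hS (V := J × N) (by
      rw [mkp]
      exact mul_le_of_le hχ hJ hN)
    (fun σ v r => ∃ k', A.F.val r.2 k' ∧ A.F.le r.2 k' (T.k σ) ∧ A.Dec v.1 r.1 r.2 k' y v.2)
    (by
      rintro σ v r r' hr ⟨k', h1, h2, h3⟩
      exact ⟨k', A.F.val_mono hr.2 h1, A.F.le_mono hr.2 h2,
        A.dec_mono hr.1 hr.2 (A.F.rfl' _ _) h3⟩) q2 (by
      intro σ q hq
      obtain ⟨b', hb', z', hz', k', hv, hl, j, ξ, hd⟩ := hdec q.1 hq.1 q.2 hq.2 (T.k σ)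
        (A.F.val_mono (hq.2.trans (hq2z.trans hq1z)) (T.ok σ))
      exact ⟨(b', z'), ⟨hb', hz'⟩, (j, ξ), k', hv, hl, hd⟩)
  -- the least difference
  have h1 : ∃ a, σ a ≠ τ a := by
    by_contra h2
    push Not at h2
    exact hne' (funext h2)
  obtain ⟨a, ha, hmin⟩ := WellFounded.has_min (wellFounded_lt (α := L)) {a | σ a ≠ τ a} h1
  have hmin' : ∀ b < a, σ b = τ b := by
    intro b hb
    by_contra h2
    exact hmin b h2 hb
  have hq3' : q3 ≤ q1 := hq3.trans hq2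
  have main : ∀ (σ τ : S) (ka kb : K), (∀ b < a, σ b = τ b) → σ a = false → τ a = true →
      A.F.val q3.2 ka → A.F.le q3.2 ka (T.k σ) → A.Dec j q3.1 q3.2 ka y ξ →
      A.F.val q3.2 kb → A.F.le q3.2 kb (T.k τ) → A.Dec j q3.1 q3.2 kb y ξ → False := by
    intro σ τ ka kb h2 h3 h4 hva hla hda hvb hlb hdb
    obtain ⟨q4, hq4, w, hw, hw1, hw2⟩ := hcW ⟨a, fun b => σ b.1, j⟩ q3 hq3'
    have hw3 := hw2 σ τ (fun b => rfl) (fun b => (h2 b.1 b.2).symm) h3 h4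
    have hww : w ≤ y0 := hy0 ⟨w, mem_iUnion.2 ⟨_, hw⟩⟩
    exact hw3.absurd (A.F.val_mono hq4.2 hva) (A.F.val_mono hq4.2 hvb)
      (A.F.le_mono hq4.2 hla) (A.F.le_mono hq4.2 hlb) (hww.trans hy)
      (A.dec_mono hq4.1 hq4.2 (A.F.rfl' _ _) hda) (A.dec_mono hq4.1 hq4.2 (A.F.rfl' _ _) hdb)
  have ha' : σ a ≠ τ a := ha
  cases h2 : σ a with
  | false =>
    have h3 : τ a = true := by
      cases h4 : τ a with
      | false => exact absurd (h2.trans h4.symm) ha'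
      | true => rfl
    exact main σ τ ka kb hmin' h2 h3 hva hla hda hvb hlb hdb
  | true =>
    have h3 : τ a = false := by
      cases h4 : τ a with
      | true => exact absurd (h2.trans h4.symm) ha'
      | false => rfl
    exact main τ σ kb ka (fun b hb => (hmin' b hb).symm) h3 h2 hvb hlb hdb hva hla hda

end

end Run7.h888
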