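import Pool.Agent.Run7.h888.A1

/-!
# Posets of small partial functions
-/

set_option autoImplicit false

namespace Run7.h888

open Cardinal Set Pool.Agent.Helper669.Forcing Pool.Agent.Helper669.K Pool.Agent.R588.S

/-- The partial functions `f` of size less than `mu` from `A` to `Y` with `G a (f a)`. -/
@[ext] structure Pf (mu : Cardinal.{0}) {A Y : Type} (G : A → Y → Prop) where
  f : A → Option Y
  small : #{x // f x ≠ none} < mu
  ok : ∀ a y, f a = some y → G a y

section

variable {mu : Cardinal.{0}} {A Y : Type} {G : A → Y → Prop}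

instance : Preorder (Pf mu G) where
  le q p := ∀ a y, p.f a = some y → q.f a = some y
  le_refl _ _ _ h := h
  le_trans _ _ _ h h' a y hy := h a y (h' a y hy)

theorem Pf.le_def {q p : Pf mu G} : q ≤ p ↔ ∀ a y, p.f a = some y → q.f a = some y := Iff.rfl

/-- the union of a directed set -/
theorem Pf.exists_dinf (hmu : mu.IsRegular) (D : Set (Pf mu G)) (hD : #D < mu)
    (hdir : ∀ a ∈ D, ∀ b ∈ D, ∃ c ∈ D, c ≤ a ∧ c ≤ b) :
    ∃ q : Pf mu G, (∀ p ∈ D, q ≤ p) ∧ ∀ a, (∀ p ∈ D, p.f a = none) → q.f a = none := by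
  classical
  refine ⟨⟨fun a => if h : ∃ p ∈ D, p.f a ≠ none then h.choose.f a else none, ?_, ?_⟩, ?_, ?_⟩
  · have h1 : #(⋃ p : D, {x | p.1.f x ≠ none} : Set A) < mu := by
      refine (mk_iUnion_le_sum_mk).trans_lt ?_
      exact Cardinal.sum_lt_of_isRegular hmu hD fun p => p.1.small
    refine lt_of_le_of_lt ?_ h1
    refine mk_le_mk_of_subset (s := {x | (if h : ∃ p ∈ D, p.f x ≠ none then h.choose.f x
      else none) ≠ none}) ?_
    intro x hx
    by_cases h : ∃ p ∈ D, p.f x ≠ none
    · obtain ⟨p, hp, h2⟩ := h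
      exact mem_iUnion.2 ⟨⟨p, hp⟩, h2⟩
    · have hx' : (if h : ∃ p ∈ D, p.f x ≠ none then h.choose.f x else none) ≠ none := hx
      rw [dif_neg h] at hx'
      exact absurd rfl hx'
  · intro a y h
    by_cases h2 : ∃ p ∈ D, p.f a ≠ none
    · rw [dif_pos h2] at h
      exact (h2.choose).ok a y h
    · rw [dif_neg h2] at h
      exact absurd h (by simp)
  · intro p hp a y hy
    have h2 : ∃ p ∈ D, p.f a ≠ none := ⟨p, hp, by rw [hy]; simp⟩
    show (if h : ∃ p ∈ D, p.f a ≠ none then h.choose.f a else none) = some y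
    rw [dif_pos h2]
    obtain ⟨h3, h4⟩ := h2.choose_spec
    obtain ⟨c, hc, h5, h6⟩ := hdir p hp _ h3
    obtain ⟨y', hy'⟩ := Option.ne_none_iff_exists'.1 h4
    have h7 := h5 a y hy
    have h8 := h6 a y' hy'
    rw [h7] at h8
    rw [hy', ← Option.some.inj h8]
  · intro a h
    show (if h : ∃ p ∈ D, p.f a ≠ none then h.choose.f a else none) = none
    rw [dif_neg]
    rintro ⟨p, hp, h2⟩
    exact h2 (h p hp)

theorem Pf.dirClosed (hmu : mu.IsRegular) : DirClosed mu (Pf mu G) := by
  intro D hD _ hdir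
  obtain ⟨q, hq, _⟩ := Pf.exists_dinf hmu D hD hdir
  exact ⟨q, hq⟩

/-- the union of two compatible conditions -/
theorem Pf.exists_join (hmu : ℵ₀ ≤ mu) (c s : Pf mu G)
    (h : ∀ a y y', c.f a = some y → s.f a = some y' → y = y') :
    ∃ d : Pf mu G, d ≤ c ∧ d ≤ s ∧ ∀ a, c.f a = none → s.f a = none → d.f a = none := by
  classical
  refine ⟨⟨fun a => (c.f a).or (s.f a), ?_, ?_⟩, ?_, ?_, ?_⟩
  · have h1 : {z : A | (c.f z).or (s.f z) ≠ none} ⊆ {z | c.f z ≠ none} ∪ {z | s.f z ≠ none} := by
      intro z hz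
      by_contra hcon
      simp only [Set.mem_union, Set.mem_ofPred_eq, not_or, not_not] at hcon
      apply hz
      rw [hcon.1, hcon.2]
      rfl
    refine lt_of_le_of_lt (Cardinal.mk_le_mk_of_subset h1) ?_
    exact (Cardinal.mk_union_le _ _).trans_lt (Cardinal.add_lt_of_lt hmu c.small s.small)
  · intro a b h
    rcases hc : c.f a with _ | d
    · rw [hc] at h
      exact s.ok a b h
    · rw [hc] at h
      exact c.ok a b (hc.trans h)
  · intro a y hy
    show (c.f a).or (s.f a) = some y
    rw [hy]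
    rfl
  · intro a y hy
    show (c.f a).or (s.f a) = some y
    rcases hc : c.f a with _ | d
    · rw [hy]
      rfl
    · rw [h a d y hc hy]
      rfl
  · intro a h1 h2
    show (c.f a).or (s.f a) = none
    rw [h1, h2]
    rfl

/-- adding one value -/
theorem Pf.exists_insert (hmu : ℵ₀ ≤ mu) (c : Pf mu G) (a : A) (y : Y) (h : c.f a = none)
    (hG : G a y) : ∃ d : Pf mu G, d ≤ c ∧ d.f a = some y := by
  classical
  have h1 : #{x // (if x = a then some y else none : Option Y) ≠ none} < mu := by
    refine lt_of_lt_of_le ?_ hmu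
    rw [lt_aleph0_iff_finite]
    refine Set.Finite.subset (Set.finite_singleton a) (s := {a}) (t := {x | (if x = a then some y
      else none : Option Y) ≠ none}) ?_
    intro x hx
    by_contra h2
    have h3 : x ≠ a := h2
    have hx' : (if x = a then some y else none : Option Y) ≠ none := hx
    rw [if_neg h3] at hx'
    exact hx' rfl
  let s : Pf mu G := ⟨fun x => if x = a then some y else none, h1, by
    intro x y' hx
    by_cases h2 : x = a
    · rw [if_pos h2] at hx
      rw [h2, ← Option.some.inj hx]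
      exact hG
    · rw [if_neg h2] at hx
      exact absurd hx (by simp)⟩
  obtain ⟨d, hd, hd', _⟩ := Pf.exists_join hmu c s (by
    intro x z z' hz hz'
    by_cases h2 : x = a
    · rw [h2, h] at hz
      exact absurd hz (by simp)
    · have hz'' : (if x = a then some y else none : Option Y) = some z' := hz'
      rw [if_neg h2] at hz''
      exact absurd hz'' (by simp))
  refine ⟨d, hd, hd' a y ?_⟩
  show (if a = a then some y else none : Option Y) = some y
  rw [if_pos rfl]

/-- the empty condition -/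
def Pf.top (hmu : 0 < mu) : Pf mu G where
  f _ := none
  small := by
    have : #{x : A // (none : Option Y) ≠ none} = 0 := by
      rw [mk_eq_zero_iff]
      exact ⟨fun x => x.2 rfl⟩
    rw [this]
    exact hmu
  ok := fun a y h => absurd h (by simp)

theorem Pf.le_top (hmu : 0 < mu) (c : Pf mu G) : c ≤ Pf.top hmu := fun a y h => by
  have : (none : Option Y) = some y := h
  exact absurd this (by simp)

end

/-- partial functions of size less than `θ` from `θ` to `Y` -/
abbrev Fn (θ : Cardinal.{0}) (Y : Type) : Type :=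
  Pf θ (A := θ.ord.ToType) (Y := Y) (fun _ _ => True)

/-- the Levy collapse of all ordinals below `ka` to `mu` -/
abbrev Lv (mu ka : Cardinal.{0}) : Type :=
  Pf mu (A := ka.ord.ToType × mu.ord.ToType) (Y := ka.ord.ToType) (fun z b => b < z.1)

/-- fewer than `c` elements of a regular `c` are bounded -/
theorem bdd_reg {c : Cardinal.{0}} (hc : c.IsRegular) (A : Set c.ord.ToType) (hA : #A < c) :
    ∃ b, ∀ a ∈ A, a < b := by
  have h1 : Order.cof c.ord.ToType = c := by
    rw [Ordinal.cof_toType, hc.cof_ord]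
  have h2 : ¬ IsCofinal A := by
    intro h
    have h3 := Order.cof_le h
    rw [h1] at h3
    exact absurd h3 (not_le.2 hA)
  rw [IsCofinal] at h2
  push Not at h2
  exact h2

theorem Pf.card_le {mu : Cardinal.{0}} {A Y : Type} {G : A → Y → Prop} :
    #(Pf mu G) ≤ (#Y + 1) ^ #A := by
  have h1 : Function.Injective (fun c : Pf mu G => c.f) := fun c d h => Pf.ext h
  refine (mk_le_of_injective h1).trans ?_
  rw [← power_def, mk_option]

/-- the size of the Levy collapse -/
theorem Lv.card_le {mu ka : Cardinal.{0}} (hka : ka.IsRegular) (hs : ∀ θ < ka, 2 ^ θ < ka)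
    (hmu : mu < ka) : #(Lv mu ka) ≤ ka := by
  classical
  have hka0 : ℵ₀ ≤ ka := hka.aleph0_le
  have hK : #(ka.ord.ToType) = ka := mk_ord_toType _
  have hM : #(mu.ord.ToType) = mu := mk_ord_toType _
  have h1 : ∀ c : Lv mu ka, ∃ b : ka.ord.ToType, ∀ z, c.f z ≠ none → z.1 < b := by
    intro c
    obtain ⟨b, hb⟩ := bdd_reg hka (Prod.fst '' {z | c.f z ≠ none})
      (mk_image_le.trans_lt (c.small.trans hmu))
    exact ⟨b, fun z hz => hb _ ⟨z, hz, rfl⟩⟩
  choose b hb using h1
  let F : Lv mu ka → Σ b : ka.ord.ToType, (Set.Iio b → mu.ord.ToType → Option (Set.Iio b)) :=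
    fun c => ⟨b c, fun a x => match h : c.f (a.1, x) with
      | none => none
      | some y => some ⟨y, (c.ok _ _ h).trans a.2⟩⟩
  have hF : Function.Injective F := by
    intro c d h
    have key : ∀ (c d : Lv mu ka) (e e' : ka.ord.ToType) (he : e = e')
        (u : Set.Iio e → mu.ord.ToType → Option (Set.Iio e))
        (v : Set.Iio e' → mu.ord.ToType → Option (Set.Iio e')), HEq u v →
        (∀ (a : Set.Iio e) x y, c.f (a.1, x) = some y → ∃ hy, u a x = some ⟨y, hy⟩) →
        (∀ (a : Set.Iio e') x y, v a x = some y → d.f (a.1, x) = some y.1) →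
        (∀ z, c.f z ≠ none → z.1 < e) → ∀ z y, c.f z = some y → d.f z = some y := by
      intro c d e e' he u v huv h1 h2 h3 z y hy
      subst he
      have h4 : u = v := eq_of_heq huv
      subst h4
      have h5 : z.1 < e := h3 z (by rw [hy]; simp)
      obtain ⟨h6, h7⟩ := h1 ⟨z.1, h5⟩ z.2 y hy
      exact h2 _ _ _ h7
    have hsome : ∀ (c : Lv mu ka) (a : Set.Iio (b c)) x y, c.f (a.1, x) = some y →
        ∃ hy, (F c).2 a x = some ⟨y, hy⟩ := by
      intro c a x y hy
      refine ⟨(c.ok _ _ hy).trans a.2, ?_⟩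
      show (match h : c.f (a.1, x) with
        | none => none
        | some y => some ⟨y, (c.ok _ _ h).trans a.2⟩ : Option (Set.Iio (b c))) = _
      split
      · rename_i h
        rw [hy] at h
        exact absurd h (by simp)
      · rename_i y' h
        rw [hy] at h
        have := Option.some.inj h
        subst this
        rfl
    have hsome' : ∀ (c : Lv mu ka) (a : Set.Iio (b c)) x (y : Set.Iio (b c)),
        (F c).2 a x = some y → c.f (a.1, x) = some y.1 := by
      intro c a x y hy
      have hy' : (match h : c.f (a.1, x) with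
        | none => none
        | some y => some ⟨y, (c.ok _ _ h).trans a.2⟩ : Option (Set.Iio (b c))) = some y := hy
      split at hy'
      · exact absurd hy' (by simp)
      · rename_i y' h
        rw [h, ← Option.some.inj hy']
    have h1 : b c = b d := congrArg Sigma.fst h
    have h2 : HEq (F c).2 (F d).2 := by rw [h]
    apply Pf.ext
    funext z
    rcases hc : c.f z with _ | y
    · rcases hd : d.f z with _ | y'
      · rfl
      · have := key d c _ _ h1.symm _ _ h2.symm (hsome d) (hsome' c) (hb d) z y' hd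
        rw [hc] at this
        exact absurd this (by simp)
    · exact (key c d _ _ h1 _ _ h2 (hsome c) (hsome' d) (hb c) z y hc).symm
  refine (mk_le_of_injective hF).trans ?_
  rw [mk_sigma]
  refine (sum_le_mk_mul_iSup _).trans ?_
  rw [hK]
  refine mul_le_of_le hka0 le_rfl (ciSup_le' fun a => ?_)
  have h2 : #(Set.Iio a) < ka := Cardinal.mk_Iio_toType_ord_lt a
  rw [← power_def, ← power_def, mk_option, hM, ← power_mul]
  have h3 : #(Set.Iio a) + 1 < ka := add_lt_of_lt hka0 h2 (one_lt_aleph0.trans_le hka0)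
  have h4 : mu * #(Set.Iio a) < ka := mul_lt_of_lt hka0 hmu h2
  have h5 : (#(Set.Iio a) + 1) ≤ 2 ^ (#(Set.Iio a) + 1) := (cantor _).le
  calc (#(Set.Iio a) + 1) ^ (mu * #(Set.Iio a))
      ≤ (2 ^ (#(Set.Iio a) + 1)) ^ (mu * #(Set.Iio a)) := power_le_power_right h5
    _ = 2 ^ ((#(Set.Iio a) + 1) * (mu * #(Set.Iio a))) := by rw [← power_mul]
    _ ≤ ka := (hs _ (mul_lt_of_lt hka0 h3 h4)).le

/-- `s` restricted to the coordinates below `η` is contained in `c` -/
def LowLe {mu ka : Cardinal.{0}} (η : ka.ord.ToType) (c s : Lv mu ka) : Prop :=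
  ∀ a y, a.1 < η → s.f a = some y → c.f a = some y

theorem LowLe.mono {mu ka : Cardinal.{0}} {η : ka.ord.ToType} {c c' s : Lv mu ka}
    (h : LowLe η c s) (hc : c' ≤ c) : LowLe η c' s := fun a y ha hs => hc a y (h a y ha hs)

theorem Lv.exists_bd {mu ka : Cardinal.{0}} (hka : ka.IsRegular) (hmu : mu < ka) (c : Lv mu ka) :
    ∃ b : ka.ord.ToType, ∀ z, c.f z ≠ none → z.1 < b := by
  obtain ⟨b, hb⟩ := bdd_reg hka (Prod.fst '' {z | c.f z ≠ none})
    (mk_image_le.trans_lt (c.small.trans hmu))
  exact ⟨b, fun z hz => hb _ ⟨z, hz, rfl⟩⟩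

theorem Lv.join {mu ka : Cardinal.{0}} (hmu : ℵ₀ ≤ mu) {η : ka.ord.ToType} {c s : Lv mu ka}
    (hc : ∀ z, c.f z ≠ none → z.1 < η) (h : LowLe η c s) : ∃ d : Lv mu ka, d ≤ c ∧ d ≤ s := by
  obtain ⟨d, hd, hd', _⟩ := Pf.exists_join hmu c s (by
    intro a y y' hy hy'
    have h1 := h a y' (hc a (by rw [hy]; simp)) hy'
    rw [hy] at h1
    exact Option.some.inj h1)
  exact ⟨d, hd, hd'⟩

end Run7.h888
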