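import Pool.Agent.Run7.h888.A2
import Pool.Agent.Run7.h888.A3

/-!
# Names of complete ultrafilters
-/

set_option autoImplicit false

namespace Run7.h888

open Cardinal Set Pool.Agent.Helper669.Forcing Pool.Agent.Helper669.K Pool.Agent.R588.S

/-- `W` names a `κ`-complete ultrafilter -/
structure UF {P : Type} [Preorder P] (κ : Cardinal.{0}) {X : Type} (W : (X → RO P) → RO P) :
    Prop where
  up : ∀ p A B, p ∈ W A → (∀ q ≤ p, ∀ x, q ∈ A x → q ∈ B x) → p ∈ W B
  ult : ∀ p A, p ∈ W (fun x => neg (A x)) ↔ p ∈ neg (W A)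
  inter : ∀ (J : Type) (A : J → X → RO P) p, #J < κ → (∀ j, p ∈ W (A j)) →
    p ∈ W fun x => al fun j => A j x

namespace UF

variable {P : Type} [Preorder P] {κ : Cardinal.{0}} {X : Type} {W : (X → RO P) → RO P}

theorem proper (h : UF κ W) {p : P} {A : X → RO P} (hA : p ∈ W A) : ∃ q ≤ p, ∃ x, q ∈ A x := by
  by_contra hcon
  push Not at hcon
  have h1 : p ∈ W fun x => neg (A x) := by
    refine h.up p A _ hA fun q hq x hx => absurd hx (hcon q hq x)
  exact not_both hA ((h.ult p A).1 h1)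

theorem and (h : UF κ W) (hκ : ℵ₀ ≤ κ) {p : P} {A B : X → RO P} (hA : p ∈ W A)
    (hB : p ∈ W B) : p ∈ W fun x => an (A x) (B x) := by
  have h1 := h.inter Bool (fun b => if b then A else B) p
    ((lt_aleph0_of_finite Bool).trans_le hκ) (by
      intro b
      cases b
      · exact hB
      · exact hA)
  refine h.up p _ _ h1 fun q _ x hx => ⟨?_, ?_⟩
  · exact hx true
  · exact hx false

theorem up2 (h : UF κ W) (hκ : ℵ₀ ≤ κ) {p : P} {A B C : X → RO P} (hA : p ∈ W A)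
    (hB : p ∈ W B) (hC : ∀ q ≤ p, ∀ x, q ∈ A x → q ∈ B x → q ∈ C x) : p ∈ W C :=
  h.up p _ _ (h.and hκ hA hB) fun q hq x hx => hC q hq x hx.1 hx.2

theorem up3 (h : UF κ W) (hκ : ℵ₀ ≤ κ) {p : P} {A B C E : X → RO P} (hA : p ∈ W A)
    (hB : p ∈ W B) (hC : p ∈ W C) (hE : ∀ q ≤ p, ∀ x, q ∈ A x → q ∈ B x → q ∈ C x → q ∈ E x) :
    p ∈ W E :=
  h.up p _ _ (h.and hκ hA (h.and hκ hB hC)) fun q hq x hx => hE q hq x hx.1 hx.2.1 hx.2.2

theorem few (h : UF κ W) {V : Type} (hV : #V < κ) {p : P} {φ : V → X → RO P}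
    (hφ : p ∈ W fun x => ex fun v => φ v x) : ∃ q ≤ p, ∃ v, q ∈ W (φ v) := by
  by_contra hcon
  push Not at hcon
  have h1 : ∀ v, p ∈ W fun x => neg (φ v x) := fun v => (h.ult p _).2 fun q hq => hcon q hq v
  have h2 := h.inter V (fun v x => neg (φ v x)) p hV h1
  by_cases hκ : ℵ₀ ≤ κ
  · obtain ⟨q, hq, x, hx1, hx2⟩ := h.proper (h.and hκ hφ h2)
    obtain ⟨r, hr, v, hv⟩ := hx1 q le_rfl
    exact not_both hv (RO.dn (hx2 v) hr)
  · -- the finite case is trivial
    have h3 := h.inter V (fun v x => neg (φ v x)) p hV h1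
    have h4 : p ∈ W fun x => neg (ex fun v => φ v x) := by
      refine h.up p _ _ h3 fun q _ x hx => ?_
      intro r hr hr'
      obtain ⟨s, hs, v, hv⟩ := hr' r le_rfl
      exact not_both hv (RO.dn (hx v) (hs.trans hr))
    exact not_both hφ ((h.ult p _).1 h4)

theorem wmono (h : UF κ W) {p : P} {A B : X → RO P} (hA : p ∈ W A)
    (hB : ∀ x q, q ≤ p → q ∈ A x → q ∈ B x) : p ∈ W B := h.up p A B hA fun q hq x hx => hB x q hq hx

end UF

theorem _root_.Pool.Agent.R588.S.NF.uf {P : Type} [Preorder P] {κ : Cardinal.{0}} {X : Type}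
    {V : (PK κ X → RO P) → RO P} (h : NF κ X V) : UF κ V := ⟨h.up, h.ult, h.inter⟩

/-- A name of a complete ultrafilter on a directed set. -/
theorem exists_UF {κ : Cardinal.{0}} (hκ : IndestructiblySupercompact κ) {P : Type} [Preorder P]
    (hP : DirClosed κ P) {D : Type} [Preorder D]
    (hD : ∀ (A : Type) (w : A → D), #A < κ → ∃ y, ∀ a, w a ≤ y) :
    ∃ W : (D → RO P) → RO P, UF κ W ∧ ∀ y p, p ∈ W fun z => gr (y ≤ z) := by
  obtain ⟨V, hV⟩ := exists_NF (hκ.2 P hP D)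
  choose ub hub using fun x : PK κ D => hD x.1 (fun y => y.1) x.2
  refine ⟨fun A => V fun x => A (ub x), ⟨?_, ?_, ?_⟩, ?_⟩
  · intro p A B hA hAB
    exact hV.up p _ _ hA fun q hq x hx => hAB q hq (ub x) hx
  · intro p A
    exact hV.ult p fun x => A (ub x)
  · intro J A p hJ hA
    exact hV.inter J (fun j x => A j (ub x)) p hJ hA
  · intro y p
    exact hV.up p _ _ (hV.fine y p) fun q _ x hx => hub x ⟨y, hx⟩

/-- the image of a name -/
def Nm.map {P : Type} [Preorder P] {Y Y' : Type} (F : Nm P Y) (g : Y → Y') : Nm P Y' where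
  v y' := ex fun y => an (F.v y) (gr (g y = y'))
  tot := by
    intro p
    obtain ⟨q, hq, y, hy⟩ := F.tot p
    exact ⟨q, hq, g y, mem_ex_of y ⟨hy, rfl⟩⟩
  fn := by
    intro p y y' h h'
    obtain ⟨q, hq, z, hz, hz'⟩ := h p le_rfl
    obtain ⟨r, hr, w, hw, hw'⟩ := h' q hq
    have h1 : g z = y := hz'
    have h2 : g w = y' := hw'
    rw [← h1, ← h2, F.fn r z w (RO.dn hz hr) hw]

theorem Nm.mem_map {P : Type} [Preorder P] {Y Y' : Type} {F : Nm P Y} {g : Y → Y'} {p : P} {y : Y}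
    (h : p ∈ F.v y) : p ∈ (F.map g).v (g y) := mem_ex_of y ⟨h, rfl⟩

section

variable {P : Type} [Preorder P] {κ mu : Cardinal.{0}} {X : Type} {W : (X → RO P) → RO P}

/-- **The low part** of a name of a function with values in the Levy collapse. -/
theorem UF.low (h : UF κ W) (hκ : κ.IsRegular) (hmu : mu < κ) (hmu0 : ℵ₀ ≤ mu)
    (hP : Clo κ P) (d : X → Nm P (Lv mu κ)) (p : P) :
    ∃ q ≤ p, ∃ c : Lv mu κ,
      (∀ η, q ∈ W fun x => (d x).ev fun s => gr (LowLe η c s)) ∧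
      ∀ c2 : Lv mu κ, q ∈ W (fun x => (d x).ev fun s => gr (s ≤ c2)) → c ≤ c2 := by
  classical
  have hκ0 : ℵ₀ ≤ κ := hκ.aleph0_le
  -- deciding all values
  obtain ⟨q, hq, h1⟩ := hP.dist (A := κ.ord.ToType × mu.ord.ToType) (by
      rw [mkp, mk_ord_toType, mk_ord_toType]
      exact mul_le_of_le hκ0 le_rfl hmu.le)
    (fun a q => ∃ v : Option κ.ord.ToType, q ∈ W fun x => (d x).ev fun s => gr (s.f a = v))
    (fun a z z' hz h => by
      obtain ⟨v, hv⟩ := h
      exact ⟨v, RO.dn hv hz⟩) p (by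
      intro a q _
      obtain ⟨r, hr, v, hv⟩ := h.few (V := Option (Set.Iio a.1)) (p := q)
        (φ := fun v x => (d x).ev fun s => gr (s.f a = v.map Subtype.val)) (by
          rw [mk_option]
          exact add_lt_of_lt hκ0 (Cardinal.mk_Iio_toType_ord_lt a.1)
            (one_lt_aleph0.trans_le hκ0)) (by
          have h2 : q ∈ W fun x => neg (gr False) := by
            rw [h.ult]
            intro r _ hr
            obtain ⟨s, _, x, hx⟩ := h.proper hr
            exact hx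
          refine h.wmono h2 fun x r hr _ => ?_
          intro r' hr'
          obtain ⟨s, hs, c, hc⟩ := (d x).tot r'
          refine ⟨s, hs, ?_⟩
          rcases hca : c.f a with _ | y
          · exact ⟨none, mem_ex_of c ⟨hc, hca⟩⟩
          · exact ⟨some ⟨y, c.ok a y hca⟩, mem_ex_of c ⟨hc, hca⟩⟩)
      exact ⟨r, hr, _, hv⟩)
  choose v hv using h1
  -- the size
  have hsmall : #{a // v a ≠ none} < mu := by
    by_contra hcon
    push Not at hcon
    obtain ⟨A, hA⟩ := (le_mk_iff_exists_subset (s := {a | v a ≠ none})).1 hcon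
    have h2 := h.inter A (fun a x => (d x).ev fun s => gr (s.f a.1 = v a.1)) q
      (by rw [hA.2]; exact hmu) (fun a => hv a.1)
    obtain ⟨r, hr, x, hx⟩ := h.proper h2
    obtain ⟨r', hr', s, hs⟩ := (d x).tot r
    have h3 : ∀ a : A, s.f a.1 = v a.1 := fun a => Nm.mem_ev.1 (hx a) r' hr' s hs
    have h4 : #A ≤ #{a // s.f a ≠ none} := by
      refine mk_le_of_injective (f := fun a : A => (⟨a.1, ?_⟩ : {a // s.f a ≠ none})) ?_
      · rw [h3 a]
        exact hA.1 a.2
      · intro a b hab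
        exact Subtype.ext (congrArg (fun z : {a // s.f a ≠ none} => z.1) hab)
    rw [hA.2] at h4
    exact absurd s.small (not_lt.2 h4)
  refine ⟨q, hq, ⟨v, hsmall, ?_⟩, ?_, ?_⟩
  · intro a y hy
    obtain ⟨r, _, x, hx⟩ := h.proper (hv a)
    obtain ⟨r', hr', s, hs⟩ := (d x).tot r
    have h3 : s.f a = v a := Nm.mem_ev.1 hx r' hr' s hs
    exact s.ok a y (h3.trans hy)
  · intro η
    have h2 := h.inter {a : κ.ord.ToType × mu.ord.ToType // a.1 < η}
      (fun a x => (d x).ev fun s => gr (s.f a.1 = v a.1)) q (by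
        have e : {a : κ.ord.ToType × mu.ord.ToType // a.1 < η} ≃
            (Set.Iio η) × mu.ord.ToType :=
          ⟨fun a => (⟨a.1.1, a.2⟩, a.1.2), fun a => ⟨(a.1.1, a.2), a.1.2⟩, fun _ => rfl,
            fun _ => rfl⟩
        rw [mk_congr e, mkp, mk_ord_toType]
        exact mul_lt_of_lt hκ0 (Cardinal.mk_Iio_toType_ord_lt η) hmu) (fun a => hv a.1)
    refine h.wmono h2 fun x r _ hr => ?_
    refine Nm.mem_ev.2 fun r' hr' s hs => ?_
    intro a y ha hy
    have h3 : s.f a = v a := Nm.mem_ev.1 (hr ⟨a, ha⟩) r' hr' s hs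
    exact h3.symm.trans hy
  · intro c2 hc2 a y hy
    obtain ⟨r, _, x, hx⟩ := h.proper (h.and hκ0 hc2 (hv a))
    obtain ⟨r', hr', s, hs⟩ := (d x).tot r
    have h3 : s.f a = v a := Nm.mem_ev.1 hx.2 r' hr' s hs
    have h4 : s ≤ c2 := Nm.mem_ev.1 hx.1 r' hr' s hs
    exact h3.symm.trans (h4 a y hy)

end

end Run7.h888
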