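import Pool.Agent.Run7.h888.A4

/-!
# Branches through systems with few relations
-/

set_option autoImplicit false

namespace Run7.h888

open Cardinal Set Pool.Agent.Helper669.Forcing Pool.Agent.Helper669.K Pool.Agent.R588.S

theorem UF.all {P : Type} [Preorder P] {κ : Cardinal.{0}} {X : Type} {W : (X → RO P) → RO P}
    (h : UF κ W) {p : P} {A : X → RO P} (hA : ∀ q ≤ p, ∀ x, q ∈ A x) : p ∈ W A := by
  have h2 : p ∈ W fun x => neg (gr False) := by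
    rw [h.ult]
    intro r _ hr
    obtain ⟨s, _, x, hx⟩ := h.proper hr
    exact hx
  exact h.up p _ A h2 fun q hq x _ => hA q hq x

section

variable {B R' D E N : Type} [Preorder B] [Preorder R'] [Preorder D] {mu κ : Cardinal.{0}}

/-- a section of a truth value -/
def sect (U : RO (B × (Lv mu κ × R'))) (b : B) (c s : Lv mu κ) : RO R' where
  c := {r | ∀ d, d ≤ c → d ≤ s → (b, (d, r)) ∈ U}
  down := fun h hq d hd hd' => RO.dn (h d hd hd') ⟨le_rfl, le_rfl, hq⟩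
  reg := fun {r} h d hd hd' => RO.rg fun q hq => by
    obtain ⟨r', hr', h'⟩ := h q.2.2 hq.2.2
    have h1 : q.2.1 ≤ d := hq.2.1
    refine ⟨(q.1, (q.2.1, r')), ⟨le_rfl, le_rfl, hr'⟩, ?_⟩
    exact RO.dn (h' q.2.1 (h1.trans hd) (h1.trans hd')) ⟨hq.1, le_rfl, le_rfl⟩

theorem mem_sect {U : RO (B × (Lv mu κ × R'))} {b : B} {c s : Lv mu κ} {r : R'} :
    r ∈ sect U b c s ↔ ∀ d, d ≤ c → d ≤ s → (b, (d, r)) ∈ U := Iff.rfl

/-- a section of a truth value -/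
def sect0 (U : RO (B × (Lv mu κ × R'))) (b : B) (c : Lv mu κ) : RO R' where
  c := {r | (b, (c, r)) ∈ U}
  down := fun h hq => RO.dn h ⟨le_rfl, le_rfl, hq⟩
  reg := fun {r} h => RO.rg fun q hq => by
    obtain ⟨r', hr', h'⟩ := h q.2.2 hq.2.2
    refine ⟨(q.1, (q.2.1, r')), ⟨le_rfl, le_rfl, hr'⟩, ?_⟩
    exact RO.dn h' ⟨hq.1, hq.2.1, le_rfl⟩

/-- the fibres for the Levy collapse -/
def colFib {W : (D → RO R') → RO R'} (hW : UF κ W) (hκ : ℵ₀ ≤ κ) :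
    Fibr (Lv mu κ × R') (D → Nm R' (Lv mu κ)) where
  val z f := ∀ η, z.2 ∈ W fun x => (f x).ev fun s => gr (LowLe η z.1 s)
  le z f' f := z.2 ∈ W fun x => (f' x).ev fun s' => (f x).ev fun s => gr (s' ≤ s)
  val_mono := by
    intro z z' k hz h η
    refine hW.wmono (RO.dn (h η) hz.2) fun x q _ hx => ?_
    refine Nm.mem_ev.2 fun r hr s hs => ?_
    exact LowLe.mono (Nm.mem_ev.1 hx r hr s hs) hz.1
  le_mono := by
    intro z z' k k' hz h
    exact RO.dn h hz.2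
  rfl' := by
    intro z k
    refine hW.all fun q _ x => ?_
    refine Nm.mem_ev.2 fun r hr s hs => ?_
    refine Nm.mem_ev.2 fun r' hr' s' hs' => ?_
    rw [(k x).fn r' s s' (RO.dn hs hr') hs']
    exact le_refl s'
  trans' := by
    intro z k k' k'' h1 h2
    refine hW.up2 hκ h1 h2 fun q _ x hx1 hx2 => ?_
    refine Nm.mem_ev.2 fun r hr s hs => ?_
    refine Nm.mem_ev.2 fun r' hr' s' hs' => ?_
    show s ≤ s'
    obtain ⟨r2, hr2, t, ht⟩ := (k' x).tot r'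
    have e1 : s ≤ t := Nm.mem_ev.1 (Nm.mem_ev.1 hx1 r hr s hs) r2 (hr2.trans hr') t ht
    have e2 : t ≤ s' := Nm.mem_ev.1 (Nm.mem_ev.1 hx2 r2 (hr2.trans (hr'.trans hr)) t ht) r2 le_rfl
      s' (RO.dn hs' hr2)
    exact e1.trans e2

theorem colFib_clo {W : (D → RO R') → RO R'} (hW : UF κ W) (hκ : κ.IsRegular) {ν : Cardinal.{0}}
    (hν : ν < mu) (hmu : mu.IsRegular) (hmuκ : mu < κ) (hR : Clo ν R') :
    FClo ν (colFib (mu := mu) hW hκ.aleph0_le) := by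
  classical
  intro J _ _ hJ z k hval hdec
  have hκ0 := hκ.aleph0_le
  have hne : Nonempty (Lv mu κ) := ⟨z.1⟩
  -- the property of the lower bound
  let Ψ : D → Lv mu κ → RO R' := fun x t => ex fun s : J → Lv mu κ =>
    an (al fun j => (k j x).v (s j))
      (gr ((∀ j, t ≤ s j) ∧ ∀ a, (∀ j, (s j).f a = none) → t.f a = none))
  choose G hG using fun x => exists_Nm (Ψ x)
  -- decreasing almost everywhere
  have h1 : z.2 ∈ W fun x => al fun jj : {jj : J × J // jj.1 ≤ jj.2} =>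
      (k jj.1.2 x).ev fun s' => (k jj.1.1 x).ev fun s => gr (s' ≤ s) := by
    refine hW.inter _ (fun (jj : {jj : J × J // jj.1 ≤ jj.2}) x =>
      (k jj.1.2 x).ev fun s' => (k jj.1.1 x).ev fun s => gr (s' ≤ s)) _ ?_
      fun jj => hdec _ _ jj.2
    refine (mk_subtype_le _).trans_lt ?_
    rw [mkp]
    exact mul_lt_of_lt hκ0 (hJ.trans_lt (hν.trans hmuκ)) (hJ.trans_lt (hν.trans hmuκ))
  have h2 : z.2 ∈ W fun x => ex fun t => Ψ x t := by
    refine hW.wmono h1 fun x q _ hx => ?_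
    intro q' hq'
    obtain ⟨r, hr, s, hs⟩ := hR.decide hJ (fun j => k j x) q'
    have h3 : ∀ j j', j ≤ j' → s j' ≤ s j := by
      intro j j' hj
      exact Nm.mem_ev.1 (Nm.mem_ev.1 (hx ⟨(j, j'), hj⟩) r (hr.trans hq') _ (hs j')) r le_rfl
        _ (hs j)
    obtain ⟨t, ht, ht'⟩ := Pf.exists_dinf hmu (Set.range s) (mk_range_le.trans_lt
      (hJ.trans_lt hν)) (by
        rintro _ ⟨i, rfl⟩ _ ⟨j, rfl⟩
        exact ⟨s (max i j), ⟨_, rfl⟩, h3 _ _ (le_max_left _ _), h3 _ _ (le_max_right _ _)⟩)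
    refine ⟨r, hr, t, mem_ex_of s ⟨hs, fun j => ht _ ⟨j, rfl⟩, fun a ha => ht' a ?_⟩⟩
    rintro _ ⟨j, rfl⟩
    exact ha j
  have h3 : z.2 ∈ W fun x => (G x).ev (Ψ x) := by
    refine hW.wmono h2 fun x q _ hx => ?_
    exact Nm.mem_ev.2 fun r hr t ht => hG x r t ht (RO.dn hx hr)
  refine ⟨G, ?_, ?_⟩
  · intro η
    have h4 := hW.inter J (fun j x => (k j x).ev fun s => gr (LowLe η z.1 s)) z.2
      (hJ.trans_lt (hν.trans hmuκ)) (fun j => hval j η)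
    refine hW.up2 hκ0 h3 h4 fun q _ x hx1 hx2 => ?_
    refine Nm.mem_ev.2 fun r hr t ht => ?_
    obtain ⟨r', hr', s, hs1, hs2, hs3⟩ := (Nm.mem_ev.1 hx1 r hr t ht) r le_rfl
    show LowLe η z.1 t
    intro a y ha hy
    have h5 : ∃ j, (s j).f a ≠ none := by
      by_contra hcon
      push Not at hcon
      have h6 := hs3 a hcon
      rw [hy] at h6
      exact absurd h6 (by simp)
    obtain ⟨j, hj⟩ := h5
    obtain ⟨y', hy'⟩ := Option.ne_none_iff_exists'.1 hj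
    have h6 := hs2 j a y' hy'
    rw [hy] at h6
    have h7 : LowLe η z.1 (s j) := Nm.mem_ev.1 (hx2 j) r' (hr'.trans hr) _ (hs1 j)
    rw [Option.some.inj h6]
    exact h7 a y' ha hy'
  · intro j
    refine hW.wmono h3 fun x q _ hx => ?_
    refine Nm.mem_ev.2 fun r hr t ht => Nm.mem_ev.2 fun r' hr' s' hs' => ?_
    obtain ⟨r2, hr2, s, hs1, hs2, hs3⟩ := (Nm.mem_ev.1 hx r hr t ht) r' hr'
    show t ≤ s'
    rw [(k j x).fn r2 s' (s j) (RO.dn hs' hr2) (hs1 j)]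
    exact hs2 j

/-- **The second step.** -/
theorem step2 {χ : Cardinal.{0}} (hχ : ℵ₀ ≤ χ) (hmureg : mu.IsRegular)
    (hsmu : Order.succ χ < mu)
    (hκ : IndestructiblySupercompact κ) (hmuκ : mu < κ) (hB : #B ≤ χ) (hE : #E ≤ χ)
    (hN : #N ≤ χ) (hR' : DirClosed (Order.succ κ) R') (hD : UpDir κ D)
    (Rl : E → D → N → D → N → RO (B × (Lv mu κ × R')))
    (tri : ∀ {p e y y' w ξ ξ' ζ}, y ≤ y' → y' ≤ w → p ∈ Rl e y ξ w ζ → p ∈ Rl e y' ξ' w ζ →
      p ∈ Rl e y ξ y' ξ')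
    (mI : D → RO (B × (Lv mu κ × R'))) (p0 : B × (Lv mu κ × R'))
    (hcof : ∀ y, ∀ q ≤ p0, ∃ r ≤ q, ∃ y', y ≤ y' ∧ r ∈ mI y')
    (hrel : ∀ y y', y ≤ y' → ∀ q ≤ p0, q ∈ mI y → q ∈ mI y' →
      q ∈ ex fun t : E × N × N => Rl t.1 y t.2.1 y' t.2.2) :
    ∃ e, ∃ p ≤ p0, ∃ br, IsBr (Rl e) p br := by
  classical
  have hreg := (regular_of_supercompact hκ).1
  have hκ0 := hreg.aleph0_le
  have hχmu : χ < mu := (Order.lt_succ χ).trans hsmu
  have hsκ : Order.succ χ < κ := hsmu.trans hmuκ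
  have hR1 : Clo κ R' := DirClosed.clo hR'
  have hR2 : Clo (Order.succ χ) R' := hR1.anti hsκ.le
  obtain ⟨W, hW, hcone⟩ := exists_UF hκ (DirClosed.anti hR' (Order.le_succ κ))
    (fun A w hA => hD A w hA.le)
  have hne : Nonempty D := by
    obtain ⟨y, _⟩ := hD PEmpty (fun a => a.elim) (by simp)
    exact ⟨y⟩
  -- the projection to `I`
  choose g hg using fun z : D =>
    exists_Nm (P := B × (Lv mu κ × R')) (fun z' : D => an (gr (z ≤ z')) (mI z'))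
  let T : E → D → N → D → N → RO (B × (Lv mu κ × R')) := fun e y ξ z ζ =>
    (g z).ev fun z' => an (gr (z ≤ z')) (Rl e y ξ z' ζ)
  have hTtri : ∀ {p e y y' z ξ ξ' ζ}, y ≤ y' → y' ≤ z → p ∈ T e y ξ z ζ → p ∈ T e y' ξ' z ζ →
      p ∈ Rl e y ξ y' ξ' := by
    intro p e y y' z ξ ξ' ζ hy hz h1 h2
    refine RO.rg fun q hq => ?_
    obtain ⟨r, hr, z', hz'⟩ := (g z).tot q
    obtain ⟨h3, h4⟩ := Nm.mem_ev.1 h1 r (hr.trans hq) z' hz'
    obtain ⟨h5, h6⟩ := Nm.mem_ev.1 h2 r (hr.trans hq) z' hz'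
    exact ⟨r, hr, tri hy (hz.trans h3) h4 h6⟩
  let A : Abl B (Lv mu κ × R') (D → Nm R' (Lv mu κ)) D N (E × N) :=
    { F := colFib hW hκ0
      Dec := fun j b z f y ξ => z.2 ∈ W fun x => (f x).ev fun s => sect (T j.1 y ξ x j.2) b z.1 s
      R := fun j => Rl j.1
      dec_mono := by
        intro j b b' z z' k k' y ξ hb hz hk hdec
        refine hW.up2 hκ0 hk (RO.dn hdec hz.2) fun q _ x hx1 hx2 => ?_
        refine Nm.mem_ev.2 fun r hr s hs => ?_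
        refine RO.rg fun r' hr' => ?_
        obtain ⟨r2, hr2, t, ht⟩ := (k x).tot r'
        have e1 : s ≤ t := Nm.mem_ev.1 (Nm.mem_ev.1 hx1 r hr s hs) r2 (hr2.trans hr') t ht
        have e2 := Nm.mem_ev.1 hx2 r2 (hr2.trans (hr'.trans hr)) t ht
        exact ⟨r2, hr2, fun d hd hd' => RO.dn (e2 d (hd.trans hz.1) (hd'.trans e1))
          ⟨hb, le_rfl, le_rfl⟩⟩
      coh := by
        intro j b z k y y' ξ ξ' hval hyy hd1 hd2
        refine RO.rg fun q hq => ?_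
        have hqz : q.2 ≤ z := hq.2
        have hv' := (colFib (mu := mu) hW hκ0).val_mono hqz hval
        obtain ⟨η, hη⟩ := Lv.exists_bd hreg hmuκ q.2.1
        have h3 := hW.and hκ0 (hcone y' q.2.2) (hW.and hκ0 (hv' η)
          (hW.and hκ0 (RO.dn hd1 hqz.2) (RO.dn hd2 hqz.2)))
        obtain ⟨r, hr, x, hx1, hx2, hx3, hx4⟩ := hW.proper h3
        obtain ⟨r', hr', s, hs⟩ := (k x).tot r
        have e1 : LowLe η q.2.1 s := Nm.mem_ev.1 hx2 r' hr' s hs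
        obtain ⟨d, hdc, hds⟩ := Lv.join hmureg.aleph0_le hη e1
        have hdz : d ≤ z.1 := hdc.trans hqz.1
        refine ⟨(q.1, (d, r')), ⟨le_rfl, hdc, hr'.trans hr⟩, ?_⟩
        have e2 := Nm.mem_ev.1 hx3 r' hr' s hs d hdz hds
        have e3 := Nm.mem_ev.1 hx4 r' hr' s hs d hdz hds
        exact hTtri hyy hx1 (RO.dn e2 ⟨hq.1, le_rfl, le_rfl⟩) (RO.dn e3 ⟨hq.1, le_rfl, le_rfl⟩)
      tri := fun {p j} => tri (p := p) (e := j.1) }
  have hlev : ∀ y, ∀ p ≤ (p0.1, p0.2), ∃ q ≤ p, ∃ y', y ≤ y' ∧ ∀ b ≤ q.1, ∀ z ≤ q.2, ∀ k,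
      A.F.val z k → ∃ b' ≤ b, ∃ z' ≤ z, ∃ k', A.F.val z' k' ∧ A.F.le z' k' k ∧ ∃ j ξ,
        A.Dec j b' z' k' y' ξ := by
    intro y p hp
    obtain ⟨q, hq, y', hy', hqI⟩ := hcof y p hp
    refine ⟨q, hq, y', hy', fun b hb z hz k hval => ?_⟩
    have hval' : ∀ η, z.2 ∈ W fun x => (k x).ev fun s => gr (LowLe η z.1 s) := hval
    obtain ⟨η, hη⟩ := Lv.exists_bd hreg hmuκ z.1
    -- the property of the new condition
    let Ψ : D → (B × E × N × N) × Lv mu κ → RO R' := fun x t =>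
      an (gr (t.1.1 ≤ b ∧ t.2 ≤ z.1)) (an ((k x).ev fun s => gr (t.2 ≤ s))
        (sect0 (T t.1.2.1 y' t.1.2.2.1 x t.1.2.2.2) t.1.1 t.2))
    have hne2 : Nonempty ((B × E × N × N) × Lv mu κ) := by
      obtain ⟨r, _, t, _⟩ := hrel y' y' le_rfl q (hq.trans hp) hqI hqI q le_rfl
      exact ⟨((b, t.1, t.2.1, t.2.2), z.1)⟩
    choose G hG using fun x => exists_Nm (Ψ x)
    have h1 : z.2 ∈ W fun x => ex fun t => Ψ x t := by
      refine hW.up2 hκ0 (hcone y' z.2) (hval' η) fun r hr x hx1 hx2 => ?_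
      intro r1 hr1
      obtain ⟨r2, hr2, s, hs⟩ := (k x).tot r1
      have e1 : LowLe η z.1 s := Nm.mem_ev.1 hx2 r2 (hr2.trans hr1) s hs
      obtain ⟨d, hdc, hds⟩ := Lv.join hmureg.aleph0_le hη e1
      -- the condition `(b, (d, r2))`
      have hle : (b, (d, r2)) ≤ q := by
        refine ⟨hb, hdc.trans hz.1, (hr2.trans (hr1.trans hr)).trans hz.2⟩
      obtain ⟨u, hu, x', hx'⟩ := (g x).tot (b, (d, r2))
      have hu0 : u ≤ p0 := hu.trans (hle.trans (hq.trans hp))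
      have hux := hg x u x' hx' (by
        intro v hv
        obtain ⟨v', hv', x'', h3, h4⟩ := hcof x v (hv.trans hu0)
        exact ⟨v', hv', x'', h3, h4⟩)
      have hxx' : x ≤ x' := hux.1
      have hyx : y' ≤ x := hx1
      obtain ⟨v, hv, t, ht⟩ := hrel y' x' (hyx.trans hxx') u hu0 (RO.dn hqI (hu.trans hle)) hux.2
        u le_rfl
      have hvb : v ≤ (b, (d, r2)) := hv.trans hu
      have hv1 : v.1 ≤ b := hvb.1
      have hv2 : v.2.1 ≤ d := hvb.2.1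
      have hv3 : v.2.2 ≤ r2 := hvb.2.2
      refine ⟨v.2.2, hv3.trans hr2, ((v.1, t.1, t.2.1, t.2.2), v.2.1),
        ⟨hv1, hv2.trans hdc⟩, ?_, ?_⟩
      · refine Nm.mem_ev.2 fun w hw s' hs' => ?_
        rw [(k x).fn w s' s hs' (RO.dn hs (hw.trans hv3))]
        exact hv2.trans hds
      · show (v.1, (v.2.1, v.2.2)) ∈ T t.1 y' t.2.1 x t.2.2
        refine Nm.mem_ev.2 fun w hw x'' hx'' => ?_
        rw [(g x).fn w x'' x' hx'' (RO.dn hx' (hw.trans hv))]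
        exact ⟨hxx', RO.dn ht hw⟩
    have h2 : z.2 ∈ W fun x => ex fun v : B × E × N × N => ex fun d => (G x).v (v, d) := by
      refine hW.all fun r _ x => ?_
      intro r' hr'
      obtain ⟨r2, hr2, t, ht⟩ := (G x).tot r'
      exact ⟨r2, hr2, t.1, mem_ex_of t.2 ht⟩
    obtain ⟨r1, hr1, ⟨b', e, ξ, ζ⟩, h3⟩ := hW.few (V := B × E × N × N) (by
      rw [mkp, mkp, mkp]
      exact mul_lt_of_lt hκ0 (hB.trans_lt (hχmu.trans hmuκ))
        (mul_lt_of_lt hκ0 (hE.trans_lt (hχmu.trans hmuκ))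
        (mul_lt_of_lt hκ0 (hN.trans_lt (hχmu.trans hmuκ)) (hN.trans_lt (hχmu.trans hmuκ))))) h2
    let f' : D → Nm R' (Lv mu κ) := fun x => (G x).map Prod.snd
    have hf' : ∀ x r d, r ∈ (f' x).v d → r ∈ (ex fun d => (G x).v ((b', e, ξ, ζ), d)) →
        r ∈ (ex fun t => Ψ x t) → r ∈ Ψ x ((b', e, ξ, ζ), d) := by
      intro x r d h4 h5 h6
      refine RO.rg fun r' hr' => ?_
      obtain ⟨r2, hr2, t, ht, ht'⟩ := h4 r' hr'
      obtain ⟨r3, hr3, d', hd'⟩ := h5 r2 (hr2.trans hr')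
      have e1 := (G x).fn r3 _ _ (RO.dn ht hr3) hd'
      have e2 : t.2 = d := ht'
      have e3 : d' = d := by rw [← e2, e1]
      rw [e3] at hd'
      exact ⟨r3, hr3.trans hr2, hG x r3 _ hd' (RO.dn h6 (hr3.trans (hr2.trans hr')))⟩
    obtain ⟨r2, hr2, c', hc1, hc2⟩ := hW.low hreg hmuκ hmureg.aleph0_le hR1 f' r1
    have hr2z : r2 ≤ z.2 := hr2.trans hr1
    have hΨ : r2 ∈ W fun x => (f' x).ev fun d => Ψ x ((b', e, ξ, ζ), d) := by
      refine hW.up2 hκ0 (RO.dn h3 hr2) (RO.dn h1 hr2z) fun r hr x hx1 hx2 => ?_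
      exact Nm.mem_ev.2 fun w hw d hd => hf' x w d hd (RO.dn hx1 hw) (RO.dn hx2 hw)
    have hb' : b' ≤ b := by
      obtain ⟨r, _, x, hx⟩ := hW.proper hΨ
      obtain ⟨r', hr', d, hd⟩ := (f' x).tot r
      exact (Nm.mem_ev.1 hx r' hr' d hd).1.1
    have hc' : c' ≤ z.1 := by
      refine hc2 z.1 (hW.wmono hΨ fun x r _ hx => ?_)
      exact Nm.mem_ev.2 fun w hw d hd => (Nm.mem_ev.1 hx w hw d hd).1.2
    refine ⟨b', hb', (c', r2), ⟨hc', hr2z⟩, f', hc1, ?_, (e, ζ), ξ, ?_⟩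
    · show r2 ∈ W _
      refine hW.wmono hΨ fun x r _ hx => ?_
      refine Nm.mem_ev.2 fun w hw d hd => ?_
      exact (Nm.mem_ev.1 hx w hw d hd).2.1
    · show r2 ∈ W _
      refine hW.wmono hΨ fun x r _ hx => ?_
      refine Nm.mem_ev.2 fun w hw d hd => ?_
      intro d' _ hd'
      exact RO.dn (Nm.mem_ev.1 hx w hw d hd).2.2 ⟨le_rfl, hd', le_rfl⟩
  have hmupos : 0 < mu := hmureg.pos
  obtain ⟨j, p, hp, br, hbr⟩ := A.branch1 hχ hB hN (by
      rw [mkp]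
      exact mul_le_of_le hχ hE hN)
    ((DirClosed.clo (DirClosed.anti (Pf.dirClosed hmureg) (Order.succ_le_of_lt hsmu))).prod hR2)
    (colFib_clo hW hreg hsmu hmureg hmuκ hR2)
    (fun I w hI => hD I w (hI.trans hsκ.le))
    (b0 := p0.1) (z0 := p0.2) (k0 := fun _ => Nm.ck (Pf.top hmupos)) (by
      intro η
      refine hW.all fun q _ x => ?_
      refine Nm.mem_ev.2 fun r _ s hs => ?_
      have e1 : s = Pf.top hmupos := hs
      rw [e1]
      intro a y _ hy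
      have : (none : Option κ.ord.ToType) = some y := hy
      exact absurd this (by simp)) hlev
  exact ⟨j.1, p, hp, br, hbr⟩

end

end Run7.h888
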