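import Pool.Agent.Run7.h888.A4

/-!
# The first step: reflecting to a small collapse
-/

set_option autoImplicit false

namespace Run7.h888

open Cardinal Set Pool.Agent.Helper669.Forcing Pool.Agent.Helper669.K Pool.Agent.R588.S

theorem exists_Iio_card {c ρ : Cardinal.{0}} (h : ρ < c) : ∃ t : c.ord.ToType, #(Set.Iio t) = ρ := by
  obtain ⟨t, ht⟩ := Ordinal.typein_surj (α := c.ord.ToType) (· < ·) (o := ρ.ord)
    (by rw [Ordinal.type_toType]; exact ord_lt_ord.2 h)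
  refine ⟨t, ?_⟩
  have h1 := Ordinal.card_typein (r := ((· < ·) : c.ord.ToType → c.ord.ToType → Prop)) t
  rw [ht, card_ord] at h1
  exact h1.symm

theorem card_le_succ {Θ : Type} [LinearOrder Θ] [WellFoundedLT Θ] (A : Set Θ) (ρ : Cardinal.{0})
    (h : ∀ a ∈ A, #{b // b ∈ A ∧ b < a} ≤ ρ) : #A ≤ Order.succ ρ := by
  by_contra hcon
  push Not at hcon
  have h1 : (Order.succ ρ).ord < Ordinal.type ((· < ·) : A → A → Prop) := by
    refine lt_of_lt_of_le (ord_lt_ord.2 hcon) ?_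
    exact ord_le_type _
  obtain ⟨a, ha⟩ := Ordinal.typein_surj (α := A) (· < ·) h1
  have h2 := Ordinal.card_typein (r := ((· < ·) : A → A → Prop)) a
  rw [ha, card_ord] at h2
  have h3 : #{b : A // b < a} ≤ #{b // b ∈ A ∧ b < a.1} := by
    refine mk_le_of_injective (f := fun b => (⟨b.1.1, b.1.2, b.2⟩ : {b // b ∈ A ∧ b < a.1})) ?_
    intro b b' hbb
    exact Subtype.ext (Subtype.ext (congrArg (fun z : {b // b ∈ A ∧ b < a.1} => z.1) hbb))
  have h4 := h2.le.trans (h3.trans (h a.1 a.2))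
  exact absurd h4 (not_le.2 (Order.lt_succ ρ))

theorem _root_.Pool.Agent.R588.S.NF.press {P : Type} [Preorder P] {κ : Cardinal.{0}} {X : Type}
    {V : (PK κ X → RO P) → RO P} (h : NF κ X V) (hκ : ℵ₀ ≤ κ) {p : P} {φ : X → PK κ X → RO P}
    (hφ : p ∈ V fun x => ex fun a : x.1 => φ a.1 x) : ∃ q ≤ p, ∃ a, q ∈ V (φ a) := by
  by_contra hcon
  push Not at hcon
  have h1 : ∀ a, p ∈ V fun x => neg (φ a x) := fun a => (h.ult p _).2 fun q hq => hcon q hq a
  have h2 := h.normal (fun a x => neg (φ a x)) p h1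
  obtain ⟨q, hq, x, hx1, hx2⟩ := h.proper (h.and hκ hφ h2)
  obtain ⟨r, hr, a, ha⟩ := hx1 q le_rfl
  exact not_both ha (RO.dn (hx2 a) hr)

section

variable {Par S O D M Γ : Type} [Preorder S] [Preorder O] [Preorder D]

/-- the index set -/
abbrev XX1 (μ : Cardinal.{0}) : Type :=
  (Order.succ (Order.succ μ)).ord.ToType ⊕ ((Order.succ μ).ord.ToType ⊕ μ.ord.ToType)

/-- the part of `x` in `μ` -/
def Mx {κs μ : Cardinal.{0}} (x : PK κs (XX1 μ)) : Set μ.ord.ToType := {m | Sum.inr (Sum.inr m) ∈ x.1}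

def Tx {κs μ : Cardinal.{0}} (x : PK κs (XX1 μ)) : Set (Order.succ (Order.succ μ)).ord.ToType :=
  {m | Sum.inl m ∈ x.1}

theorem Mx_card {κs μ : Cardinal.{0}} (x : PK κs (XX1 μ)) : #(Mx x) < κs :=
  lt_of_le_of_lt (mk_le_of_injective (f := fun m : Mx x => (⟨Sum.inr (Sum.inr m.1), m.2⟩ : x.1))
    (fun m m' h => by
      have h1 : (Sum.inr (Sum.inr m.1) : XX1 μ) = Sum.inr (Sum.inr m'.1) := congrArg Subtype.val h
      exact Subtype.ext (Sum.inr.inj (Sum.inr.inj h1)))) x.2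

theorem Tx_card {κs μ : Cardinal.{0}} (x : PK κs (XX1 μ)) : #(Tx x) < κs :=
  lt_of_le_of_lt (mk_le_of_injective (f := fun m : Tx x => (⟨Sum.inl m.1, m.2⟩ : x.1))
    (fun m m' h => by
      have h1 : (Sum.inl m.1 : XX1 μ) = Sum.inl m'.1 := congrArg Subtype.val h
      exact Subtype.ext (Sum.inl.inj h1))) x.2

/-- most `x` are not much larger than their part in `μ` -/
theorem most_card {κs μ : Cardinal.{0}} (hκs : ℵ₀ ≤ κs) (hμ : ℵ₀ ≤ μ)
    {V : (PK κs (XX1 μ) → RO O) → RO O} (hV : NF κs (XX1 μ) V) (p : O) :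
    p ∈ V fun x => gr (#(Tx x) ≤ Order.succ (Order.succ #(Mx x))) := by
  classical
  have hf : ∀ a : (Order.succ (Order.succ μ)).ord.ToType,
      ∃ f : Set.Iio a → (Order.succ μ).ord.ToType, Function.Injective f := by
    intro a
    have h1 : #(Set.Iio a) ≤ #(Order.succ μ).ord.ToType := by
      rw [mk_ord_toType]
      exact Order.lt_succ_iff.1 (Cardinal.mk_Iio_toType_ord_lt a)
    obtain ⟨f⟩ := h1
    exact ⟨f, f.injective⟩
  have hg : ∀ a : (Order.succ μ).ord.ToType,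
      ∃ f : Set.Iio a → μ.ord.ToType, Function.Injective f := by
    intro a
    have h1 : #(Set.Iio a) ≤ #μ.ord.ToType := by
      rw [mk_ord_toType]
      exact Order.lt_succ_iff.1 (Cardinal.mk_Iio_toType_ord_lt a)
    obtain ⟨f⟩ := h1
    exact ⟨f, f.injective⟩
  choose f hf using hf
  choose g hg using hg
  have hne : Nonempty (XX1 μ) := by
    have : Nonempty μ.ord.ToType := by
      rw [← mk_ne_zero_iff, mk_ord_toType]
      exact (aleph0_pos.trans_le hμ).ne'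
    exact ⟨Sum.inr (Sum.inr (Classical.arbitrary _))⟩
  have h1 : p ∈ V fun x => gr (∀ c ∈ x.1, ∀ c' ∈ x.1, ∀ a a' (h : a' < a), c = Sum.inl a →
      c' = Sum.inl a' → Sum.inr (Sum.inl (f a ⟨a', h⟩)) ∈ x.1) := by
    apply hV.gnormal
    intro c
    apply hV.gnormal
    intro c'
    by_cases hc : ∃ a a', a' < a ∧ c = Sum.inl a ∧ c' = Sum.inl a'
    · obtain ⟨a, a', h, rfl, rfl⟩ := hc
      refine hV.gmono (hV.fine (Sum.inr (Sum.inl (f a ⟨a', h⟩))) p) fun x hx b b' hb h3 h4 => ?_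
      have h5 := Sum.inl.inj h3
      have h6 := Sum.inl.inj h4
      subst h5
      subst h6
      exact hx
    · exact hV.gmono (hV.fine (Classical.arbitrary _) p) fun x _ a a' h h3 h4 =>
        absurd ⟨a, a', h, h3, h4⟩ hc
  have h2 : p ∈ V fun x => gr (∀ c ∈ x.1, ∀ c' ∈ x.1, ∀ a a' (h : a' < a),
      c = Sum.inr (Sum.inl a) → c' = Sum.inr (Sum.inl a') →
      Sum.inr (Sum.inr (g a ⟨a', h⟩)) ∈ x.1) := by
    apply hV.gnormal
    intro c
    apply hV.gnormal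
    intro c'
    by_cases hc : ∃ a a', a' < a ∧ c = Sum.inr (Sum.inl a) ∧ c' = Sum.inr (Sum.inl a')
    · obtain ⟨a, a', h, rfl, rfl⟩ := hc
      refine hV.gmono (hV.fine (Sum.inr (Sum.inr (g a ⟨a', h⟩))) p) fun x hx b b' hb h3 h4 => ?_
      have h5 := Sum.inl.inj (Sum.inr.inj h3)
      have h6 := Sum.inl.inj (Sum.inr.inj h4)
      subst h5
      subst h6
      exact hx
    · exact hV.gmono (hV.fine (Classical.arbitrary _) p) fun x _ a a' h h3 h4 =>
        absurd ⟨a, a', h, h3, h4⟩ hc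
  refine hV.gmono (hV.gand hκs h1 h2) ?_
  rintro x ⟨g1, g2⟩
  let T1 : Set (Order.succ μ).ord.ToType := {b | Sum.inr (Sum.inl b) ∈ x.1}
  have h3 : #T1 ≤ Order.succ #(Mx x) := by
    apply card_le_succ
    intro b hb
    refine mk_le_of_injective (f := fun b' : {b' // b' ∈ T1 ∧ b' < b} =>
      (⟨g b ⟨b'.1, b'.2.2⟩, g2 _ hb _ b'.2.1 b b'.1 b'.2.2 rfl rfl⟩ : Mx x)) ?_
    intro b' b'' h
    have h4 := hg b (congrArg (fun z : Mx x => z.1) h)
    exact Subtype.ext (congrArg (fun z : Set.Iio b => z.1) h4)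
  apply card_le_succ
  intro a ha
  refine (mk_le_of_injective (f := fun b' : {b' // b' ∈ Tx x ∧ b' < a} =>
    (⟨f a ⟨b'.1, b'.2.2⟩, g1 _ ha _ b'.2.1 a b'.1 b'.2.2 rfl rfl⟩ : T1)) ?_).trans h3
  intro b' b'' h
  have h4 := hf a (congrArg (fun z : T1 => z.1) h)
  exact Subtype.ext (congrArg (fun z : Set.Iio a => z.1) h4)

end

end Run7.h888
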