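import Pool.Agent.Run7.h888.A6

/-!
# The first step, continued
-/

set_option autoImplicit false

namespace Run7.h888

open Cardinal Set Pool.Agent.Helper669.Forcing Pool.Agent.Helper669.K Pool.Agent.R588.S

/-- the axioms of systems, below `p` -/
structure Sys {P D N : Type} [Preorder P] [Preorder D] (R : D → N → D → N → RO P) (p : P) :
    Prop where
  s0 : ∀ z, ∀ q ≤ p, ∃ r ≤ q, ∃ ζ, r ∈ R z ζ z ζ
  s1 : ∀ y z, y ≤ z → ∀ ζ, ∀ q ≤ p, q ∈ R z ζ z ζ → ∃ r ≤ q, ∃ ξ, r ∈ R y ξ z ζ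
  s2 : ∀ y y' z ξ ξ' ζ, ∀ q, y ≤ y' → y' ≤ z → q ∈ R y ξ z ζ → q ∈ R y' ξ' z ζ →
    q ∈ R y ξ y' ξ'
  s3 : ∀ y y' z ξ ξ' ζ, ∀ q, y ≤ y' → y' ≤ z → q ∈ R y ξ y' ξ' → q ∈ R y' ξ' z ζ →
    q ∈ R y ξ z ζ

theorem Sys.mono {P D N : Type} [Preorder P] [Preorder D] {R : D → N → D → N → RO P} {p q : P}
    (h : Sys R p) (hq : q ≤ p) : Sys R q :=
  ⟨fun z r hr => h.s0 z r (hr.trans hq), fun y z hy ζ r hr => h.s1 y z hy ζ r (hr.trans hq), h.s2,
    h.s3⟩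

/-- the parameters of the small part of the forcing -/
noncomputable def rho (χ : Cardinal.{0}) {κs : Cardinal.{0}} (t : κs.ord.ToType) : Cardinal.{0} :=
  max χ #(Set.Iio t)

noncomputable def sg (χ : Cardinal.{0}) {κs : Cardinal.{0}} (t : κs.ord.ToType) : Cardinal.{0} :=
  Order.succ (Order.succ (Order.succ (rho χ t)))

/-- the collapse of `t` -/
abbrev AA (χ : Cardinal.{0}) {κs : Cardinal.{0}} (t : κs.ord.ToType) : Type :=
  Fn (Order.succ χ) (Set.Iio t)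

/-- the collapse of `κs` -/
abbrev LL (χ : Cardinal.{0}) {κs : Cardinal.{0}} (t : κs.ord.ToType) : Type := Lv (sg χ t) κs

/-- the section of a truth value -/
def secR {B L O : Type} [Preorder B] [Preorder L] [Preorder O] (U : RO (B × (L × O))) (b : B)
    (l : L) : RO O where
  c := {o | (b, (l, o)) ∈ U}
  down := fun h hq => RO.dn h ⟨le_rfl, le_rfl, hq⟩
  reg := fun {r} h => RO.rg fun q hq => by
    obtain ⟨r', hr', h'⟩ := h q.2.2 hq.2.2
    refine ⟨(q.1, (q.2.1, r')), ⟨le_rfl, le_rfl, hr'⟩, ?_⟩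
    exact RO.dn h' ⟨hq.1, hq.2.1, le_rfl⟩

theorem mem_secR {B L O : Type} [Preorder B] [Preorder L] [Preorder O] {U : RO (B × (L × O))}
    {b : B} {l : L} {o : O} : o ∈ secR U b l ↔ (b, (l, o)) ∈ U := Iff.rfl

theorem strong_lt {κ : Cardinal.{0}} (h : IndestructiblySupercompact κ) {θ : Cardinal.{0}}
    (hθ : θ < κ) : Order.succ θ < κ :=
  (Order.succ_le_of_lt (cantor θ)).trans_lt ((regular_of_supercompact h).2 θ hθ)

theorem sg_lt {χ κs : Cardinal.{0}} (h : IndestructiblySupercompact κs) (hχ : χ < κs)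
    (t : κs.ord.ToType) : sg χ t < κs :=
  strong_lt h (strong_lt h (strong_lt h (max_lt hχ (Cardinal.mk_Iio_toType_ord_lt t))))

section

variable {S O D : Type} [Preorder S] [Preorder O] [Preorder D]

theorem step1 {χ κs μ : Cardinal.{0}} (hχ : ℵ₀ ≤ χ) (hκs : IndestructiblySupercompact κs)
    (hχκ : χ < κs) (hκμ : κs ≤ μ) (hO : DirClosed (Order.succ κs) O) (hcov : Cov μ O)
    (hS : #S < κs) (hD : UpDir μ D) (h : μ.ord.ToType → (Order.succ χ).ord.ToType)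
    (hFn : #(Fn (Order.succ χ) μ.ord.ToType) ≤ μ)
    (rel : ∀ t : κs.ord.ToType, D → μ.ord.ToType → D → μ.ord.ToType →
      RO ((S × AA χ t) × (LL χ t × O)))
    (bs : ∀ t : κs.ord.ToType, S × AA χ t) (ls : ∀ t : κs.ord.ToType, LL χ t) (o0 : O)
    (hsys : ∀ t, Sys (rel t) (bs t, (ls t, o0)))
    (e : (Order.succ (Order.succ μ)).ord.ToType → Nm O D)
    (he : ∀ y, ∀ o : O, ∃ o' ≤ o, ∃ α, o' ∈ (e α).v y) :
    ∃ o ≤ o0, ∃ i, ∃ mI : D → RO O, (∀ y, ∀ q ≤ o, ∃ r ≤ q, ∃ y', y ≤ y' ∧ r ∈ mI y') ∧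
      ∀ y y', y ≤ y' → ∀ q ≤ o, q ∈ mI y → q ∈ mI y' → ∃ r ≤ q, ∃ t b l ξ ξ', b ≤ bs t ∧
        l ≤ ls t ∧ h ξ = i ∧ h ξ' = i ∧ r ∈ secR (rel t y ξ y' ξ') b l := by
  classical
  have hreg := (regular_of_supercompact hκs).1
  have hκ0 := hreg.aleph0_le
  have hμ0 : ℵ₀ ≤ μ := hκ0.trans hκμ
  have hO1 : Clo κs O := DirClosed.clo hO
  have hγκ : Order.succ χ < κs := strong_lt hκs hχκ
  obtain ⟨V, hV⟩ := exists_NF (hκs.2 O (DirClosed.anti hO (Order.le_succ κs)) (XX1 μ))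
  have hU := hV.uf
  have hneD : Nonempty D := by
    obtain ⟨y, _⟩ := hD PEmpty (fun a => a.elim) (by simp)
    exact ⟨y⟩
  have hneM : Nonempty μ.ord.ToType := by
    rw [← mk_ne_zero_iff, mk_ord_toType]
    exact (aleph0_pos.trans_le hμ0).ne'
  -- the parameter of `x`
  choose tx htx using fun x : PK κs (XX1 μ) => exists_Iio_card (Mx_card x)
  have hF : ∀ x : PK κs (XX1 μ), Nonempty (Mx x ≃ Set.Iio (tx x)) := fun x =>
    Cardinal.eq.1 (htx x).symm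
  let Fx : ∀ x, Mx x ≃ Set.Iio (tx x) := fun x => (hF x).some
  let TT : PK κs (XX1 μ) → Type := fun x =>
    (D × μ.ord.ToType) × (LL χ (tx x) × (Tx x → (S × AA χ (tx x)) × μ.ord.ToType))
  have hneT : ∀ x, Nonempty (TT x) := fun x =>
    ⟨((Classical.arbitrary D, Classical.arbitrary _), (ls (tx x), fun _ =>
      (bs (tx x), Classical.arbitrary _)))⟩
  let Ψ : ∀ x, TT x → RO O := fun x τ =>
    an (gr (τ.2.1 ≤ ls (tx x) ∧ ∀ α, (τ.2.2 α).1 ≤ bs (tx x)))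
      (al fun α : Tx x => (e α.1).ev fun y => an (gr (y ≤ τ.1.1))
        (secR (rel (tx x) y (τ.2.2 α).2 τ.1.1 τ.1.2) (τ.2.2 α).1 τ.2.1))
  choose G hG using fun x => exists_Nm (Ψ x)
  -- almost everywhere there is a good tuple
  have hA : o0 ∈ V fun x => ex (Ψ x) := by
    refine hU.wmono (most_card hκ0 hμ0 hV o0) fun x q hq hx => ?_
    have hx' : #(Tx x) ≤ Order.succ (Order.succ #(Mx x)) := hx
    have hTρ : #(Tx x) ≤ Order.succ (Order.succ (rho χ (tx x))) := by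
      refine hx'.trans (Order.succ_le_succ (Order.succ_le_succ ?_))
      rw [← htx x]
      exact le_max_right _ _
    intro q1 hq1
    have hq10 : q1 ≤ o0 := hq1.trans hq
    obtain ⟨o1, ho1, y, hy⟩ := hO1.decide (Tx_card x).le (fun α : Tx x => e α.1) q1
    obtain ⟨δ, hδ⟩ := hD (Tx x) y ((Tx_card x).le.trans hκμ)
    obtain ⟨⟨b, l, o2⟩, hle, ζ, hζ⟩ := (hsys (tx x)).s0 δ (bs (tx x), (ls (tx x), o1))
      ⟨le_rfl, le_rfl, ho1.trans hq10⟩
    have hb : b ≤ bs (tx x) := hle.1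
    have hl : l ≤ ls (tx x) := hle.2.1
    have ho2 : o2 ≤ o1 := hle.2.2
    have hLc : Clo (Order.succ (Order.succ (rho χ (tx x)))) (LL χ (tx x)) :=
      DirClosed.clo (Pf.dirClosed (isRegular_succ
        ((hχ.trans (le_max_left _ _)).trans ((Order.le_succ _).trans (Order.le_succ _)))))
    have hOc : Clo (Order.succ (Order.succ (rho χ (tx x)))) O :=
      hO1.anti ((Order.le_succ _).trans (sg_lt hκs hχκ (tx x)).le)
    obtain ⟨⟨l3, o3⟩, h3, h4⟩ := (hLc.prod hOc).dist hTρ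
      (fun (α : Tx x) (w : LL χ (tx x) × O) => ∃ (b' : S × AA χ (tx x)) (ξ : μ.ord.ToType), b' ≤ b ∧
        (b', w) ∈ rel (tx x) (y α) ξ δ ζ) (by
        rintro α w w' hw ⟨b', ξ, h5, h6⟩
        exact ⟨b', ξ, h5, RO.dn h6 ⟨le_rfl, hw⟩⟩) (l, o2) (by
        intro α w hw
        have hw1 : w.1 ≤ l := hw.1
        have hw2 : w.2 ≤ o2 := hw.2
        obtain ⟨r, hr, ξ, hξ⟩ := (hsys (tx x)).s1 (y α) δ (hδ α) ζ (b, w)
          ⟨hb, hw1.trans hl, hw2.trans (ho2.trans (ho1.trans hq10))⟩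
          (RO.dn hζ ⟨le_rfl, hw1, hw2⟩)
        exact ⟨r.2, hr.2, r.1, ξ, hr.1, hξ⟩)
    choose b' ξ hb' hξ using h4
    have h31 : l3 ≤ l := h3.1
    have h32 : o3 ≤ o2 := h3.2
    refine ⟨o3, (h32.trans (ho2.trans ho1)), ((δ, ζ), (l3, fun α => (b' α, ξ α))), ?_, ?_⟩
    · exact ⟨h31.trans hl, fun α => (hb' α).trans hb⟩
    · intro α
      refine Nm.mem_ev.2 fun r hr z hz => ?_
      have hr' : r ≤ o3 := hr
      rw [(e α.1).fn r z (y α) hz (RO.dn (hy α) (hr'.trans (h32.trans ho2)))]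
      exact ⟨hδ α, RO.dn (hξ α) hr'⟩
  -- translation to functions into `μ`
  let tr : ∀ x, AA χ (tx x) → (Order.succ χ).ord.ToType → Option μ.ord.ToType := fun x a j =>
    (a.f j).map fun s => ((Fx x).symm s).1
  have htrinj : ∀ x a a', tr x a = tr x a' → a = a' := by
    intro x a a' haa
    apply Pf.ext
    funext j
    have h1 : (a.f j).map (fun s => ((Fx x).symm s).1) = (a'.f j).map fun s => ((Fx x).symm s).1 :=
      congrFun haa j
    refine Option.map_injective ?_ h1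
    intro s s' hs
    exact (Fx x).symm.injective (Subtype.ext hs)
  have htrx : ∀ x a j m, tr x a j = some m → m ∈ Mx x := by
    intro x a j m hm
    rcases ha : a.f j with _ | s
    · have h1 : (a.f j).map (fun s => ((Fx x).symm s).1) = some m := hm
      rw [ha] at h1
      exact absurd h1 (by simp)
    · have h1 : (a.f j).map (fun s => ((Fx x).symm s).1) = some m := hm
      rw [ha] at h1
      have h2 : ((Fx x).symm s).1 = m := Option.some.inj h1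
      rw [← h2]
      exact ((Fx x).symm s).2
  -- the value at `α`
  let val : (Order.succ (Order.succ μ)).ord.ToType → (S × Fn (Order.succ χ) μ.ord.ToType) ×
      (Order.succ χ).ord.ToType → PK κs (XX1 μ) → RO O := fun α v x =>
    (G x).ev fun τ => gr (∃ hα : α ∈ Tx x, (τ.2.2 ⟨α, hα⟩).1.1 = v.1.1 ∧
      tr x (τ.2.2 ⟨α, hα⟩).1.2 = v.1.2.f ∧ h (τ.2.2 ⟨α, hα⟩).2 = v.2)
  have hB : ∀ α, ∀ p : O, ∃ q ≤ p, ∃ v, q ∈ V (val α v) := by
    intro α p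
    -- first the element of `S` and of `Γ`
    obtain ⟨q1, hq1, ⟨s, i⟩, h1⟩ := hU.few (V := S × (Order.succ χ).ord.ToType) (p := p)
      (φ := fun v x => (G x).ev fun τ => gr (∃ hα : α ∈ Tx x, (τ.2.2 ⟨α, hα⟩).1.1 = v.1 ∧
        h (τ.2.2 ⟨α, hα⟩).2 = v.2)) (by
        rw [mkp, mk_ord_toType]
        exact mul_lt_of_lt hκ0 hS hγκ) (by
        refine hU.wmono (hV.fine (Sum.inl α) p) fun x q _ hx => ?_
        intro q' _
        obtain ⟨r, hr, τ, hτ⟩ := (G x).tot q'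
        have hα : α ∈ Tx x := hx
        refine ⟨r, hr, ((τ.2.2 ⟨α, hα⟩).1.1, h (τ.2.2 ⟨α, hα⟩).2), ?_⟩
        refine Nm.mem_ev.2 fun r' hr' τ' hτ' => ?_
        rw [(G x).fn r' τ' τ hτ' (RO.dn hτ hr')]
        exact ⟨hα, rfl, rfl⟩)
    -- the values of the function
    obtain ⟨q2, hq2, h2⟩ := hO1.dist (A := (Order.succ χ).ord.ToType)
      (by rw [mk_ord_toType]; exact hγκ.le)
      (fun j q => ∃ w : Option μ.ord.ToType, q ∈ V fun x => (G x).ev fun τ =>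
        gr (∃ hα : α ∈ Tx x, tr x (τ.2.2 ⟨α, hα⟩).1.2 j = w)) (by
        rintro j q q' hq ⟨w, hw⟩
        exact ⟨w, RO.dn hw hq⟩) q1 (by
        intro j q _
        obtain ⟨r, hr, w, hw⟩ := hU.few (V := Bool) (p := q)
          (φ := fun v x => if v then (G x).ev fun τ =>
              gr (∃ hα : α ∈ Tx x, tr x (τ.2.2 ⟨α, hα⟩).1.2 j = none)
            else ex fun a : x.1 => (G x).ev fun τ => gr (∃ (hα : α ∈ Tx x) (m : μ.ord.ToType),
              tr x (τ.2.2 ⟨α, hα⟩).1.2 j = some m ∧ a.1 = Sum.inr (Sum.inr m)))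
          ((lt_aleph0_of_finite Bool).trans_le hκ0) (by
            refine hU.wmono (hV.fine (Sum.inl α) q) fun x q _ hx => ?_
            intro q' _
            obtain ⟨r, hr, τ, hτ⟩ := (G x).tot q'
            have hα : α ∈ Tx x := hx
            rcases hm : tr x (τ.2.2 ⟨α, hα⟩).1.2 j with _ | m
            · refine ⟨r, hr, true, ?_⟩
              beta_reduce
              rw [if_pos rfl]
              refine Nm.mem_ev.2 fun r' hr' τ' hτ' => ?_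
              rw [(G x).fn r' τ' τ hτ' (RO.dn hτ hr')]
              exact ⟨hα, hm⟩
            · refine ⟨r, hr, false, ?_⟩
              beta_reduce
              rw [if_neg Bool.false_ne_true]
              refine mem_ex_of ⟨Sum.inr (Sum.inr m), htrx x _ j m hm⟩ ?_
              refine Nm.mem_ev.2 fun r' hr' τ' hτ' => ?_
              rw [(G x).fn r' τ' τ hτ' (RO.dn hτ hr')]
              exact ⟨hα, m, hm, rfl⟩)
        cases w with
        | true => exact ⟨r, hr, none, by simpa using hw⟩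
        | false =>
          have hw' : r ∈ V fun x => ex fun a : x.1 => (G x).ev fun τ =>
              gr (∃ (hα : α ∈ Tx x) (m : μ.ord.ToType),
              tr x (τ.2.2 ⟨α, hα⟩).1.2 j = some m ∧ a.1 = Sum.inr (Sum.inr m)) := by
            simpa using hw
          obtain ⟨r', hr', a, ha⟩ := hV.press hκ0 (φ := fun a x => (G x).ev fun τ =>
              gr (∃ (hα : α ∈ Tx x) (m : μ.ord.ToType),
              tr x (τ.2.2 ⟨α, hα⟩).1.2 j = some m ∧ a = Sum.inr (Sum.inr m))) hw'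
          obtain ⟨r2, _, x, hx⟩ := hU.proper ha
          obtain ⟨r3, hr3, τ, hτ⟩ := (G x).tot r2
          obtain ⟨_, m, _, hm⟩ := Nm.mem_ev.1 hx r3 hr3 τ hτ
          refine ⟨r', hr'.trans hr, some m, hU.wmono ha fun x q _ hx => ?_⟩
          refine Nm.mem_ev.2 fun q' hq' τ hτ => ?_
          obtain ⟨hα, m', hm1, hm2⟩ := Nm.mem_ev.1 hx q' hq' τ hτ
          rw [hm] at hm2
          have h3 : m = m' := Sum.inr.inj (Sum.inr.inj hm2)
          exact ⟨hα, by rw [h3]; exact hm1⟩)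
    choose u hu using h2
    have h3 := hU.inter (Order.succ χ).ord.ToType (fun j x => (G x).ev fun τ =>
        gr (∃ hα : α ∈ Tx x, tr x (τ.2.2 ⟨α, hα⟩).1.2 j = u j)) q2
        (by rw [mk_ord_toType]; exact hγκ) hu
    have h4 : q2 ∈ V fun x => (G x).ev fun τ => gr (∃ hα : α ∈ Tx x,
        (τ.2.2 ⟨α, hα⟩).1.1 = s ∧ tr x (τ.2.2 ⟨α, hα⟩).1.2 = u ∧ h (τ.2.2 ⟨α, hα⟩).2 = i) := by
      refine hU.up2 hκ0 (RO.dn h1 hq2) h3 fun q _ x hx1 hx2 => ?_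
      refine Nm.mem_ev.2 fun q' hq' τ hτ => ?_
      obtain ⟨hα, g1, g2⟩ := Nm.mem_ev.1 hx1 q' hq' τ hτ
      refine ⟨hα, g1, ?_, g2⟩
      funext j
      obtain ⟨hα', g3⟩ := Nm.mem_ev.1 (hx2 j) q' hq' τ hτ
      exact g3
    have h5 : #{j // u j ≠ none} < Order.succ χ := by
      obtain ⟨r2, _, x, hx⟩ := hU.proper h4
      obtain ⟨r3, hr3, τ, hτ⟩ := (G x).tot r2
      obtain ⟨hα, _, g1, _⟩ := Nm.mem_ev.1 hx r3 hr3 τ hτ
      refine lt_of_le_of_lt ?_ (τ.2.2 ⟨α, hα⟩).1.2.small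
      refine mk_le_of_injective (f := fun j : {j // u j ≠ none} =>
        (⟨j.1, ?_⟩ : {j // (τ.2.2 ⟨α, hα⟩).1.2.f j ≠ none})) ?_
      · intro hcon
        apply j.2
        rw [← congrFun g1 j.1]
        show ((τ.2.2 ⟨α, hα⟩).1.2.f j.1).map _ = none
        rw [hcon]
        rfl
      · intro j j' hj
        exact Subtype.ext (congrArg (fun z : {j // (τ.2.2 ⟨α, hα⟩).1.2.f j ≠ none} => z.1) hj)
    exact ⟨q2, hq2.trans hq1, ((s, ⟨u, h5, fun _ _ _ => trivial⟩), i), h4⟩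
  -- the cofinal set
  let mI : (S × Fn (Order.succ χ) μ.ord.ToType) × (Order.succ χ).ord.ToType → D → RO O :=
    fun v y => ex fun α => an ((e α).v y) (V (val α v))
  have hC : ∃ o ≤ o0, ∃ v, ∀ y, ∀ q ≤ o, ∃ r ≤ q, ∃ y', y ≤ y' ∧ r ∈ mI v y' := by
    by_contra hcon
    push Not at hcon
    obtain ⟨q, hq, Z, hZ, hcz⟩ := hcov ((S × Fn (Order.succ χ) μ.ord.ToType) ×
        (Order.succ χ).ord.ToType) D (fun v y q => ∀ r ≤ q, ∀ y', y ≤ y' → r ∉ mI v y') (by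
        rw [mkp, mkp, mk_ord_toType]
        exact mul_le_of_le hμ0 (mul_le_of_le hμ0 (hS.le.trans hκμ) hFn) (hγκ.le.trans hκμ))
      (fun v y p q hq hp r hr => hp r (hr.trans hq)) o0 (by
        intro v q hq
        obtain ⟨y, r, hr, h1⟩ := hcon q hq v
        exact ⟨r, hr, y, h1⟩)
    obtain ⟨y, hy⟩ := hD (⋃ v, Z v : Set D) (fun w => w.1) (by
      refine (mk_iUnion_le _).trans ?_
      refine mul_le_of_le hμ0 ?_ (ciSup_le' hZ)
      rw [mkp, mkp, mk_ord_toType]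
      exact mul_le_of_le hμ0 (mul_le_of_le hμ0 (hS.le.trans hκμ) hFn) (hγκ.le.trans hκμ))
    obtain ⟨q1, hq1, α, hα⟩ := he y q
    obtain ⟨q2, hq2, v, hv⟩ := hB α q1
    obtain ⟨r, hr, z, hz, hz'⟩ := hcz v q2 (hq2.trans hq1)
    refine hz' r le_rfl y (hy ⟨z, mem_iUnion.2 ⟨v, hz⟩⟩) ?_
    exact mem_ex_of α ⟨RO.dn hα (hr.trans hq2), RO.dn hv hr⟩
  obtain ⟨o, ho, v, hcof⟩ := hC
  refine ⟨o, ho, v.2, mI v, hcof, ?_⟩
  intro y y' hyy q hq hq1 hq2
  obtain ⟨q3, hq3, α, hα1, hα2⟩ := hq1 q le_rfl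
  obtain ⟨q4, hq4, β, hβ1, hβ2⟩ := hq2 q3 hq3
  have h1 := hU.and hκ0 (RO.dn hα2 hq4) (hU.and hκ0 hβ2
    (RO.dn hA (hq4.trans (hq3.trans (hq.trans ho)))))
  obtain ⟨q5, hq5, x, hx1, hx2, hx3⟩ := hU.proper h1
  obtain ⟨q6, hq6, τ, hτ⟩ := (G x).tot q5
  obtain ⟨hαx, g1, g2, g3⟩ := Nm.mem_ev.1 hx1 q6 hq6 τ hτ
  obtain ⟨hβx, g4, g5, g6⟩ := Nm.mem_ev.1 hx2 q6 hq6 τ hτ
  have hΨ := hG x q6 τ hτ (RO.dn hx3 hq6)
  have hle1 : q6 ≤ q3 := hq6.trans (hq5.trans hq4)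
  obtain ⟨k1, k2⟩ := Nm.mem_ev.1 (hΨ.2 ⟨α, hαx⟩) q6 le_rfl y (RO.dn hα1 hle1)
  obtain ⟨k3, k4⟩ := Nm.mem_ev.1 (hΨ.2 ⟨β, hβx⟩) q6 le_rfl y' (RO.dn hβ1 (hq6.trans hq5))
  have hbb : (τ.2.2 ⟨α, hαx⟩).1 = (τ.2.2 ⟨β, hβx⟩).1 := by
    apply Prod.ext
    · exact g1.trans g4.symm
    · exact htrinj x _ _ (g2.trans g5.symm)
  refine ⟨q6, hle1.trans hq3, tx x, (τ.2.2 ⟨α, hαx⟩).1, τ.2.1, (τ.2.2 ⟨α, hαx⟩).2,
    (τ.2.2 ⟨β, hβx⟩).2, hΨ.1.2 ⟨α, hαx⟩, hΨ.1.1, g3, g6, ?_⟩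
  rw [← hbb] at k4
  exact (hsys (tx x)).s2 y y' τ.1.1 _ _ τ.1.2 _ hyy k3 k2 k4

end

end Run7.h888
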