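import Pool.Agent.Run7.h888.A5
import Pool.Agent.Run7.h888.A7

/-!
# Transfer along projections, and covering
-/

set_option autoImplicit false

namespace Run7.h888

open Cardinal Set Pool.Agent.Helper669.Forcing Pool.Agent.Helper669.K Pool.Agent.R588.S

/-- a projection of forcing notions -/
structure Prj {P' P : Type} [Preorder P'] [Preorder P] (π : P' → P) : Prop where
  mono : Monotone π
  lift : ∀ p' p, p ≤ π p' → ∃ p'' ≤ p', π p'' ≤ p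

theorem Prj.iso {P' P : Type} [Preorder P'] [Preorder P] (e : P' ≃o P) : Prj (fun p => e p) :=
  ⟨fun _ _ h => e.monotone h, fun p' p h => ⟨e.symm p, by
    rw [← e.le_iff_le, e.apply_symm_apply]
    exact h, (e.apply_symm_apply p).le⟩⟩

section

variable {P' P : Type} [Preorder P'] [Preorder P] {π : P' → P}

/-- the truth value pulled back along a projection -/
def Prj.pb (h : Prj π) (U : RO P) : RO P' where
  c := {p | π p ∈ U}
  down := fun hp hq => RO.dn hp (h.mono hq)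
  reg := fun {p} hp => RO.rg fun q hq => by
    obtain ⟨p'', h1, h2⟩ := h.lift p q hq
    obtain ⟨r, hr, h3⟩ := hp p'' h1
    exact ⟨π r, (h.mono hr).trans h2, h3⟩

theorem Prj.mem_pb {h : Prj π} {U : RO P} {p : P'} : p ∈ h.pb U ↔ π p ∈ U := Iff.rfl

theorem Prj.isBr {D N : Type} [Preorder D] (h : Prj π) {R : D → N → D → N → RO P} {p : P'}
    {br : D → N → RO P} (hb : IsBr R (π p) br) :
    IsBr (fun y ξ z ζ => h.pb (R y ξ z ζ)) p (fun y ξ => h.pb (br y ξ)) := by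
  refine ⟨fun y q hq => ?_, fun y y' ξ ξ' hy q hq h1 h2 => hb.2 y y' ξ ξ' hy _ (h.mono hq) h1 h2⟩
  obtain ⟨r, hr, y', hy', ξ, hξ⟩ := hb.1 y (π q) (h.mono hq)
  obtain ⟨q', hq', h1⟩ := h.lift q r hr
  exact ⟨q', hq', y', hy', ξ, Prj.mem_pb.2 (RO.dn hξ h1)⟩

theorem Prj.sys {D N : Type} [Preorder D] (h : Prj π) {R : D → N → D → N → RO P} {p : P'}
    (hR : Sys R (π p)) : Sys (fun y ξ z ζ => h.pb (R y ξ z ζ)) p := by
  refine ⟨?_, ?_, ?_, ?_⟩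
  · intro z q hq
    obtain ⟨r, hr, ζ, hζ⟩ := hR.s0 z (π q) (h.mono hq)
    obtain ⟨q', hq', h1⟩ := h.lift q r hr
    exact ⟨q', hq', ζ, Prj.mem_pb.2 (RO.dn hζ h1)⟩
  · intro y z hy ζ q hq h2
    obtain ⟨r, hr, ξ, hξ⟩ := hR.s1 y z hy ζ (π q) (h.mono hq) h2
    obtain ⟨q', hq', h1⟩ := h.lift q r hr
    exact ⟨q', hq', ξ, Prj.mem_pb.2 (RO.dn hξ h1)⟩
  · intro y y' z ξ ξ' ζ q hy hy' h1 h2
    exact hR.s2 y y' z ξ ξ' ζ (π q) hy hy' h1 h2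
  · intro y y' z ξ ξ' ζ q hy hy' h1 h2
    exact hR.s3 y y' z ξ ξ' ζ (π q) hy hy' h1 h2

end

theorem Sys.comp {P D D' N : Type} [Preorder P] [Preorder D] [Preorder D']
    {R : D → N → D → N → RO P} {p : P} (hR : Sys R p) {g : D' → D} (hg : Monotone g) :
    Sys (fun y ξ z ζ => R (g y) ξ (g z) ζ) p :=
  ⟨fun z => hR.s0 (g z), fun y z hy => hR.s1 (g y) (g z) (hg hy),
    fun y y' z ξ ξ' ζ q hy hy' => hR.s2 _ _ _ ξ ξ' ζ q (hg hy) (hg hy'),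
    fun y y' z ξ ξ' ζ q hy hy' => hR.s3 _ _ _ ξ ξ' ζ q (hg hy) (hg hy')⟩

/-- branches and isomorphisms -/
theorem isBr_iso {P P' D N : Type} [Preorder P] [Preorder P'] [Preorder D] (e : P' ≃o P)
    {R : D → N → D → N → RO P} {p : P'} {br : D → N → RO P'}
    (hb : IsBr (fun y ξ z ζ => (Prj.iso e).pb (R y ξ z ζ)) p br) :
    IsBr R (e p) (fun y ξ => (Prj.iso e.symm).pb (br y ξ)) := by
  have h := (Prj.iso e.symm).isBr (p := e p)
    (R := fun y ξ z ζ => (Prj.iso e).pb (R y ξ z ζ)) (br := br) (by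
      show IsBr _ (e.symm (e p)) br
      rw [e.symm_apply_apply]
      exact hb)
  refine ⟨h.1, fun y y' ξ ξ' hy q hq h1 h2 => ?_⟩
  have h3 : e (e.symm q) ∈ R y ξ y' ξ' := h.2 y y' ξ ξ' hy q hq h1 h2
  rwa [e.apply_symm_apply] at h3

/-! ### Covering -/

theorem Cov.prod {χ : Cardinal.{0}} (hχ : ℵ₀ ≤ χ) {B Z : Type} [Preorder B] [Preorder Z]
    (hB : #B ≤ χ) (hZ : Clo χ Z) : Cov χ (B × Z) := by
  classical
  intro A X Φ hA hΦ p hp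
  obtain ⟨z, hz, h⟩ := hZ.dist (A := A × B) (by
      rw [mkp]
      exact mul_le_of_le hχ hA hB)
    (fun a z => a.2 ≤ p.1 → ∃ b ≤ a.2, ∃ x, Φ a.1 x (b, z)) (by
      rintro a z z' hz h h1
      obtain ⟨b, hb, x, hx⟩ := h h1
      exact ⟨b, hb, x, hΦ _ _ _ _ (show (b, z') ≤ (b, z) from ⟨le_rfl, hz⟩) hx⟩) p.2 (by
      rintro ⟨a, b⟩ z hz
      by_cases hb : b ≤ p.1
      · obtain ⟨r, hr, x, hx⟩ := hp a (b, z) ⟨hb, hz⟩
        exact ⟨r.2, hr.2, fun _ => ⟨r.1, hr.1, x, hx⟩⟩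
      · exact ⟨z, le_rfl, fun h => absurd h hb⟩)
  have h1 : ∀ ab : {ab : A × B // ab.2 ≤ p.1}, ∃ x, ∃ b ≤ ab.1.2, Φ ab.1.1 x (b, z) := by
    intro ab
    obtain ⟨b, hb, x, hx⟩ := h ab.1 ab.2
    exact ⟨x, b, hb, hx⟩
  choose x hx using h1
  refine ⟨(p.1, z), ⟨le_rfl, hz⟩, fun a => {y | ∃ b : {b // b ≤ p.1}, y = x ⟨(a, b.1), b.2⟩},
    ?_, ?_⟩
  · intro a
    have h2 : {y | ∃ b : {b // b ≤ p.1}, y = x ⟨(a, b.1), b.2⟩} ⊆
        Set.range fun b : {b // b ≤ p.1} => x ⟨(a, b.1), b.2⟩ := by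
      rintro y ⟨b, rfl⟩
      exact ⟨b, rfl⟩
    exact (mk_le_mk_of_subset h2).trans (mk_range_le.trans ((mk_subtype_le _).trans hB))
  · intro a r hr
    have hr1 : r.1 ≤ p.1 := hr.1
    have hr2 : r.2 ≤ z := hr.2
    obtain ⟨b, hb, h3⟩ := hx ⟨(a, r.1), hr1⟩
    exact ⟨(b, r.2), ⟨hb, le_rfl⟩, _, ⟨⟨r.1, hr1⟩, rfl⟩,
      hΦ _ _ _ _ (show (b, r.2) ≤ (b, z) from ⟨le_rfl, hr2⟩) h3⟩

theorem Cov.iso {χ : Cardinal.{0}} {F F' : Type} [Preorder F] [Preorder F'] (h : Cov χ F)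
    (e : F' ≃o F) : Cov χ F' := by
  intro A X Φ hA hΦ p hp
  obtain ⟨q, hq, Z, hZ, h1⟩ := h A X (fun a x r => Φ a x (e.symm r)) hA
    (fun a x p q hq hp => hΦ a x _ _ (e.symm.monotone hq) hp) (e p) (by
      intro a q hq
      obtain ⟨r, hr, x, hx⟩ := hp a (e.symm q) (by
        rw [← e.le_iff_le, e.apply_symm_apply]
        exact hq)
      refine ⟨e r, ?_, x, ?_⟩
      · rw [← e.symm.le_iff_le, e.symm_apply_apply]
        exact hr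
      · rw [e.symm_apply_apply]
        exact hx)
  refine ⟨e.symm q, ?_, Z, hZ, ?_⟩
  · rw [← e.le_iff_le, e.apply_symm_apply]
    exact hq
  · intro a r hr
    obtain ⟨r', hr', x, hx, h2⟩ := h1 a (e r) (by
      rw [← e.symm.le_iff_le, e.symm_apply_apply]
      exact hr)
    refine ⟨e.symm r', ?_, x, hx, h2⟩
    rw [← e.le_iff_le, e.apply_symm_apply]
    exact hr'

/-- covering at limits -/
theorem Cov.lim {χ χ0 : Cardinal.{0}} {ι F : Type} [Preorder F] (θ : ι → Cardinal.{0})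
    (hχ : ℵ₀ ≤ χ) (h0 : Cov χ0 F) (hι : #ι ≤ χ0) (h0χ : χ0 ≤ χ) (hθ : ∀ i, Cov (θ i) F)
    (hθχ : ∀ i, θ i ≤ χ)
    (hsup : ∀ A : Type, #A ≤ χ → ∃ g : A → ι, ∀ i, #{a // g a = i} ≤ θ i) : Cov χ F := by
  intro A X Φ hA hΦ p hp
  obtain ⟨g, hg⟩ := hsup A hA
  obtain ⟨q, hq, W, hW, h1⟩ := h0 ι (A → Set X)
    (fun i Z r => (∀ a, g a = i → #(Z a) ≤ θ i) ∧
      ∀ a, g a = i → ∀ r' ≤ r, ∃ r'' ≤ r', ∃ x ∈ Z a, Φ a x r'') hι (by
      rintro i Z r r' hr ⟨h1, h2⟩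
      exact ⟨h1, fun a ha s hs => h2 a ha s (hs.trans hr)⟩) p (by
      classical
      intro i q hq
      obtain ⟨r, hr, Z, hZ, h1⟩ := hθ i {a // g a = i} X (fun a x r => Φ a.1 x r) (hg i)
        (fun a x p q hq hp => hΦ a.1 x _ _ hq hp) q (fun a r hr => hp a.1 r (hr.trans hq))
      refine ⟨r, hr, fun a => if h : g a = i then Z ⟨a, h⟩ else ∅, ?_, ?_⟩
      · intro a ha
        beta_reduce
        rw [dif_pos ha]
        exact hZ _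
      · intro a ha r' hr'
        beta_reduce
        rw [dif_pos ha]
        exact h1 ⟨a, ha⟩ r' hr')
  refine ⟨q, hq, fun a => ⋃ Z : {Z // Z ∈ W (g a) ∧ #(Z a) ≤ θ (g a)}, Z.1 a, ?_, ?_⟩
  · intro a
    refine (mk_iUnion_le _).trans ?_
    refine mul_le_of_le hχ ?_ (ciSup_le' fun Z => Z.2.2.trans (hθχ _))
    refine (mk_le_mk_of_subset (s := {Z | Z ∈ W (g a) ∧ #(Z a) ≤ θ (g a)}) (t := W (g a))
      (fun Z hZ => hZ.1)).trans ((hW _).trans h0χ)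
  · intro a r hr
    obtain ⟨r', hr', Z, hZ, h2, h3⟩ := h1 (g a) r hr
    obtain ⟨r2, hr2, x, hx, h4⟩ := h3 a rfl r' le_rfl
    exact ⟨r2, hr2.trans hr', x, mem_iUnion.2 ⟨⟨Z, hZ, h2 a rfl⟩, hx⟩, h4⟩

end Run7.h888
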