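import Pool.Agent.Run7.h888.A6

/-!
# Cardinal arithmetic above a supercompact cardinal
-/

set_option autoImplicit false

namespace Run7.h888

open Cardinal Set Pool.Agent.Helper669.Forcing Pool.Agent.Helper669.K Pool.Agent.R588.S

/-- small powers of regular cardinals above a supercompact cardinal -/
theorem power_le_of_supercompact {κs lam θ : Cardinal.{0}} (hκs : IndestructiblySupercompact κs)
    (hlam : lam.IsRegular) (hκl : κs ≤ lam) (hθ : θ < κs) : lam ^ θ ≤ lam := by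
  classical
  have hreg := (regular_of_supercompact hκs).1
  have hstr := (regular_of_supercompact hκs).2
  have hκ0 := hreg.aleph0_le
  let Θ : Type := lam.ord.ToType
  have hΘ : #Θ = lam := mk_ord_toType lam
  obtain ⟨V, hV⟩ := exists_NF (hκs.2 Unit (fun _ _ _ _ => ⟨(), fun _ _ => le_rfl⟩) Θ)
  have hlt : ∀ x : PK κs Θ, #x.1 < lam := fun x => x.2.trans_le hκl
  -- the least strict upper bound
  have hsup : ∀ x : PK κs Θ, ∃ s : Θ, (∀ a ∈ x.1, a < s) ∧ ∀ t < s, ∃ a ∈ x.1, t ≤ a := by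
    intro x
    obtain ⟨b, hb⟩ := bdd_reg hlam x.1 (hlt x)
    obtain ⟨s, hs, hmin⟩ := WellFounded.has_min (wellFounded_lt (α := Θ))
      {s | ∀ a ∈ x.1, a < s} ⟨b, hb⟩
    refine ⟨s, hs, fun t ht => ?_⟩
    by_contra hcon
    push Not at hcon
    exact hmin t hcon ht
  choose s hs1 hs2 using hsup
  have hneΘ : Nonempty Θ := by
    rw [← mk_ne_zero_iff, hΘ]
    exact hlam.pos.ne'
  have hnex : Nonempty (PK κs Θ) := ⟨⟨∅, by simpa using hreg.pos⟩⟩
  -- the chosen cofinal sets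
  have hc : ∀ t : Θ, ∃ x : PK κs Θ, (∃ x', s x' = t) → s x = t := by
    intro t
    by_cases h : ∃ x', s x' = t
    · obtain ⟨x', h'⟩ := h
      exact ⟨x', fun _ => h'⟩
    · exact ⟨Classical.arbitrary _, fun h' => absurd h' h⟩
  choose c hc using hc
  have hN : ∀ η : Θ, ∃ y : Θ, η ≤ y ∧
      () ∈ V fun x => gr (∃ a ∈ (c (s x)).1, η ≤ a ∧ a ≤ y) := by
    intro η
    have h1 : () ∈ V fun x => ex fun y : x.1 => gr (η ≤ y.1 ∧
        ∃ a ∈ (c (s x)).1, η ≤ a ∧ a ≤ y.1) := by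
      refine hV.uf.wmono (hV.fine η ()) fun x q _ hx => ?_
      have hx' : η ∈ x.1 := hx
      have h2 : s (c (s x)) = s x := hc (s x) ⟨x, rfl⟩
      obtain ⟨a, ha, hηa⟩ := hs2 (c (s x)) η (by rw [h2]; exact hs1 x η hx')
      have h3 : a < s x := by
        rw [← h2]
        exact hs1 _ a ha
      obtain ⟨y, hy, hay⟩ := hs2 x a h3
      exact mem_ex_of ⟨y, hy⟩ ⟨hηa.trans hay, a, ha, hηa, hay⟩
    obtain ⟨q, _, y, hy⟩ := hV.press hκ0 (φ := fun y x => gr (η ≤ y ∧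
        ∃ a ∈ (c (s x)).1, η ≤ a ∧ a ≤ y)) h1
    obtain ⟨_, _, x, hx, _⟩ := hV.proper hy
    exact ⟨y, hx, hV.gmono hy fun x hx => hx.2⟩
  choose N hN1 hN2 using hN
  -- the intervals
  obtain ⟨e, he⟩ : ∃ e : Θ → Θ, ∀ g, ∀ g' < g, N (e g') < e g := by
    have h1 : ∀ (g : Θ) (f : ∀ g', g' < g → Θ), ∃ t, ∀ g' (h : g' < g), N (f g' h) < t := by
      intro g f
      obtain ⟨b, hb⟩ := bdd_reg hlam (Set.range fun g' : Set.Iio g => N (f g'.1 g'.2))
        (mk_range_le.trans_lt (Cardinal.mk_Iio_toType_ord_lt g))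
      exact ⟨b, fun g' h => hb _ ⟨⟨g', h⟩, rfl⟩⟩
    choose F hF using h1
    refine ⟨(wellFounded_lt (α := Θ)).fix F, fun g g' hg => ?_⟩
    rw [WellFounded.fix_eq (wellFounded_lt (α := Θ)) F g]
    exact hF g (fun y _ => (wellFounded_lt (α := Θ)).fix F y) g' hg
  let Ms : Θ → Set Θ := fun t => {g | ∃ a ∈ (c t).1, e g ≤ a ∧ a ≤ N (e g)}
  have hMs : ∀ t, #(Ms t) < κs := by
    intro t
    refine lt_of_le_of_lt ?_ (c t).2
    choose a ha using fun g : Ms t => g.2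
    refine mk_le_of_injective (f := fun g : Ms t => (⟨a g, (ha g).1⟩ : (c t).1)) ?_
    intro g g' h
    have h1 : a g = a g' := congrArg Subtype.val h
    have key : ∀ g g' : Ms t, a g = a g' → ¬ g.1 < g'.1 := by
      intro g g' h1 h2
      have h3 := (ha g).2.2
      have h4 := (ha g').2.1
      rw [h1] at h3
      exact absurd (h4.trans h3) (not_le.2 (he g'.1 g.1 h2))
    exact Subtype.ext (le_antisymm (not_lt.1 (key g' g h1.symm)) (not_lt.1 (key g g' h1)))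
  have hcovr : ∀ A : Set Θ, #A < κs → ∃ t, A ⊆ Ms t := by
    intro A hA
    have h1 := hV.ginter (J := A) hA (A := fun g x => g.1 ∈ Ms (s x)) (p := ())
      (fun g => hV.gmono (hN2 (e g.1)) fun x hx => hx)
    obtain ⟨_, _, x, hx⟩ := hV.proper h1
    exact ⟨s x, fun g hg => hx ⟨g, hg⟩⟩
  -- counting
  let I : Type := θ.out
  have hI : #I = θ := mk_out θ
  have h1 : lam ^ θ = #(I → Θ) := by rw [← power_def, hI, hΘ]
  have h2 : (Set.univ : Set (I → Θ)) ⊆ ⋃ t, {f | ∀ i, f i ∈ Ms t} := by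
    intro f _
    obtain ⟨t, ht⟩ := hcovr (Set.range f) (mk_range_le.trans_lt (by rw [hI]; exact hθ))
    exact mem_iUnion.2 ⟨t, fun i => ht ⟨i, rfl⟩⟩
  rw [h1, ← mk_univ]
  refine (mk_le_mk_of_subset h2).trans ((mk_iUnion_le _).trans ?_)
  rw [hΘ]
  refine mul_le_of_le hlam.aleph0_le le_rfl (ciSup_le' fun t => ?_)
  have h3 : #{f : I → Θ | ∀ i, f i ∈ Ms t} ≤ #(I → Ms t) := by
    refine mk_le_of_injective (f := fun (f : {f : I → Θ | ∀ i, f i ∈ Ms t}) (i : I) =>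
      (⟨f.1 i, f.2 i⟩ : Ms t)) ?_
    intro f g hfg
    apply Subtype.ext
    funext i
    exact congrArg (fun z : Ms t => z.1) (congrFun hfg i)
  refine h3.trans ?_
  rw [← power_def, hI]
  have h4 : #(Ms t) ^ θ ≤ 2 ^ (max (#(Ms t)) ℵ₀ * θ) := by
    rw [power_mul]
    exact power_le_power_right ((le_max_left _ _).trans (cantor _).le)
  refine h4.trans (le_of_lt (lt_of_lt_of_le (hstr _ ?_) hκl))
  exact mul_lt_of_lt hκ0 (max_lt (hMs t) hκs.1) hθ

end Run7.h888
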