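import Pool.Agent.Run7.h888.A8
import Pool.Agent.Run7.h888.B1

/-!
# Blocks of cardinals
-/

set_option autoImplicit false

namespace Run7.h888

open Cardinal Set Pool.Agent.Helper669.Forcing Pool.Agent.Helper669.K Pool.Agent.R588.S

theorem card_le_of_lt {Θ : Type} [LinearOrder Θ] [WellFoundedLT Θ] (A : Set Θ) (ρ : Cardinal.{0})
    (h : ∀ a ∈ A, #{b // b ∈ A ∧ b < a} < ρ) : #A ≤ ρ := by
  by_contra hcon
  push Not at hcon
  have h1 : ρ.ord < Ordinal.type ((· < ·) : A → A → Prop) := by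
    refine lt_of_lt_of_le (ord_lt_ord.2 hcon) ?_
    exact ord_le_type _
  obtain ⟨a, ha⟩ := Ordinal.typein_surj (α := A) (· < ·) h1
  have h2 := Ordinal.card_typein (r := ((· < ·) : A → A → Prop)) a
  rw [ha, card_ord] at h2
  have h3 : #{b : A // b < a} ≤ #{b // b ∈ A ∧ b < a.1} := by
    refine mk_le_of_injective (f := fun b => (⟨b.1.1, b.1.2, b.2⟩ : {b // b ∈ A ∧ b < a.1})) ?_
    intro b b' hbb
    exact Subtype.ext (Subtype.ext (congrArg (fun z : {b // b ∈ A ∧ b < a.1} => z.1) hbb))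
  exact absurd ((h2.le.trans h3).trans_lt (h a.1 a.2)) (lt_irrefl _)

/-- a block: cardinals `χ < κs < κ i`, `i < χ⁺` -/
structure Blk where
  χ : Cardinal.{0}
  κs : Cardinal.{0}
  κ : (Order.succ χ).ord.ToType → Cardinal.{0}
  hχ : ℵ₀ ≤ χ
  hκs : IndestructiblySupercompact κs
  hχκ : χ < κs
  hκ : ∀ i, IndestructiblySupercompact (κ i)
  hsκ : ∀ i, κs < κ i
  mono : StrictMono κ

namespace Blk

variable (b : Blk)

abbrev Γ : Type := (Order.succ b.χ).ord.ToType

noncomputable def lam (i : b.Γ) : Cardinal.{0} := max b.κs (⨆ j : Set.Iio i, b.κ j)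

noncomputable def mu (i : b.Γ) : Cardinal.{0} := Order.succ (Order.succ (b.lam i))

noncomputable def top : Cardinal.{0} := ⨆ i, b.κ i

abbrev C (i : b.Γ) : Type := Lv (b.mu i) (b.κ i)

abbrev PC : Type := ∀ i, b.C i

theorem κs0 : ℵ₀ ≤ b.κs := (regular_of_supercompact b.hκs).1.aleph0_le

theorem κreg (i : b.Γ) : (b.κ i).IsRegular := (regular_of_supercompact (b.hκ i)).1

theorem κstr (i : b.Γ) : ∀ θ < b.κ i, 2 ^ θ < b.κ i := (regular_of_supercompact (b.hκ i)).2

theorem κ0 (i : b.Γ) : ℵ₀ ≤ b.κ i := (b.κreg i).aleph0_le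

theorem mk_Γ : #b.Γ = Order.succ b.χ := mk_ord_toType _

theorem succ_lt : Order.succ b.χ < b.κs := strong_lt b.hκs b.hχκ

theorem mk_Γ_lt : #b.Γ < b.κs := by rw [b.mk_Γ]; exact b.succ_lt

theorem exists_gt (i : b.Γ) : ∃ j, i < j := by
  have h : NoMaxOrder b.Γ := Cardinal.noMaxOrder (b.hχ.trans (Order.le_succ _))
  exact NoMaxOrder.exists_gt i

instance : Nonempty b.Γ := by
  rw [← mk_ne_zero_iff, b.mk_Γ]
  exact (aleph0_pos.trans_le (b.hχ.trans (Order.le_succ _))).ne'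

theorem κs_le_lam (i : b.Γ) : b.κs ≤ b.lam i := le_max_left _ _

theorem κ_le_lam {i j : b.Γ} (h : i < j) : b.κ i ≤ b.lam j :=
  (le_ciSup (f := fun i : Set.Iio j => b.κ i) (Cardinal.bddAbove_of_small) ⟨i, h⟩).trans
    (le_max_right _ _)

theorem lam_lt_mu (i : b.Γ) : b.lam i < b.mu i := (Order.lt_succ _).trans (Order.lt_succ _)

theorem lam_lt_κ (j : b.Γ) : b.lam j < b.κ j := by
  refine max_lt (b.hsκ j) ?_
  have h1 : #(Set.Iio j) < b.κ j :=
    (Cardinal.mk_Iio_toType_ord_lt j).trans (b.succ_lt.trans (b.hsκ j))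
  refine Cardinal.iSup_lt_of_isRegular (b.κreg j) h1 ?_
  intro i
  exact b.mono i.2

theorem mu_lt_κ (i : b.Γ) : b.mu i < b.κ i :=
  strong_lt (b.hκ i) (strong_lt (b.hκ i) (b.lam_lt_κ i))

theorem lam0 (i : b.Γ) : ℵ₀ ≤ b.lam i := b.κs0.trans (b.κs_le_lam i)

theorem mu_reg (i : b.Γ) : (b.mu i).IsRegular :=
  isRegular_succ ((b.lam0 i).trans (Order.le_succ _))

theorem succ_lam_lt_mu (i : b.Γ) : Order.succ (b.lam i) < b.mu i := Order.lt_succ _

theorem κ_lt_mu {i j : b.Γ} (h : i < j) : b.κ i < b.mu j := (b.κ_le_lam h).trans_lt (b.lam_lt_mu j)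

theorem κ_le_top (i : b.Γ) : b.κ i ≤ b.top := le_ciSup (Cardinal.bddAbove_of_small) i

theorem κ_lt_top (i : b.Γ) : b.κ i < b.top := by
  obtain ⟨j, hj⟩ := b.exists_gt i
  exact (b.mono hj).trans_le (b.κ_le_top j)

theorem exists_lt_κ {ν : Cardinal.{0}} (h : ν < b.top) : ∃ i, ν < b.κ i :=
  exists_lt_of_lt_ciSup h

theorem κs_lt_top : b.κs < b.top := (b.hsκ (Classical.arbitrary _)).trans (b.κ_lt_top _)

theorem top0 : ℵ₀ ≤ b.top := b.κs0.trans b.κs_lt_top.le

theorem top_strong {θ : Cardinal.{0}} (h : θ < b.top) : 2 ^ θ < b.top := by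
  obtain ⟨i, hi⟩ := b.exists_lt_κ h
  exact (b.κstr i θ hi).trans_le (b.κ_le_top i)

/-- heights -/
theorem exists_h : ∃ h : b.top.ord.ToType → b.Γ, ∀ i, #{m // h m ≤ i} ≤ b.κ i := by
  have h1 : ∀ m : b.top.ord.ToType, ∃ i, #(Set.Iio m) < b.κ i ∧ ∀ j < i, ¬ #(Set.Iio m) < b.κ j := by
    intro m
    obtain ⟨i, hi, hmin⟩ := WellFounded.has_min (wellFounded_lt (α := b.Γ))
      {i | #(Set.Iio m) < b.κ i} (b.exists_lt_κ (Cardinal.mk_Iio_toType_ord_lt m))
    exact ⟨i, hi, fun j hj h => hmin j h hj⟩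
  choose h hh _ using h1
  refine ⟨h, fun i => ?_⟩
  refine card_le_of_lt {m | h m ≤ i} (b.κ i) fun a ha => ?_
  refine lt_of_le_of_lt (mk_le_of_injective (f := fun m : {m // m ∈ {m | h m ≤ i} ∧ m < a} =>
    (⟨m.1, m.2.2⟩ : Set.Iio a)) ?_) ((hh a).trans_le (b.mono.monotone ha))
  intro m m' hm
  exact Subtype.ext (congrArg (fun z : Set.Iio a => z.1) hm)

theorem mk_Fn_le : #(Fn (Order.succ b.χ) b.top.ord.ToType) ≤ b.top := by
  classical
  obtain ⟨h, hh⟩ := b.exists_h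
  have hΓr : (Order.succ b.χ).IsRegular := isRegular_succ b.hχ
  have h1 : ∀ a : Fn (Order.succ b.χ) b.top.ord.ToType, ∃ i : b.Γ, ∀ j m, a.f j = some m →
      j < i ∧ h m < i := by
    intro a
    obtain ⟨i, hi⟩ := bdd_reg hΓr {j | a.f j ≠ none} a.small
    obtain ⟨i', hi'⟩ := bdd_reg hΓr (Set.range fun j : {j // a.f j ≠ none} =>
      h ((a.f j.1).get (Option.isSome_iff_ne_none.2 j.2))) (mk_range_le.trans_lt a.small)
    refine ⟨max i i', fun j m hm => ⟨?_, ?_⟩⟩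
    · exact (hi j (by show a.f j ≠ none; rw [hm]; simp)).trans_le (le_max_left _ _)
    · refine lt_of_lt_of_le (hi' _ ⟨⟨j, by rw [hm]; simp⟩, ?_⟩) (le_max_right _ _)
      simp [hm]
  have h2 : (Set.univ : Set (Fn (Order.succ b.χ) b.top.ord.ToType)) ⊆
      ⋃ i : b.Γ, {a | ∀ j m, a.f j = some m → j < i ∧ h m < i} := by
    intro a _
    obtain ⟨i, hi⟩ := h1 a
    exact mem_iUnion.2 ⟨i, hi⟩
  rw [← mk_univ]
  refine (mk_le_mk_of_subset h2).trans ((mk_iUnion_le _).trans ?_)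
  refine mul_le_of_le b.top0 (b.mk_Γ_lt.le.trans b.κs_lt_top.le) (ciSup_le' fun i => ?_)
  have h3 : #{a : Fn (Order.succ b.χ) b.top.ord.ToType | ∀ j m, a.f j = some m → j < i ∧ h m < i} ≤
      #(Set (b.Γ × {m // h m ≤ i})) := by
    refine mk_le_of_injective (f := fun a => {z | a.1.f z.1 = some z.2.1}) ?_
    intro a a' haa
    have key : ∀ a a' : {a : Fn (Order.succ b.χ) b.top.ord.ToType |
        ∀ j m, a.f j = some m → j < i ∧ h m < i},
        ({z | a.1.f z.1 = some z.2.1} : Set (b.Γ × {m // h m ≤ i})) =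
        {z | a'.1.f z.1 = some z.2.1} → ∀ j m, a.1.f j = some m → a'.1.f j = some m := by
      intro a a' haa j m hm
      have h4 : (⟨j, ⟨m, (a.2 j m hm).2.le⟩⟩ : b.Γ × {m // h m ≤ i}) ∈
          ({z | a.1.f z.1 = some z.2.1} : Set (b.Γ × {m // h m ≤ i})) := hm
      rw [haa] at h4
      exact h4
    apply Subtype.ext
    apply Pf.ext
    funext j
    rcases ha : a.1.f j with _ | m
    · rcases ha' : a'.1.f j with _ | m'
      · rfl
      · have := key a' a haa.symm j m' ha'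
        rw [ha] at this
        exact absurd this (by simp)
    · exact (key a a' haa j m ha).symm
  refine h3.trans ?_
  rw [mk_set, mkp]
  have h4 : #b.Γ * #{m // h m ≤ i} < b.top :=
    mul_lt_of_lt b.top0 (b.mk_Γ_lt.trans b.κs_lt_top) ((hh i).trans_lt (b.κ_lt_top i))
  exact (b.top_strong h4).le

theorem mk_C_le (i : b.Γ) : #(b.C i) ≤ b.κ i :=
  Lv.card_le (b.κreg i) (b.κstr i) (b.mu_lt_κ i)

/-- the initial parts of the product are small -/
theorem mk_PC_le (i : b.Γ) : #(∀ j : {j // j ≤ i}, b.C j.1) ≤ b.κ i := by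
  classical
  have h1 : #(∀ j : {j // j ≤ i}, b.C j.1) ≤ #((∀ j : {j // j < i}, b.C j.1) × b.C i) := by
    refine mk_le_of_injective (f := fun c => (fun j : {j // j < i} => c ⟨j.1, j.2.le⟩,
      c ⟨i, le_rfl⟩)) ?_
    intro c c' h
    funext j
    rcases eq_or_lt_of_le j.2 with h2 | h2
    · obtain ⟨j, hj⟩ := j
      have h2' : j = i := h2
      subst h2'
      exact congrArg Prod.snd h
    · exact congrFun (congrArg Prod.fst h) ⟨j.1, h2⟩
  refine h1.trans ?_
  rw [mkp]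
  refine mul_le_of_le (b.κ0 i) ?_ (b.mk_C_le i)
  rw [mk_pi]
  have h2 : prod (fun j : {j // j < i} => #(b.C j.1)) ≤ prod fun _ : {j // j < i} => b.lam i :=
    prod_le_prod _ _ fun j => (b.mk_C_le j.1).trans (b.κ_le_lam j.2)
  refine h2.trans ?_
  rw [prod_const']
  have h3 : b.lam i ^ #{j // j < i} ≤ 2 ^ (b.lam i * #{j // j < i}) := by
    rw [power_mul]
    exact power_le_power_right (cantor _).le
  refine h3.trans (b.κstr i _ ?_).le
  exact mul_lt_of_lt (b.κ0 i) (b.lam_lt_κ i)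
    ((Cardinal.mk_Iio_toType_ord_lt i).trans (b.succ_lt.trans (b.hsκ i)))

theorem mk_PC_le' : #b.PC ≤ Order.succ b.top := by
  rw [mk_pi]
  have h2 : prod (fun j : b.Γ => #(b.C j)) ≤ prod fun _ : b.Γ => Order.succ b.top :=
    prod_le_prod _ _ fun j => (b.mk_C_le j).trans ((b.κ_le_top j).trans (Order.le_succ _))
  refine h2.trans ?_
  rw [prod_const', b.mk_Γ]
  exact power_le_of_supercompact b.hκs (isRegular_succ b.top0)
    (b.κs_lt_top.le.trans (Order.le_succ _)) b.succ_lt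

end Blk

/-! ### Splitting products -/

/-- splitting a product of posets -/
def piSplit {I : Type} {F : I → Type} [∀ i, Preorder (F i)] (p : I → Prop) [DecidablePred p] :
    (∀ i, F i) ≃o (∀ i : {i // p i}, F i.1) × (∀ i : {i // ¬ p i}, F i.1) where
  toEquiv := Equiv.piEquivPiSubtypeProd p F
  map_rel_iff' := by
    intro a c
    constructor
    · intro h i
      by_cases hi : p i
      · exact h.1 ⟨i, hi⟩
      · exact h.2 ⟨i, hi⟩
    · intro h
      exact ⟨fun i => h i.1, fun i => h i.1⟩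

/-- splitting off one coordinate -/
def piSplit1 {I : Type} [DecidableEq I] {F : I → Type} [∀ i, Preorder (F i)] (i0 : I) :
    (∀ i, F i) ≃o F i0 × (∀ i : {i // i ≠ i0}, F i.1) where
  toFun c := (c i0, fun i => c i.1)
  invFun d := fun i => if h : i = i0 then h ▸ d.1 else d.2 ⟨i, h⟩
  left_inv := by
    intro c
    funext i
    by_cases h : i = i0
    · subst h
      simp
    · simp [h]
  right_inv := by
    intro d
    apply Prod.ext
    · simp
    · funext i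
      simp [i.2]
  map_rel_iff' := by
    intro a c
    constructor
    · intro h i
      by_cases hi : i = i0
      · subst hi
        exact h.1
      · exact h.2 ⟨i, hi⟩
    · intro h
      exact ⟨h i0, fun i => h i.1⟩

namespace Blk

variable (b : Blk)

theorem clo_C {i : b.Γ} {ν : Cardinal.{0}} (h : ν < b.mu i) : Clo ν (b.C i) :=
  DirClosed.clo (DirClosed.anti (Pf.dirClosed (b.mu_reg i)) (Order.succ_le_of_lt h))

theorem dirClosed_C (i : b.Γ) : DirClosed (Order.succ b.κs) (b.C i) :=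
  DirClosed.anti (Pf.dirClosed (b.mu_reg i))
    (Order.succ_le_of_lt ((b.κs_le_lam i).trans_lt (b.lam_lt_mu i)))

/-- covering at `κ i` -/
theorem cov_κ (i : b.Γ) {X Y : Type} [Preorder X] [Preorder Y] (hX : #X ≤ b.κ i)
    (hY : Clo (b.κ i) Y) : Cov (b.κ i) (X × (b.PC × Y)) := by
  classical
  have h1 : Cov (b.κ i) ((X × (∀ j : {j // j ≤ i}, b.C j.1)) ×
      ((∀ j : {j // ¬ j ≤ i}, b.C j.1) × Y)) := by
    refine Cov.prod (b.κ0 i) ?_ ((Clo.pi fun j => b.clo_C (b.κ_lt_mu (not_le.1 j.2))).prod hY)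
    rw [mkp]
    exact mul_le_of_le (b.κ0 i) hX (b.mk_PC_le i)
  let s := piSplit (F := b.C) (fun j => j ≤ i)
  refine h1.iso ⟨⟨fun p => ((p.1, (s p.2.1).1), ((s p.2.1).2, p.2.2)),
    fun q => (q.1.1, (s.symm (q.1.2, q.2.1), q.2.2)), ?_, ?_⟩, ?_⟩
  · intro p
    simp
  · intro q
    simp
  · intro p q
    have h2 : s p.2.1 ≤ s q.2.1 ↔ p.2.1 ≤ q.2.1 := s.le_iff_le
    constructor
    · intro h
      exact ⟨h.1.1, h2.1 ⟨h.1.2, h.2.1⟩, h.2.2⟩
    · intro h
      have h3 := h2.2 h.2.1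
      exact ⟨⟨h.1, h3.1⟩, h3.2, h.2.2⟩

/-- covering at the small supercompact cardinal -/
theorem cov_κs {X Y : Type} [Preorder X] [Preorder Y] (hX : #X ≤ b.κs)
    (hY : Clo b.κs Y) : Cov b.κs (X × (b.PC × Y)) :=
  Cov.prod b.κs0 hX ((Clo.pi fun j => b.clo_C ((b.κs_le_lam j).trans_lt (b.lam_lt_mu j))).prod hY)

/-- covering at the limit -/
theorem cov_top {X Y : Type} [Preorder X] [Preorder Y] (hX : #X ≤ b.κs)
    (hY : Clo b.top Y) : Cov b.top (X × (b.PC × Y)) := by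
  obtain ⟨h, hh⟩ := b.exists_h
  refine Cov.lim b.κ b.top0 (b.cov_κs hX (hY.anti b.κs_lt_top.le)) b.mk_Γ_lt.le b.κs_lt_top.le
    (fun i => b.cov_κ i (hX.trans (b.hsκ i).le) (hY.anti (b.κ_le_top i))) b.κ_le_top ?_
  intro A hA
  obtain ⟨f⟩ : #A ≤ #b.top.ord.ToType := by rw [mk_ord_toType]; exact hA
  refine ⟨fun a => h (f a), fun i => ?_⟩
  refine (mk_le_of_injective (f := fun a : {a // h (f a) = i} =>
    (⟨f a.1, a.2.le⟩ : {m // h m ≤ i})) ?_).trans (hh i)
  intro a a' haa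
  exact Subtype.ext (f.injective (congrArg (fun z : {m // h m ≤ i} => z.1) haa))

end Blk

end Run7.h888
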