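import Pool.Agent.Run7.h888.B2

/-!
# Pulling back branches
-/

set_option autoImplicit false

namespace Run7.h888

open Cardinal Set Pool.Agent.Helper669.Forcing Pool.Agent.Helper669.K Pool.Agent.R588.S

/-- replacing a coordinate -/
structure Coord {Z K : Type} [Preorder Z] [Preorder K] (pr : K → Z) (ω : Z → K → K) : Prop where
  pr_ω : ∀ z k, pr (ω z k) = z
  pr_mono : ∀ k k', k ≤ k' → pr k ≤ pr k'
  ω_mono : ∀ z z' k k', z ≤ z' → k ≤ k' → ω z k ≤ ω z' k'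
  ω_ω : ∀ z z' k, ω z' (ω z k) = ω z' k
  ω_pr : ∀ k, ω (pr k) k = k

theorem bl2 {χ : Cardinal.{0}} {X C Z K D D' N N' : Type} [Preorder X] [Preorder C] [Preorder Z]
    [Preorder K] [Preorder D] [Preorder D'] {pr : K → Z} {ω : Z → K → K} (hω : Coord pr ω)
    (hχ : ℵ₀ ≤ χ) (hχ2 : ∀ θ < χ, 2 ^ θ ≤ χ) (hX : #(X × C) ≤ Order.succ χ) (hN : #N ≤ χ)
    (hZ : Clo (Order.succ χ) Z) (hK : Clo (Order.succ χ) K) (hD : UpDir χ D)
    (hD' : ∀ a b : D', ∃ y, a ≤ y ∧ b ≤ y) (hcov : Cov χ ((X × C) × Z))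
    {R' : D → N → D → N → RO ((X × C) × Z)} {x0 : X} {c0 : C} {k0 : K}
    (hsys : Sys R' ((x0, c0), pr k0)) {g : D' → D} (hg : Monotone g)
    (hg' : ∀ y, ∃ y', y ≤ g y') (ι : N' → N) {Rl : D' → N' → D' → N' → RO (C × K)}
    (hRl : ∀ y ξ z ζ o, o ∈ Rl y ξ z ζ → ((x0, o.1), pr o.2) ∈ R' (g y) (ι ξ) (g z) (ι ζ))
    {br : D' → N' → RO (C × K)} (hbr : IsBr Rl (c0, k0) br) :
    ∃ p ≤ ((x0, c0), pr k0), ∃ br', IsBr R' p br' := by
  let F : Fibr Z K :=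
    { val := fun z k => ω z k ≤ k0
      le := fun z k' k => ω z k' ≤ ω z k
      val_mono := fun {z z' k} hz h => (hω.ω_mono z' z k k hz le_rfl).trans h
      le_mono := fun {z z' k k'} hz h => by
        rw [← hω.ω_ω z z' k', ← hω.ω_ω z z' k]
        exact hω.ω_mono z' z' _ _ le_rfl h
      rfl' := fun z k => le_rfl
      trans' := fun {z k k' k''} h h' => h.trans h' }
  have hF : FClo (Order.succ χ) F := by
    intro J _ _ hJ z k hval hle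
    obtain ⟨k', hk'⟩ := hK J hJ (fun j => ω z (k j)) hle
    have h1 : ∀ j, ω z k' ≤ ω z (k j) := by
      intro j
      have h2 := hω.ω_mono z z _ _ le_rfl (hk' j)
      rw [hω.ω_ω] at h2
      exact h2
    exact ⟨k', (h1 (Classical.arbitrary J)).trans (hval _), h1⟩
  -- extending conditions
  have hext : ∀ (b : X × C) (z : Z) (k : K), (b.2, ω z k) ≤ (c0, k0) → ∀ o, o ≤ (b.2, ω z k) →
      ((b.1, o.1), pr o.2) ≤ (b, z) := by
    intro b z k _ o ho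
    refine ⟨⟨le_rfl, ho.1⟩, ?_⟩
    have h1 := hω.pr_mono _ _ ho.2
    rw [hω.pr_ω] at h1
    exact h1
  let A : Abl (X × C) Z K D N Unit :=
    { F := F
      Dec := fun _ b z k y ξ => b.1 ≤ x0 ∧ (b.2, ω z k) ≤ (c0, k0) ∧ ∃ y' ξ', y ≤ g y' ∧
        (b.2, ω z k) ∈ br y' ξ' ∧ (b, z) ∈ R' y ξ (g y') (ι ξ')
      R := fun _ => R'
      dec_mono := by
        rintro j b b' z z' k k' y ξ hb hz hk ⟨h1, h2, y', ξ', h3, h4, h5⟩
        have h6 : (b'.2, ω z' k') ≤ (b.2, ω z k) :=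
          ⟨hb.2, le_trans hk (hω.ω_mono z' z k k hz le_rfl)⟩
        exact ⟨hb.1.trans h1, h6.trans h2, y', ξ', h3, RO.dn h4 h6, RO.dn h5 ⟨hb, hz⟩⟩
      coh := by
        rintro j b z k y1 y2 ξ1 ξ2 hval hy ⟨g1, g2, y1', ξ1', g3, g4, g5⟩
          ⟨_, _, y2', ξ2', g6, g7, g8⟩
        refine RO.rg fun q hq => ?_
        have hq1 : q.1 ≤ b := hq.1
        have hqz : q.2 ≤ z := hq.2
        have ho : (q.1.2, ω q.2 k) ≤ (b.2, ω z k) := ⟨hq1.2, hω.ω_mono _ _ _ _ hqz le_rfl⟩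
        obtain ⟨w, hw1, hw2⟩ := hD' y1' y2'
        obtain ⟨o, ho1, w', hw', ζ, hζ⟩ := hbr.1 w (q.1.2, ω q.2 k) (ho.trans g2)
        have e1 := hRl _ _ _ _ _ (hbr.2 y1' w' ξ1' ζ (hw1.trans hw') o (ho1.trans (ho.trans g2))
          (RO.dn g4 (ho1.trans ho)) hζ)
        have e2 := hRl _ _ _ _ _ (hbr.2 y2' w' ξ2' ζ (hw2.trans hw') o (ho1.trans (ho.trans g2))
          (RO.dn g7 (ho1.trans ho)) hζ)
        have h1 := hext q.1 q.2 k (ho.trans g2) o ho1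
        have h2 : ((q.1.1, o.1), pr o.2) ≤ ((x0, o.1), pr o.2) :=
          ⟨⟨hq1.1.trans g1, le_rfl⟩, le_rfl⟩
        have h3 : ((q.1.1, o.1), pr o.2) ≤ q := h1
        refine ⟨((q.1.1, o.1), pr o.2), h3, ?_⟩
        have h4 := hsys.s3 y1 (g y1') (g w') ξ1 (ι ξ1') (ι ζ) _ g3 (hg (hw1.trans hw'))
          (RO.dn g5 (h3.trans hq)) (RO.dn e1 h2)
        have h5 := hsys.s3 y2 (g y2') (g w') ξ2 (ι ξ2') (ι ζ) _ g6 (hg (hw2.trans hw'))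
          (RO.dn g8 (h3.trans hq)) (RO.dn e2 h2)
        exact hsys.s2 y1 y2 (g w') ξ1 ξ2 (ι ζ) _ hy (g6.trans (hg (hw2.trans hw'))) h4 h5
      tri := fun {p j y y' w ξ ξ' ζ} h1 h2 h3 h4 => hsys.s2 y y' w ξ ξ' ζ p h1 h2 h3 h4 }
  obtain ⟨_, p, hp, br', hbr'⟩ := A.branch2 hχ hχ2 hX hN (by
      rw [mk_unit]
      exact one_lt_aleph0.le.trans hχ) hZ hF hD hcov (b0 := (x0, c0)) (z0 := pr k0) (k0 := k0)
    (by
      show ω (pr k0) k0 ≤ k0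
      rw [hω.ω_pr]) (by
      intro y p hp
      refine ⟨p, le_rfl, y, le_rfl, fun b hb z hz k hval => ?_⟩
      have hpb : p.1 ≤ (x0, c0) := hp.1
      have hb0 : b ≤ (x0, c0) := hb.trans hpb
      have ho : (b.2, ω z k) ≤ (c0, k0) := ⟨hb0.2, hval⟩
      obtain ⟨y', hy'⟩ := hg' y
      obtain ⟨o, ho1, w, hw, ζ, hζ⟩ := hbr.1 y' (b.2, ω z k) ho
      have e1 := hRl _ _ _ _ _ (hbr.2 w w ζ ζ le_rfl o (ho1.trans ho) hζ hζ)
      have h1 := hext b z k ho o ho1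
      have h2 : ((b.1, o.1), pr o.2) ≤ ((x0, o.1), pr o.2) := ⟨⟨hb0.1, le_rfl⟩, le_rfl⟩
      have h3 : ((b.1, o.1), pr o.2) ≤ ((x0, c0), pr k0) :=
        ⟨⟨hb0.1, ho1.1.trans ho.1⟩, hω.pr_mono _ _ (ho1.trans ho).2⟩
      obtain ⟨r, hr, ξ, hξ⟩ := hsys.s1 y (g w) (hy'.trans (hg hw)) (ι ζ) _ h3 (RO.dn e1 h2)
      have hrz : r.2 ≤ pr o.2 := hr.2
      have h4 : (r.1.2, ω r.2 o.2) ≤ o := by
        refine ⟨hr.1.2, ?_⟩
        have h5 := hω.ω_mono r.2 (pr o.2) o.2 o.2 hrz le_rfl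
        rw [hω.ω_pr] at h5
        exact h5
      refine ⟨r.1, hr.1.trans h1.1, r.2, hr.2.trans h1.2, o.2, ?_, ?_, (), ξ, hr.1.1.trans hb0.1,
        h4.trans (ho1.trans ho), w, ζ, hy'.trans (hg hw), RO.dn hζ h4, hξ⟩
      · exact h4.2.trans (ho1.2.trans ho.2)
      · show ω r.2 o.2 ≤ ω r.2 k
        have h5 := hω.ω_mono r.2 r.2 o.2 (ω z k) le_rfl ho1.2
        rw [hω.ω_ω] at h5
        exact h5)
  exact ⟨p, hp, br', hbr'⟩

end Run7.h888
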