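import Pool.Agent.Run7.h888.B3

/-!
# The main lemma on blocks
-/

set_option autoImplicit false

namespace Run7.h888

open Cardinal Set Pool.Agent.Helper669.Forcing Pool.Agent.Helper669.K Pool.Agent.R588.S

/-- the name of the value at `α` of the generic function -/
noncomputable def genNm {θ : Cardinal.{0}} (hθ : ℵ₀ ≤ θ) {D O1 : Type} [Preorder O1] [Nonempty D]
    (α : θ.ord.ToType) : Nm (O1 × Fn θ D) D where
  v y := cl {o | o.2.f α = some y}
  tot := by
    intro o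
    rcases h : o.2.f α with _ | y
    · obtain ⟨d, hd, hd'⟩ := Pf.exists_insert hθ o.2 α (Classical.arbitrary D) h trivial
      exact ⟨(o.1, d), ⟨le_rfl, hd⟩, Classical.arbitrary D, meets_of_mem hd'⟩
    · exact ⟨o, le_rfl, y, meets_of_mem h⟩
  fn := by
    intro o y y' h h'
    obtain ⟨r, hr, s, hs, hrs⟩ := h o le_rfl
    obtain ⟨r', hr', s', hs', hrs'⟩ := h' r hr
    have h1 : r'.2.f α = some y := (hr'.trans hrs).2 α y hs
    have h2 : r'.2.f α = some y' := hrs'.2 α y' hs'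
    rw [h1] at h2
    exact Option.some.inj h2

theorem genNm_onto {θ : Cardinal.{0}} (hθ : ℵ₀ ≤ θ) {D O1 : Type} [Preorder O1] [Nonempty D]
    (y : D) (o : O1 × Fn θ D) : ∃ o' ≤ o, ∃ α, o' ∈ (genNm (O1 := O1) hθ α).v y := by
  have h1 : ∃ α, o.2.f α = none := by
    by_contra hcon
    push Not at hcon
    have h2 := o.2.small
    have h3 : #θ.ord.ToType ≤ #{x // o.2.f x ≠ none} :=
      mk_le_of_injective (f := fun α => (⟨α, hcon α⟩ : {x // o.2.f x ≠ none}))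
        fun a b h => congrArg (fun z : {x // o.2.f x ≠ none} => z.1) h
    rw [mk_ord_toType] at h3
    exact absurd h2 (not_lt.2 h3)
  obtain ⟨α, hα⟩ := h1
  obtain ⟨d, hd, hd'⟩ := Pf.exists_insert hθ o.2 α y hα trivial
  exact ⟨(o.1, d), ⟨le_rfl, hd⟩, α, meets_of_mem hd'⟩

namespace Blk

variable (b : Blk)

abbrev Tt : Type := b.κs.ord.ToType

/-- the forcing of the block, with the parameter `t` -/
abbrev P (t : b.Tt) : Type := (AA b.χ t × LL b.χ t) × b.PC

theorem mk_AA_lt (t : b.Tt) : #(AA b.χ t) < b.κs := by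
  refine Pf.card_le.trans_lt ?_
  rw [mk_ord_toType]
  have h1 : #(Set.Iio t) + 1 < b.κs := add_lt_of_lt b.κs0 (Cardinal.mk_Iio_toType_ord_lt t)
    (one_lt_aleph0.trans_le b.κs0)
  have h2 : (#(Set.Iio t) + 1) ^ Order.succ b.χ ≤ 2 ^ ((#(Set.Iio t) + 1) * Order.succ b.χ) := by
    rw [power_mul]
    exact power_le_power_right (cantor _).le
  exact h2.trans_lt ((regular_of_supercompact b.hκs).2 _ (mul_lt_of_lt b.κs0 h1 b.succ_lt))

theorem mk_LL_le (t : b.Tt) : #(LL b.χ t) ≤ b.κs :=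
  Lv.card_le (regular_of_supercompact b.hκs).1 (regular_of_supercompact b.hκs).2
    (sg_lt b.hκs b.hχκ t)

/-- a counterexample -/
structure Bad (S : Type) [Preorder S] (t : b.Tt) where
  Q : Type
  iQ : Preorder Q
  hQ : DirClosed (Order.succ (Order.succ b.top)) Q
  D : Type
  iD : Preorder D
  hD : UpDir b.top D
  R : D → b.top.ord.ToType → D → b.top.ord.ToType → RO (S × (b.P t × Q))
  p : S × (b.P t × Q)
  hs : Sys R p
  nb : ∀ q ≤ p, ∀ br, ¬ IsBr R q br

/-- **The main lemma.** -/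
theorem main {S : Type} [Preorder S] (hS : #S ≤ b.χ) :
    ∃ (t : b.Tt) (c : b.PC), ∀ (Q : Type) [Preorder Q],
      DirClosed (Order.succ (Order.succ b.top)) Q → ∀ (D : Type) [Preorder D], UpDir b.top D →
      ∀ (R : D → b.top.ord.ToType → D → b.top.ord.ToType → RO (S × (b.P t × Q))) (p),
        p.2.1.2 ≤ c → Sys R p → ∃ q ≤ p, ∃ br, IsBr R q br := by
  classical
  by_contra hcon
  have hbad : ∀ (t : b.Tt) (c : b.PC), ∃ B : b.Bad S t, B.p.2.1.2 ≤ c := by
    intro t c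
    by_contra h1
    refine hcon ⟨t, c, ?_⟩
    intro Q iQ hQ D iD hD R p hp hs
    by_contra h2
    push Not at h2
    exact h1 ⟨⟨Q, iQ, hQ, D, iD, hD, R, p, hs, h2⟩, hp⟩
  have hsuc0 : ℵ₀ ≤ Order.succ (Order.succ b.top) :=
    b.top0.trans ((Order.le_succ _).trans (Order.le_succ _))
  have hκsuc : Order.succ b.κs ≤ Order.succ (Order.succ b.top) :=
    (Order.succ_le_succ b.κs_lt_top.le).trans (Order.le_succ _)
  have htop : Order.succ b.top ≤ Order.succ (Order.succ b.top) := Order.le_succ _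
  -- the common condition
  have hPCclo : Clo b.κs b.PC :=
    Clo.pi fun j => b.clo_C ((b.κs_le_lam j).trans_lt (b.lam_lt_mu j))
  have hmuκs0 : ∀ i, 0 < b.mu i := fun i => (b.mu_reg i).pos
  obtain ⟨c0, _, hc0⟩ := hPCclo.dist (A := b.Tt) (by rw [mk_ord_toType])
    (fun t c => ∃ B : b.Bad S t, c ≤ B.p.2.1.2) (by
      rintro t c c' hc ⟨B, hB⟩
      exact ⟨B, hc.trans hB⟩) (fun i => Pf.top (hmuκs0 i)) (by
      intro t c _
      obtain ⟨B, hB⟩ := hbad t c
      exact ⟨B.p.2.1.2, hB, B, le_rfl⟩)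
  choose B hB using hc0
  letI iQ : ∀ t, Preorder (B t).Q := fun t => (B t).iQ
  letI iD : ∀ t, Preorder (B t).D := fun t => (B t).iD
  have hneD : Nonempty (∀ t, (B t).D) := by
    refine ⟨fun t => ?_⟩
    exact ((B t).hD PEmpty (fun a => a.elim) (by simp)).choose
  have hD : UpDir b.top (∀ t, (B t).D) := by
    intro A w hA
    choose y hy using fun t => (B t).hD A (fun a => w a t) hA
    exact ⟨y, fun a t => hy t a⟩
  -- the forcing
  let Kk : Type := (∀ t, (B t).Q) × Fn (Order.succ (Order.succ b.top)) (∀ t, (B t).D)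
  letI : Preorder Kk := inferInstanceAs (Preorder ((∀ t, (B t).Q) ×
    Fn (Order.succ (Order.succ b.top)) (∀ t, (B t).D)))
  let k0 : Kk := (fun t => (B t).p.2.2, Pf.top (aleph0_pos.trans_le hsuc0))
  have hKdir : DirClosed (Order.succ (Order.succ b.top)) Kk :=
    DirClosed.prod (DirClosed.pi fun t => (B t).hQ)
      (Pf.dirClosed (isRegular_succ (b.top0.trans (Order.le_succ _))))
  let O : Type := b.PC × Kk
  letI : Preorder O := inferInstanceAs (Preorder (b.PC × Kk))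
  have hO : DirClosed (Order.succ b.κs) O :=
    DirClosed.prod (DirClosed.pi fun i => b.dirClosed_C i) (DirClosed.anti hKdir hκsuc)
  let o0 : O := (c0, k0)
  -- the projections
  let π : ∀ t, (S × AA b.χ t) × (LL b.χ t × O) → S × (b.P t × (B t).Q) := fun t p =>
    (p.1.1, (((p.1.2, p.2.1), p.2.2.1), p.2.2.2.1 t))
  have hπ : ∀ t, Prj (π t) := by
    intro t
    refine ⟨fun p q h => ⟨h.1.1, ⟨⟨h.1.2, h.2.1⟩, h.2.2.1⟩, h.2.2.2.1 t⟩, ?_⟩
    intro p' p hp
    refine ⟨((p.1, p.2.1.1.1), (p.2.1.1.2, (p.2.1.2,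
      (Function.update p'.2.2.2.1 t p.2.2, p'.2.2.2.2)))), ?_, ?_⟩
    · refine ⟨⟨hp.1, hp.2.1.1.1⟩, hp.2.1.1.2, hp.2.1.2, ?_, le_rfl⟩
      intro t'
      by_cases ht : t' = t
      · subst ht
        show Function.update p'.2.2.2.1 t' p.2.2 t' ≤ _
        rw [Function.update_self]
        exact hp.2.2
      · show Function.update p'.2.2.2.1 t p.2.2 t' ≤ _
        rw [Function.update_of_ne ht]
    · refine ⟨le_rfl, ⟨⟨le_rfl, le_rfl⟩, le_rfl⟩, ?_⟩
      show Function.update p'.2.2.2.1 t p.2.2 t ≤ _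
      rw [Function.update_self]
  let rel : ∀ t : b.Tt, (∀ t, (B t).D) → b.top.ord.ToType → (∀ t, (B t).D) → b.top.ord.ToType →
      RO ((S × AA b.χ t) × (LL b.χ t × O)) := fun t y ξ z ζ =>
    (hπ t).pb ((B t).R (y t) ξ (z t) ζ)
  let bs : ∀ t : b.Tt, S × AA b.χ t := fun t => ((B t).p.1, (B t).p.2.1.1.1)
  let ls : ∀ t : b.Tt, LL b.χ t := fun t => (B t).p.2.1.1.2
  have hbase : ∀ t, π t (bs t, (ls t, o0)) ≤ (B t).p := fun t =>
    ⟨le_rfl, ⟨⟨le_rfl, le_rfl⟩, hB t⟩, le_rfl⟩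
  have hsys : ∀ t, Sys (rel t) (bs t, (ls t, o0)) := by
    intro t
    have h1 : Sys (fun (y : ∀ t, (B t).D) ξ (z : ∀ t, (B t).D) ζ => (B t).R (y t) ξ (z t) ζ)
        (π t (bs t, (ls t, o0))) :=
      ((B t).hs.mono (hbase t)).comp (g := fun y : ∀ t, (B t).D => y t) fun y z h => h t
    exact (hπ t).sys h1
  obtain ⟨h, hh⟩ := b.exists_h
  have hKtop : Clo (Order.succ b.top) Kk := DirClosed.clo hKdir
  have hcovO : Cov b.top O := by
    have h1 : Cov b.top (Unit × (b.PC × Kk)) := b.cov_top (by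
      rw [mk_unit]
      exact one_lt_aleph0.le.trans b.κs0) (hKtop.anti (Order.le_succ _))
    refine h1.iso ⟨⟨fun p => ((), p), fun q => q.2, fun _ => rfl, fun _ => rfl⟩, ?_⟩
    intro p q
    constructor
    · intro h
      exact h.2
    · intro h
      exact ⟨le_rfl, h⟩
  have hSκ : #S < b.κs := hS.trans_lt b.hχκ
  obtain ⟨o, ho, i, mI, hcof, hrel⟩ := step1 b.hχ b.hκs b.hχκ b.κs_lt_top.le hO hcovO hSκ hD h
    b.mk_Fn_le rel bs ls o0 hsys
    (fun α => (⟨fun y => (Prj.iso (⟨⟨fun p => ((p.1, p.2.1), p.2.2),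
      fun q => (q.1.1, (q.1.2, q.2)), fun _ => rfl, fun _ => rfl⟩, by
        intro p q
        constructor
        · intro h
          exact ⟨h.1.1, h.1.2, h.2⟩
        · intro h
          exact ⟨⟨h.1, h.2.1⟩, h.2.2⟩⟩ : O ≃o (b.PC × (∀ t, (B t).Q)) ×
            Fn (Order.succ (Order.succ b.top)) (∀ t, (B t).D))).pb
        ((genNm (O1 := b.PC × (∀ t, (B t).Q)) hsuc0 α).v y), by
        intro p
        obtain ⟨q, hq, y, hy⟩ := (genNm (O1 := b.PC × (∀ t, (B t).Q)) (D := ∀ t, (B t).D)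
          hsuc0 α).tot ((p.1, p.2.1), p.2.2)
        exact ⟨(q.1.1, (q.1.2, q.2)), ⟨hq.1.1, hq.1.2, hq.2⟩, y, hy⟩, by
        intro p y y' h h'
        exact (genNm (O1 := b.PC × (∀ t, (B t).Q)) (D := ∀ t, (B t).D) hsuc0 α).fn
          ((p.1, p.2.1), p.2.2) y y' h h'⟩ : Nm O (∀ t, (B t).D)))
    (by
      intro y o
      obtain ⟨q, hq, α, hα⟩ := genNm_onto (O1 := b.PC × (∀ t, (B t).Q)) hsuc0 y
        ((o.1, o.2.1), o.2.2)
      exact ⟨(q.1.1, (q.1.2, q.2)), ⟨hq.1.1, hq.1.2, hq.2⟩, α, hα⟩)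
  -- the second step
  obtain ⟨i', hi', himin⟩ := WellFounded.has_min (wellFounded_lt (α := b.Γ)) {j | i < j}
    (b.exists_gt i)
  have hi1 : i < i' := hi'
  have hi2 : ∀ j, ¬ j ≤ i → j ≠ i' → i' < j := by
    intro j h1 h2
    rcases lt_or_ge i' j with h3 | h3
    · exact h3
    · exact absurd (lt_of_le_of_ne h3 h2) (himin j (not_le.1 h1))
  let N : Type := {ξ : b.top.ord.ToType // h ξ = i}
  let E : Type := {e : Σ t : b.Tt, (S × AA b.χ t) × LL b.χ t // e.2.1 ≤ bs e.1 ∧ e.2.2 ≤ ls e.1}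
  have hNc : #N ≤ b.κ i :=
    (mk_le_of_injective (f := fun ξ : N => (⟨ξ.1, ξ.2.le⟩ : {m // h m ≤ i}))
      fun a c hac => Subtype.ext (congrArg (fun z : {m // h m ≤ i} => z.1) hac)).trans (hh i)
  have hXc : ∀ t : b.Tt, #((S × AA b.χ t) × LL b.χ t) ≤ b.κs := by
    intro t
    rw [mkp, mkp]
    exact mul_le_of_le b.κs0 (mul_le_of_le b.κs0 hSκ.le (b.mk_AA_lt t).le) (b.mk_LL_le t)
  have hEc : #E ≤ b.κ i := by
    refine (mk_subtype_le _).trans ?_
    rw [mk_sigma]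
    refine (sum_le_mk_mul_iSup _).trans ?_
    rw [mk_ord_toType]
    exact mul_le_of_le (b.κ0 i) (b.hsκ i).le (ciSup_le' fun t => (hXc t).trans (b.hsκ i).le)
  let Bp : Type := ∀ j : {j // j ≤ i}, b.C j.1
  letI : Preorder Bp := inferInstanceAs (Preorder (∀ j : {j // j ≤ i}, b.C j.1))
  let i0 : {j // ¬ j ≤ i} := ⟨i', not_le.2 hi1⟩
  let Rr : Type := (∀ j : {j : {j // ¬ j ≤ i} // j ≠ i0}, b.C j.1.1) × Kk
  letI : Preorder Rr := inferInstanceAs
    (Preorder ((∀ j : {j : {j // ¬ j ≤ i} // j ≠ i0}, b.C j.1.1) × Kk))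
  let s1 := piSplit (F := b.C) (fun j => j ≤ i)
  let s2 := piSplit1 (F := fun j : {j // ¬ j ≤ i} => b.C j.1) i0
  let eO : O ≃o Bp × (Lv (b.mu i') (b.κ i') × Rr) :=
    ⟨⟨fun p => ((s1 p.1).1, ((s2 (s1 p.1).2).1, ((s2 (s1 p.1).2).2, p.2))),
      fun q => (s1.symm (q.1, s2.symm (q.2.1, q.2.2.1)), q.2.2.2), by
        intro p
        simp, by
        intro q
        simp⟩, by
      intro p q
      have g1 : s1 p.1 ≤ s1 q.1 ↔ p.1 ≤ q.1 := s1.le_iff_le
      have g2 : s2 (s1 p.1).2 ≤ s2 (s1 q.1).2 ↔ (s1 p.1).2 ≤ (s1 q.1).2 := s2.le_iff_le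
      constructor
      · intro h
        exact ⟨g1.1 ⟨h.1, g2.1 ⟨h.2.1, h.2.2.1⟩⟩, h.2.2.2⟩
      · intro h
        have g3 := g1.2 h.1
        have g4 := g2.2 g3.2
        exact ⟨g3.1, g4.1, g4.2, h.2⟩⟩
  have hRr : DirClosed (Order.succ (b.κ i')) Rr := by
    refine DirClosed.prod (DirClosed.pi fun j => ?_) (DirClosed.anti hKdir
      ((Order.succ_le_succ (b.κ_le_top i')).trans (Order.le_succ _)))
    refine DirClosed.anti (Pf.dirClosed (b.mu_reg j.1.1)) (Order.succ_le_of_lt (b.κ_lt_mu ?_))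
    refine hi2 _ j.1.2 ?_
    intro h1
    exact j.2 (Subtype.ext h1)
  let eO' := eO.symm
  let Rl : E → (∀ t, (B t).D) → N → (∀ t, (B t).D) → N → RO O := fun e y ξ z ζ =>
    secR (rel e.1.1 y ξ.1 z ζ.1) e.1.2.1 e.1.2.2
  obtain ⟨e, p, hp, br, hbr⟩ := step2 (χ := b.κ i) (mu := b.mu i') (κ := b.κ i') (b.κ0 i)
    (b.mu_reg i')
    ((Order.succ_le_succ (b.κ_le_lam hi1)).trans_lt (b.succ_lam_lt_mu i')) (b.hκ i')
    (b.mu_lt_κ i') (b.mk_PC_le i) hEc hNc hRr (fun A w hA => hD A w (hA.trans (b.κ_le_top i')))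
    (fun e y ξ z ζ => (Prj.iso eO').pb (Rl e y ξ z ζ))
    (fun {p e y y' w ξ ξ' ζ} hy hy' h1 h2 => (hsys e.1.1).s2 y y' w ξ.1 ξ'.1 ζ.1 _ hy hy' h1 h2)
    (fun y => (Prj.iso eO').pb (mI y)) (eO o) (by
      intro y q hq
      have hq' : eO' q ≤ o := by
        rw [← eO.le_iff_le]
        exact (eO.apply_symm_apply q).le.trans hq
      obtain ⟨r, hr, y', hy', h1⟩ := hcof y (eO' q) hq'
      refine ⟨eO r, ?_, y', hy', ?_⟩
      · exact (eO.monotone hr).trans (eO.apply_symm_apply q).le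
      · show eO' (eO r) ∈ mI y'
        rw [show eO' (eO r) = r from eO.symm_apply_apply r]
        exact h1) (by
      intro y y' hy q hq h1 h2 q2 hq2
      have hq' : eO' q2 ≤ o := by
        rw [← eO.le_iff_le]
        exact (eO.apply_symm_apply q2).le.trans (hq2.trans hq)
      have hqq : eO' q2 ≤ eO' q := eO'.monotone hq2
      obtain ⟨r, hr, t, b', l, ξ, ξ', g1, g2, g3, g4, g5⟩ := hrel y y' hy (eO' q2) hq'
        (RO.dn (show eO' q ∈ mI y from h1) hqq) (RO.dn (show eO' q ∈ mI y' from h2) hqq)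
      refine ⟨eO r, (eO.monotone hr).trans (eO.apply_symm_apply q2).le,
        (⟨⟨t, (b', l)⟩, g1, g2⟩, ⟨ξ, g3⟩, ⟨ξ', g4⟩), ?_⟩
      show eO' (eO r) ∈ Rl _ y _ y' _
      rw [show eO' (eO r) = r from eO.symm_apply_apply r]
      exact g5)
  have hbr2 := isBr_iso eO' (R := Rl e) hbr
  obtain ⟨⟨t, x1, x2⟩, hx1, hx2⟩ := e
  -- the pull-back
  have ho1 : eO' p ≤ o := by
    rw [← eO.le_iff_le]
    exact (eO.apply_symm_apply p).le.trans hp
  let iX : ((((S × AA b.χ t) × LL b.χ t) × b.PC) × (B t).Q) ≃o S × (b.P t × (B t).Q) :=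
    ⟨⟨fun p => (p.1.1.1.1, (((p.1.1.1.2, p.1.1.2), p.1.2), p.2)),
      fun q => ((((q.1, q.2.1.1.1), q.2.1.1.2), q.2.1.2), q.2.2), fun _ => rfl, fun _ => rfl⟩, by
      intro p q
      constructor
      · intro h
        exact ⟨⟨⟨⟨h.1, h.2.1.1.1⟩, h.2.1.1.2⟩, h.2.1.2⟩, h.2.2⟩
      · intro h
        exact ⟨h.1.1.1.1, ⟨⟨h.1.1.1.2, h.1.1.2⟩, h.1.2⟩, h.2⟩⟩
  let ω : (B t).Q → Kk → Kk := fun z k => (Function.update k.1 t z, k.2)
  have hω : Coord (fun k : Kk => k.1 t) ω := by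
    refine ⟨fun z k => Function.update_self _ _ _, fun k k' h => h.1 t, ?_, ?_, ?_⟩
    · intro z z' k k' hz hk
      refine ⟨fun t' => ?_, hk.2⟩
      by_cases ht : t' = t
      · subst ht
        show Function.update k.1 t' z t' ≤ Function.update k'.1 t' z' t'
        rw [Function.update_self, Function.update_self]
        exact hz
      · show Function.update k.1 t z t' ≤ Function.update k'.1 t z' t'
        rw [Function.update_of_ne ht, Function.update_of_ne ht]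
        exact hk.1 t'
    · intro z z' k
      show (Function.update (Function.update k.1 t z) t z', k.2) = _
      rw [Function.update_idem]
    · intro k
      show (Function.update k.1 t (k.1 t), k.2) = _
      rw [Function.update_eq_self]
  have hsysX : Sys (fun y ξ z ζ => (Prj.iso iX).pb ((B t).R y ξ z ζ))
      ((((x1, x2) : (S × AA b.χ t) × LL b.χ t), (eO' p).1), ((eO' p).2).1 t) := by
    refine (Prj.iso iX).sys ((B t).hs.mono ?_)
    have g1 : (eO' p).1 ≤ c0 := (ho1.trans ho).1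
    have g2 : ((eO' p).2).1 t ≤ (B t).p.2.2 := (ho1.trans ho).2.1 t
    exact ⟨hx1.1, ⟨⟨hx1.2, hx2⟩, g1.trans (hB t)⟩, g2⟩
  obtain ⟨q, hq, br', hbr'⟩ := bl2 (χ := b.top) (X := (S × AA b.χ t) × LL b.χ t) (C := b.PC)
    (Z := (B t).Q) (K := Kk) (D := (B t).D) (D' := ∀ t, (B t).D) (N := b.top.ord.ToType) (N' := N)
    hω b.top0 (fun θ hθ => (b.top_strong hθ).le) (by
      rw [mkp]
      exact mul_le_of_le (b.top0.trans (Order.le_succ _))
        ((hXc t).trans (b.κs_lt_top.le.trans (Order.le_succ _))) b.mk_PC_le')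
    (by rw [mk_ord_toType]) (DirClosed.clo (B t).hQ) hKtop (B t).hD (hD.two b.top0) (by
      refine (b.cov_top (X := (S × AA b.χ t) × LL b.χ t) (Y := (B t).Q) (hXc t)
        ((DirClosed.clo (B t).hQ).anti (Order.le_succ _))).iso
        ⟨⟨fun p => (p.1.1, (p.1.2, p.2)), fun q => ((q.1, q.2.1), q.2.2), fun _ => rfl,
          fun _ => rfl⟩, ?_⟩
      intro p q
      constructor
      · intro h
        exact ⟨⟨h.1, h.2.1⟩, h.2.2⟩
      · intro h
        exact ⟨h.1.1, h.1.2, h.2⟩) hsysX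
    (g := fun y => y t) (fun y z h => h t) (by
      intro y
      obtain ⟨d⟩ := hneD
      refine ⟨Function.update d t y, ?_⟩
      show y ≤ Function.update d t y t
      rw [Function.update_self]) (fun ξ => ξ.1)
    (Rl := fun y ξ z ζ => Rl ⟨⟨t, x1, x2⟩, hx1, hx2⟩ y ξ z ζ) (fun y ξ z ζ o h => h) hbr2
  have hfin := isBr_iso iX (R := (B t).R) hbr'
  refine (B t).nb (iX q) ?_ _ hfin
  have g1 : iX q ≤ iX _ := iX.monotone hq
  refine g1.trans ?_
  have g2 : (eO' p).1 ≤ c0 := (ho1.trans ho).1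
  have g3 : ((eO' p).2).1 t ≤ (B t).p.2.2 := (ho1.trans ho).2.1 t
  exact ⟨hx1.1, ⟨⟨hx1.2, hx2⟩, g2.trans (hB t)⟩, g3⟩

end Blk

end Run7.h888
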