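import Pool.Agent.Run7.h888.A8

/-!
# Cardinals of the extension
-/

set_option autoImplicit false

namespace Run7.h888

open Cardinal Set Pool.Agent.Helper669.Forcing Pool.Agent.Helper669.K Pool.Agent.R588.S

section

variable {P : Type} [Preorder P]

/-- the range of a named function is covered by a small set -/
theorem Cov.cover_range {θ : Cardinal.{0}} (h : Cov θ P) (hθ : ℵ₀ ≤ θ) {A Y : Type} (hA : #A ≤ θ)
    {f : A → Y → RO P} {p : P} (hf : p ∈ FunN f) :
    ∃ q ≤ p, ∃ W : Set Y, #W ≤ θ ∧ ∀ x y, ∀ r ≤ q, r ∈ f x y → y ∈ W := by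
  obtain ⟨q, hq, Z, hZ, hcov⟩ := h A (Option Y)
    (fun x v r => match v with
      | some y => r ∈ f x y
      | none => r ∈ neg (ex fun y => f x y)) hA (by
      intro x v p q hq h1
      cases v with
      | none => exact RO.dn (φ := neg (ex fun y => f x y)) h1 hq
      | some y => exact RO.dn (φ := f x y) h1 hq) p (by
      intro x q _
      obtain ⟨r, hr, h1 | h1⟩ := em (ex fun y => f x y) q
      · obtain ⟨r', hr', y, hy⟩ := h1 r le_rfl
        exact ⟨r', hr'.trans hr, some y, hy⟩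
      · exact ⟨r, hr, none, h1⟩)
  refine ⟨q, hq, ⋃ x, {y | some y ∈ Z x}, ?_, ?_⟩
  · refine (mk_iUnion_le _).trans (mul_le_of_le hθ hA (ciSup_le' fun x => ?_))
    refine (mk_le_of_injective (f := fun y : {y | some y ∈ Z x} => (⟨some y.1, y.2⟩ : Z x))
      ?_).trans (hZ x)
    intro y y' hy
    exact Subtype.ext (Option.some.inj (congrArg Subtype.val hy))
  · intro x y r hr hxy
    obtain ⟨r', hr', v, hv, h1⟩ := hcov x r hr
    cases v with
    | none => exact absurd (mem_ex_of y (RO.dn hxy hr')) (fun h2 => not_both h2 h1)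
    | some y' =>
      have h2 : y = y' := hf x y y' r' (hr'.trans (hr.trans hq)) ⟨RO.dn hxy hr', h1⟩
      rw [h2]
      exact mem_iUnion.2 ⟨x, hv⟩

theorem card_lt_of_lt_succ {θ : Cardinal.{0}} {α : Ordinal.{0}} (h : α < (Order.succ θ).ord) :
    #α.ToType ≤ θ := by
  rw [mk_toType]
  exact Order.lt_succ_iff.1 (lt_ord.1 h)

theorem omega_le_ord {θ : Cardinal.{0}} (h : ℵ₀ ≤ θ) : Ordinal.omega0 ≤ θ.ord := by
  rw [← ord_aleph0]
  exact ord_le_ord.2 h

theorem cardN_succ {θ : Cardinal.{0}} (h : Cov θ P) (hθ : ℵ₀ ≤ θ) (p : P) :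
    p ∈ (CardN (Order.succ θ).ord : RO P) := by
  refine ⟨omega_le_ord (hθ.trans (Order.le_succ θ)), fun α => ?_⟩
  intro q _ hex
  obtain ⟨r, hr, f, hf, hon⟩ := hex q le_rfl
  obtain ⟨r', hr', W, hW, hcov⟩ := h.cover_range hθ (card_lt_of_lt_succ α.2) hf
  obtain ⟨y, hy⟩ : ∃ y, y ∉ W := by
    by_contra hcon
    push Not at hcon
    have h1 : W = Set.univ := Set.eq_univ_of_forall hcon
    rw [h1, mk_univ, mk_ord_toType] at hW
    exact absurd hW (not_le.2 (Order.lt_succ θ))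
  obtain ⟨r2, hr2, x, hx⟩ := hon y r' hr'
  exact hy (hcov x y r2 hr2 hx)

theorem regN_succ {θ : Cardinal.{0}} (h : Cov θ P) (hθ : ℵ₀ ≤ θ) (p : P) :
    p ∈ (RegN (Order.succ θ).ord : RO P) := by
  refine ⟨cardN_succ h hθ p, fun α f => ?_⟩
  intro q _ hf
  refine RO.rg fun q' hq' => ?_
  obtain ⟨r', hr', W, hW, hcov⟩ := h.cover_range hθ (card_lt_of_lt_succ α.2) (RO.dn hf hq')
  obtain ⟨b, hb⟩ := bdd_reg (isRegular_succ hθ) W (Order.lt_succ_iff.2 hW)
  exact ⟨r', hr', mem_ex_of b fun x y r hr hxy => hb y (hcov x y r hr hxy)⟩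

/-- ordinals which are not cardinals -/
theorem not_cardN {p : P} {α β : Ordinal.{0}} (h : α < β)
    (hf : ∃ f : α.ToType → β.ToType → RO P, p ∈ FunN f ∧ p ∈ OntoN f) : p ∉ (CardN β : RO P) := by
  obtain ⟨f, hf, hon⟩ := hf
  intro hc
  exact hc.2 ⟨α, h⟩ p le_rfl (mem_ex_of f ⟨hf, hon⟩)

theorem not_cardN_of_card {p : P} {α β : Ordinal.{0}} (h : α < β) (h' : β.card ≤ α.card)
    (hα : 0 < β) : p ∉ (CardN β : RO P) := by
  classical
  refine not_cardN h ?_
  have h1 : #β.ToType ≤ #α.ToType := by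
    rw [mk_toType, mk_toType]
    exact h'
  obtain ⟨g⟩ := h1
  refine ⟨fun x y => gr (g y = x), ?_, ?_⟩
  · intro x y y' q _ h2
    exact g.injective (h2.1.trans h2.2.symm)
  · intro y
    exact mem_ex_of (g y) rfl

/-- infinite cardinals of the extension are cardinals -/
theorem cardN_ord {p : P} {β : Ordinal.{0}} (h : p ∈ (CardN β : RO P)) : β.card.ord = β := by
  have h0 : Ordinal.omega0 ≤ β := h.1
  by_contra hcon
  have h1 : β.card.ord < β := lt_of_le_of_ne (ord_card_le β) hcon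
  refine not_cardN_of_card (p := p) h1 ?_ (Ordinal.omega0_pos.trans_le h0) h
  rw [card_ord]

theorem cardN_lim {p : P} {β : Ordinal.{0}} (h0 : Ordinal.omega0 ≤ β)
    (h : ∀ α < β, ∃ β', α < β' ∧ β' ≤ β ∧ p ∈ (CardN β' : RO P)) : p ∈ (CardN β : RO P) := by
  refine ⟨h0, fun α => ?_⟩
  obtain ⟨β', h1, h2, h3⟩ := h α.1 α.2
  intro q hq hex
  obtain ⟨r, hr, f, hf, hon⟩ := hex q le_rfl
  have h4 : #β'.ToType ≤ #β.ToType := by
    rw [mk_toType, mk_toType]
    exact Ordinal.card_le_card h2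
  obtain ⟨g⟩ := h4
  refine h3.2 ⟨α.1, h1⟩ r (hr.trans hq) (mem_ex_of (fun x y => f x (g y)) ⟨?_, fun y => hon (g y)⟩)
  intro x y y' r' hr' h5
  exact g.injective (hf x (g y) (g y') r' hr' h5)

/-! ### Alephs -/

/-- A recursive form of `β = ℵ_α`: `β` is an infinite cardinal, for each `α' < α`
there is `β' < β` with `β' = ℵ_α'`, and each infinite cardinal `β' < β` is `ℵ_α'` for some
`α' < α`. -/
noncomputable def AlephR (P : Type) [Preorder P] (α β : Ordinal.{0}) : RO P :=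
  an (CardN β) (an
    (al fun α' : Set.Iio α => ex fun β' : Set.Iio β => AlephR P α'.1 β'.1)
    (al fun β' : Set.Iio β => im (CardN β'.1) (ex fun α' : Set.Iio α => AlephR P α'.1 β'.1)))
termination_by α
decreasing_by all_goals exact α'.2

theorem AlephR.cd {p : P} {α β : Ordinal.{0}} (h : p ∈ AlephR P α β) : p ∈ (CardN β : RO P) := by
  rw [AlephR] at h
  exact h.1

theorem AlephR.lt {p : P} {α α' β : Ordinal.{0}} (h : p ∈ AlephR P α β) (hα : α' < α) :
    ∃ q ≤ p, ∃ β' < β, q ∈ AlephR P α' β' := by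
  rw [AlephR] at h
  obtain ⟨q, hq, β', h1⟩ := h.2.1 ⟨α', hα⟩ p le_rfl
  exact ⟨q, hq, β'.1, β'.2, h1⟩

theorem AlephR.lt' {p : P} {α β β' : Ordinal.{0}} (h : p ∈ AlephR P α β) (hβ : β' < β)
    (hc : p ∈ (CardN β' : RO P)) : ∃ q ≤ p, ∃ α' < α, q ∈ AlephR P α' β' := by
  rw [AlephR] at h
  obtain ⟨q, hq, α', h1⟩ := h.2.2 ⟨β', hβ⟩ p le_rfl hc p le_rfl
  exact ⟨q, hq, α'.1, α'.2, h1⟩

theorem AlephR.uniq {β : Ordinal.{0}} : ∀ {α α' : Ordinal.{0}} {p : P}, p ∈ AlephR P α β →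
    p ∈ AlephR P α' β → α = α' := by
  induction β using WellFoundedLT.induction with
  | ind β ih =>
    have key : ∀ {α α' : Ordinal.{0}} {p : P}, p ∈ AlephR P α β → p ∈ AlephR P α' β →
        ¬ α < α' := by
      intro α α' p h1 h2 hlt
      obtain ⟨q, hq, β', hβ', h3⟩ := AlephR.lt h2 hlt
      obtain ⟨r, hr, α'', hα'', h4⟩ := AlephR.lt' (RO.dn h1 hq) hβ' (AlephR.cd h3)
      exact absurd (ih β' hβ' (RO.dn h3 hr) h4) hα''.ne'
    intro α α' p h1 h2
    exact le_antisymm (not_lt.1 (key h2 h1)) (not_lt.1 (key h1 h2))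

theorem AlephR.mono {p : P} {α α' β β' : Ordinal.{0}} (h : p ∈ AlephR P α β)
    (h' : p ∈ AlephR P α' β') (hβ : β < β') : α < α' := by
  obtain ⟨q, hq, α'', hα'', h1⟩ := AlephR.lt' h' hβ (AlephR.cd h)
  rw [AlephR.uniq (RO.dn h hq) h1]
  exact hα''

theorem AlephR.uniq' {p : P} {α β β' : Ordinal.{0}} (h : p ∈ AlephR P α β)
    (h' : p ∈ AlephR P α β') : β = β' := by
  rcases lt_trichotomy β β' with h1 | h1 | h1
  · exact absurd (AlephR.mono h h' h1) (lt_irrefl _)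
  · exact h1
  · exact absurd (AlephR.mono h' h h1) (lt_irrefl _)

theorem ex_least {p : P} {φ : Ordinal.{0} → RO P} (h : ∃ α, p ∈ φ α) :
    ∃ q ≤ p, ∃ α, q ∈ φ α ∧ ∀ α' < α, q ∈ neg (φ α') := by
  obtain ⟨α, ⟨q, hq, h1⟩, hmin⟩ := WellFounded.has_min (wellFounded_lt (α := Ordinal.{0}))
    {α | ∃ q ≤ p, q ∈ φ α} (by
      obtain ⟨α, hα⟩ := h
      exact ⟨α, p, le_rfl, hα⟩)
  exact ⟨q, hq, α, h1, fun α' hα' r hr h2 => hmin α' ⟨r, hr.trans hq, h2⟩ hα'⟩

theorem AlephR.exists {β : Ordinal.{0}} : ∀ {p : P}, p ∈ (CardN β : RO P) →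
    ∃ q ≤ p, ∃ α, q ∈ AlephR P α β := by
  induction β using WellFoundedLT.induction with
  | ind β ih =>
    intro p hp
    -- a bound for the possible indices
    obtain ⟨A, hA⟩ : ∃ A : Ordinal.{0}, ∀ α, (∃ r : P, ∃ β' < β, r ∈ AlephR P α β') → α < A := by
      let T : Set Ordinal.{0} := {α | ∃ r : P, ∃ β' < β, r ∈ AlephR P α β'}
      choose r b hb hr using fun α : T => α.2
      have h1 : Function.Injective fun α : T =>
          ((r α, Ordinal.ToType.mk ⟨b α, hb α⟩) : P × β.ToType) := by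
        intro α α' h
        have h2 : r α = r α' := congrArg Prod.fst h
        have h3 : Ordinal.ToType.mk ⟨b α, hb α⟩ = Ordinal.ToType.mk ⟨b α', hb α'⟩ :=
          congrArg Prod.snd h
        have h4 : b α = b α' := congrArg Subtype.val (Ordinal.ToType.mk.injective h3)
        have h5 := hr α
        rw [h2, h4] at h5
        exact Subtype.ext (AlephR.uniq h5 (hr α'))
      have : Small.{0} T := small_of_injective h1
      obtain ⟨A, hA⟩ := Ordinal.bddAbove_of_small (s := T)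
      exact ⟨Order.succ A, fun α hα => Order.lt_succ_iff.2 (hA hα)⟩
    obtain ⟨q, hq, α0, h1, h2⟩ := ex_least (p := p)
      (φ := fun α => neg (ex fun β' : Set.Iio β => AlephR P α β'.1)) ⟨A, by
        intro r _ hr
        obtain ⟨r', _, β', h1⟩ := hr r le_rfl
        exact absurd (hA A ⟨r', β'.1, β'.2, h1⟩) (lt_irrefl A)⟩
    refine ⟨q, hq, α0, ?_⟩
    rw [AlephR]
    refine ⟨RO.dn hp hq, ?_, ?_⟩
    · intro α'
      refine mem_of_not_neg fun r hr hneg => ?_
      exact h2 α'.1 α'.2 r hr hneg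
    · intro β' r hr hc r' hr'
      obtain ⟨r2, hr2, α2, h3⟩ := ih β'.1 β'.2 (RO.dn hc hr')
      have hr2q : r2 ≤ q := hr2.trans (hr'.trans hr)
      rcases lt_trichotomy α2 α0 with h4 | h4 | h4
      · exact ⟨r2, hr2, ⟨α2, h4⟩, h3⟩
      · subst h4
        exact absurd (mem_ex_of β' h3) (h1 r2 hr2q)
      · obtain ⟨r3, hr3, β3, hβ3, h5⟩ := AlephR.lt h3 h4
        exact absurd (mem_ex_of (φ := fun β' : Set.Iio β => AlephR P α0 β'.1)
          ⟨β3, hβ3.trans β'.2⟩ h5) (h1 r3 (hr3.trans hr2q))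

/-- the recursive form implies the direct form -/
theorem AlephR.toN {p : P} {α β : Ordinal.{0}} (h : p ∈ AlephR P α β) :
    p ∈ (AlephN α β : RO P) := by
  refine ⟨AlephR.cd h, mem_ex_of (fun x y => AlephR P (Ordinal.ToType.mk.symm x).1
    (Ordinal.ToType.mk.symm y).1) ⟨?_, ?_, ?_⟩⟩
  · intro x q hq
    have hx : (Ordinal.ToType.mk.symm x).1 < α := (Ordinal.ToType.mk.symm x).2
    obtain ⟨r, hr, β', hβ', h1⟩ := AlephR.lt (RO.dn h hq) hx
    refine ⟨r, hr, Ordinal.ToType.mk ⟨β', hβ'⟩, ?_⟩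
    beta_reduce
    rw [OrderIso.symm_apply_apply]
    exact h1
  · intro x y x' y' q _ hq
    have h1 : q ∈ AlephR P (Ordinal.ToType.mk.symm x).1 (Ordinal.ToType.mk.symm y).1 := hq.1
    have h2 : q ∈ AlephR P (Ordinal.ToType.mk.symm x').1 (Ordinal.ToType.mk.symm y').1 := hq.2
    have e1 : x < x' ↔ (Ordinal.ToType.mk.symm x).1 < (Ordinal.ToType.mk.symm x').1 :=
      (Ordinal.ToType.mk.symm.lt_iff_lt (x := x) (y := x')).symm
    have e2 : y < y' ↔ (Ordinal.ToType.mk.symm y).1 < (Ordinal.ToType.mk.symm y').1 :=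
      (Ordinal.ToType.mk.symm.lt_iff_lt (x := y) (y := y')).symm
    show x < x' ↔ y < y'
    rw [e1, e2]
    constructor
    · intro h3
      rcases lt_trichotomy (Ordinal.ToType.mk.symm y).1 (Ordinal.ToType.mk.symm y').1 with
        h4 | h4 | h4
      · exact h4
      · rw [h4] at h1
        exact absurd h3 (AlephR.uniq h1 h2).not_lt
      · exact absurd h3 (AlephR.mono h2 h1 h4).not_gt
    · intro h3
      exact AlephR.mono h1 h2 h3
  · intro y
    refine mem_iv.2 fun q hq => ⟨fun h1 => ?_, fun h1 => ?_⟩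
    · refine RO.rg fun r hr => ?_
      obtain ⟨r', hr', x, hx⟩ := h1 r hr
      exact ⟨r', hr', AlephR.cd hx⟩
    · intro r hr
      have hy : (Ordinal.ToType.mk.symm y).1 < β := (Ordinal.ToType.mk.symm y).2
      obtain ⟨r', hr', α', hα', h2⟩ := AlephR.lt' (RO.dn h (hr.trans hq)) hy (RO.dn h1 hr)
      refine ⟨r', hr', Ordinal.ToType.mk ⟨α', hα'⟩, ?_⟩
      beta_reduce
      rw [OrderIso.symm_apply_apply]
      exact h2

/-- **Computing an aleph.** -/
theorem alephR_top {χ : Cardinal.{0}} (hχ : ℵ₀ ≤ χ) (hcov : Cov χ P) {p : P} {β : Ordinal.{0}}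
    (hβ : p ∈ (CardN β : RO P))
    (H1 : ∀ β' < β, ∃ (V : Type) (g : V → Ordinal.{0}), #V ≤ χ ∧ ∀ β'' < β', ∀ r ≤ p,
      r ∈ (CardN β'' : RO P) → ∃ v, g v = β'')
    (H2 : ∃ g : (Order.succ χ).ord.ToType → Ordinal.{0}, Function.Injective g ∧
      ∀ i, g i < β ∧ p ∈ (CardN (g i) : RO P)) : p ∈ AlephR P (Order.succ χ).ord β := by
  rw [AlephR]
  refine ⟨hβ, ?_, ?_⟩
  · intro α' q hq
    obtain ⟨g, hg, hg'⟩ := H2
    by_contra hcon
    push Not at hcon
    obtain ⟨r, hr, i, j, v, hij, h1, h2⟩ := hcov.pigeon hχ (S := (Order.succ χ).ord.ToType)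
      (V := α'.1.ToType) (by rw [mk_ord_toType]; exact Order.lt_succ χ)
      (card_lt_of_lt_succ α'.2)
      (fun i v r => r ∈ AlephR P (Ordinal.ToType.mk.symm v).1 (g i))
      (fun i v p q hq hp => RO.dn hp hq) q (by
        intro i r hr
        obtain ⟨r1, hr1, α1, h1⟩ := AlephR.exists (RO.dn (hg' i).2 (hr.trans hq))
        have h2 : α1 < α'.1 := by
          rcases lt_trichotomy α1 α'.1 with h4 | h4 | h4
          · exact h4
          · subst h4
            exact absurd h1 (hcon r1 (hr1.trans hr) ⟨g i, (hg' i).1⟩)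
          · obtain ⟨r3, hr3, β3, hβ3, h5⟩ := AlephR.lt h1 h4
            exact absurd h5 (hcon r3 (hr3.trans (hr1.trans hr)) ⟨β3, hβ3.trans (hg' i).1⟩)
        refine ⟨r1, hr1, Ordinal.ToType.mk ⟨α1, h2⟩, ?_⟩
        rw [OrderIso.symm_apply_apply]
        exact h1)
    exact hij (hg (AlephR.uniq' h1 h2))
  · intro β' q hq hc r hr
    obtain ⟨r1, hr1, α1, h1⟩ := AlephR.exists (RO.dn hc hr)
    rcases lt_or_ge α1 (Order.succ χ).ord with h2 | h2
    · exact ⟨r1, hr1, ⟨α1, h2⟩, h1⟩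
    · exfalso
      obtain ⟨V, g, hV, hg⟩ := H1 β'.1 β'.2
      obtain ⟨r', hr', s, t, v, hst, h3, h4⟩ := hcov.pigeon hχ
        (S := (Order.succ χ).ord.ToType) (V := V)
        (by rw [mk_ord_toType]; exact Order.lt_succ χ) hV
        (fun s v r => r ∈ AlephR P (Ordinal.ToType.mk.symm s).1 (g v))
        (fun s v p q hq hp => RO.dn hp hq) r1 (by
          intro s r2 hr2
          have h3 : (Ordinal.ToType.mk.symm s).1 < α1 :=
            lt_of_lt_of_le (Ordinal.ToType.mk.symm s).2 h2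
          obtain ⟨r3, hr3, β3, hβ3, h5⟩ := AlephR.lt (RO.dn h1 hr2) h3
          obtain ⟨v, hv⟩ := hg β3 hβ3 r3 (hr3.trans (hr2.trans (hr1.trans (hr.trans hq))))
            (AlephR.cd h5)
          refine ⟨r3, hr3, v, ?_⟩
          rw [hv]
          exact h5)
      have h5 := AlephR.uniq h3 h4
      exact hst (Ordinal.ToType.mk.symm.injective (Subtype.ext h5))

end

end Run7.h888
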