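import Pool.Agent.Run7.h888.C1

/-!
# From thin lists to systems
-/

set_option autoImplicit false

namespace Run7.h888

open Cardinal Set Pool.Agent.Helper669.Forcing Pool.Agent.Helper669.K Pool.Agent.R588.S

section

variable {P : Type} [Preorder P] {X : Type}

theorem mem_EqN {x y : X → RO P} {p : P} : p ∈ EqN x y ↔ ∀ a, ∀ q ≤ p, (q ∈ x a ↔ q ∈ y a) :=
  ⟨fun h a => mem_iv.1 (h a), fun h a => mem_iv.2 (h a)⟩

theorem mem_LeN {x y : X → RO P} {p : P} : p ∈ LeN x y ↔ ∀ a, ∀ q ≤ p, q ∈ x a → q ∈ y a :=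
  Iff.rfl

/-- the name of a set of the ground model -/
def ck (y : Set X) : X → RO P := fun a => gr (a ∈ y)

theorem mem_ck {y : Set X} {a : X} {p : P} : p ∈ (ck y a : RO P) ↔ a ∈ y := Iff.rfl

theorem mem_capN {x y : X → RO P} {a : X} {p : P} : p ∈ capN x y a ↔ p ∈ x a ∧ p ∈ y a := Iff.rfl

theorem small_ck {μ : Cardinal.{0}} {y : Set X} (hy : #y ≤ μ) (p : P) :
    p ∈ SmallN (Order.succ μ).ord (ck y : X → RO P) := by
  classical
  obtain ⟨e⟩ : #y ≤ #μ.ord.ToType := by rw [mk_ord_toType]; exact hy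
  refine mem_ex_of ⟨μ.ord, ord_lt_ord.2 (Order.lt_succ μ)⟩ (mem_ex_of
    (fun i a => gr (∃ h : a ∈ y, e ⟨a, h⟩ = i)) ⟨?_, ?_⟩)
  · intro i a a' q _ h
    obtain ⟨⟨h1, h2⟩, h3, h4⟩ := h
    have h5 := e.injective (h2.trans h4.symm)
    exact congrArg Subtype.val h5
  · intro a q _ h
    exact mem_ex_of (e ⟨a, h⟩) ⟨h, rfl⟩

theorem small_cover {μ : Cardinal.{0}} (hcov : Cov μ P) (hμ : ℵ₀ ≤ μ) {x : X → RO P} {p : P}
    (h : p ∈ SmallN (Order.succ μ).ord x) : ∃ q ≤ p, ∃ W : Set X, #W ≤ μ ∧ q ∈ LeN x (ck W) := by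
  obtain ⟨q, hq, α, h1⟩ := h p le_rfl
  obtain ⟨q', hq', f, hf, h2⟩ := h1 q le_rfl
  obtain ⟨r, hr, W, hW, h3⟩ := hcov.cover_range hμ (card_lt_of_lt_succ α.2) hf
  refine ⟨r, hr.trans (hq'.trans hq), W, hW, fun a s hs ha => ?_⟩
  obtain ⟨s', hs', i, hi⟩ := h2 a s (hs.trans hr) ha s le_rfl
  exact h3 i a s' (hs'.trans hs) hi

theorem strongTree_of {μ : Cardinal.{0}} (hμ : ℵ₀ ≤ μ) (hcov : Cov μ P) (p0 : P)
    (hbr : ∀ (D : Type) [Preorder D], UpDir μ D →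
      ∀ (R : D → μ.ord.ToType → D → μ.ord.ToType → RO P), ∀ p ≤ p0, Sys R p →
        ∃ q ≤ p, ∃ br, IsBr R q br) : p0 ∈ StrongTreeN P (Order.succ μ).ord := by
  classical
  intro lam D q0 hq0 hD
  obtain ⟨hlist, hthin⟩ := hD
  intro q1 hq1
  obtain ⟨r1, hr1, C, hclub, hC⟩ := hthin q1 hq1
  have hlist1 : r1 ∈ ListN (Order.succ μ).ord D := RO.dn hlist (hr1.trans hq1)
  have hr1p : r1 ≤ p0 := (hr1.trans hq1).trans hq0
  let X : Type := lam.1.ToType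
  have hneM : Nonempty μ.ord.ToType := by
    rw [← mk_ne_zero_iff, mk_ord_toType]
    exact (aleph0_pos.trans_le hμ).ne'
  -- the traces on `y`
  let Tr : Set X → (μ.ord.ToType → X → RO P) → P → Prop := fun y a r =>
    ∃ c : X → RO P, r ∈ SmallN (Order.succ μ).ord c ∧ r ∈ LeN (ck y) c ∧
      ∀ x, ∀ r' ≤ r, r' ∈ SmallN (Order.succ μ).ord x → r' ∈ LeN c x →
        ∃ r'' ≤ r', ∃ ξ, r'' ∈ EqN (a ξ) (capN (D x) (ck y))
  have hTrm : ∀ y a r r', r' ≤ r → Tr y a r → Tr y a r' := by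
    rintro y a r r' hr ⟨c, h1, h2, h3⟩
    exact ⟨c, RO.dn h1 hr, RO.dn h2 hr, fun x s hs => h3 x s (hs.trans hr)⟩
  have hTr0 : ∀ y : Set X, #y ≤ μ → ∀ q ≤ r1, ∃ r ≤ q, ∃ a, Tr y a r := by
    intro y hy q hq
    obtain ⟨r2, hr2, c, hc1, hc2⟩ := hclub.2.2.1 (ck y) q hq (small_ck hy q) q le_rfl
    obtain ⟨r3, hr3, α, h3⟩ := hC c r2 (hr2.trans hq) hc1 r2 le_rfl
    obtain ⟨r4, hr4, g, h4⟩ := h3 r3 le_rfl
    have hcs : r4 ∈ SmallN (Order.succ μ).ord c :=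
      hclub.2.1 c r4 (hr4.trans (hr3.trans (hr2.trans hq))) (RO.dn hc1 (hr4.trans hr3))
    have hne : Nonempty α.1.ToType := by
      obtain ⟨_, _, i, _⟩ := h4 c r4 le_rfl ⟨hcs, fun a s _ h => h⟩ r4 le_rfl
      exact ⟨i⟩
    obtain ⟨e⟩ : #α.1.ToType ≤ #μ.ord.ToType := by
      rw [mk_ord_toType]
      exact card_lt_of_lt_succ α.2
    have hsurj := Function.invFun_surjective e.injective
    refine ⟨r4, hr4.trans (hr3.trans hr2), fun ξ => capN (g (Function.invFun e ξ)) (ck y), c, hcs,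
      RO.dn hc2 (hr4.trans hr3), ?_⟩
    intro x r' hr' hx1 hx2
    obtain ⟨r'', hr'', i, hi⟩ := h4 x r' hr' ⟨hx1, hx2⟩ r' le_rfl
    obtain ⟨ξ, hξ⟩ := hsurj i
    refine ⟨r'', hr'', ξ, ?_⟩
    beta_reduce
    rw [hξ]
    refine mem_EqN.2 fun a u hu => ?_
    have h5 := (mem_EqN.1 hi) a u hu
    have h6 : a ∈ y → u ∈ c a := fun ha =>
      hc2 a u (hu.trans (hr''.trans (hr'.trans (hr4.trans hr3)))) ha
    constructor
    · intro h7
      exact ⟨(h5.1 h7.1).1, h7.2⟩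
    · intro h7
      exact ⟨h5.2 ⟨h7.1, h6 h7.2⟩, h7.2⟩
  -- mixing
  have hmix : ∀ y : {y : Set X // #y ≤ μ}, ∃ A : μ.ord.ToType → X → RO P,
      ∀ q ≤ r1, ∃ r ≤ q, Tr y.1 A r := by
    intro y
    have hch : ∀ r : P, ∃ a : μ.ord.ToType → X → RO P, (∃ a, Tr y.1 a r) → Tr y.1 a r := by
      intro r
      by_cases h : ∃ a, Tr y.1 a r
      · obtain ⟨a, ha⟩ := h
        exact ⟨a, fun _ => ha⟩
      · exact ⟨fun _ _ => gr True, fun h' => absurd h' h⟩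
    choose a ha using hch
    obtain ⟨F, hF⟩ := mix {r : P | ∃ a, Tr y.1 a r} (fun r (z : μ.ord.ToType × X) => a r z.1 z.2)
    refine ⟨fun ξ b => F (ξ, b), fun q hq => ?_⟩
    obtain ⟨r, hr, a', ha', hra, hloc⟩ := hF q (hTr0 y.1 y.2 q hq)
    obtain ⟨c, h1, h2, h3⟩ := hTrm _ _ _ _ hra (ha a' ha')
    refine ⟨r, hr, c, h1, h2, fun x r' hr' hx1 hx2 => ?_⟩
    obtain ⟨r'', hr'', ξ, hξ⟩ := h3 x r' hr' hx1 hx2
    refine ⟨r'', hr'', ξ, mem_EqN.2 fun b u hu => ?_⟩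
    exact (hloc (ξ, b) u (hu.trans (hr''.trans hr'))).trans (mem_EqN.1 hξ b u hu)
  choose A hA using hmix
  let Dd : Type := {y : Set X // #y ≤ μ}
  have hDd : UpDir μ Dd := by
    intro I w hI
    refine ⟨⟨⋃ i, (w i).1, ?_⟩, fun i => ?_⟩
    · exact (mk_iUnion_le _).trans (mul_le_of_le hμ hI (ciSup_le' fun i => (w i).2))
    · exact Set.subset_iUnion (fun i => (w i).1) i
  let Node : Dd → μ.ord.ToType → RO P := fun y ξ =>
    al fun w : X → RO P => im (SmallN (Order.succ μ).ord w) (ex fun x : X → RO P =>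
      an (SmallN (Order.succ μ).ord x) (an (LeN w x) (EqN (A y ξ) (capN (D x) (ck y.1)))))
  let Rel : Dd → μ.ord.ToType → Dd → μ.ord.ToType → RO P := fun y ξ z ζ =>
    an (Node z ζ) (EqN (A y ξ) (capN (A z ζ) (ck y.1)))
  have hnode : ∀ z ζ r, r ∈ Node z ζ → r ∈ Rel z ζ z ζ := by
    intro z ζ r hr
    refine ⟨hr, mem_EqN.2 fun a q hq => ⟨fun h => ⟨h, ?_⟩, fun h => h.1⟩⟩
    obtain ⟨q', hq', x, _, _, h3⟩ := hr (ck z.1) q hq (small_ck z.2 q) q le_rfl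
    exact ((mem_EqN.1 h3 a q' le_rfl).1 (RO.dn h hq')).2
  have hsys : Sys Rel r1 := by
    refine ⟨?_, ?_, ?_, ?_⟩
    · intro z q hq
      by_contra hcon
      push Not at hcon
      have h1 : ∀ ζ, ∀ r ≤ q, r ∉ Node z ζ := fun ζ r hr h => hcon r hr ζ (hnode z ζ r h)
      obtain ⟨q1, hq1, Z, hZ, hcz⟩ := hcov μ.ord.ToType (Set X) (fun ζ W r => #W ≤ μ ∧
        r ∈ neg (ex fun x : X → RO P => an (SmallN (Order.succ μ).ord x) (an (LeN (ck W) x)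
          (EqN (A z ζ) (capN (D x) (ck z.1)))))) (by rw [mk_ord_toType])
        (fun ζ W p q hq h => ⟨h.1, RO.dn h.2 hq⟩) q (by
          intro ζ r hr
          have h2 := h1 ζ r hr
          have h3 : ∃ w : X → RO P, ∃ s ≤ r, s ∈ SmallN (Order.succ μ).ord w ∧
              s ∉ (ex fun x : X → RO P => an (SmallN (Order.succ μ).ord x) (an (LeN w x)
                (EqN (A z ζ) (capN (D x) (ck z.1))))) := by
            by_contra h4
            push Not at h4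
            exact h2 fun w s hs hw => h4 w s hs hw
          obtain ⟨w, s, hs, hw, h4⟩ := h3
          obtain ⟨s2, hs2, h5⟩ := exists_neg_of_not h4
          obtain ⟨s3, hs3, W, hW, h6⟩ := small_cover hcov hμ (RO.dn hw hs2)
          refine ⟨s3, hs3.trans (hs2.trans hs), W, hW, fun u hu hex => ?_⟩
          obtain ⟨u', hu', x, g1, g2, g3⟩ := hex u le_rfl
          refine h5 u' (hu'.trans (hu.trans hs3)) (mem_ex_of x ⟨g1, fun a v hv hva => ?_, g3⟩)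
          exact g2 a v hv (h6 a v (hv.trans (hu'.trans hu)) hva))
      obtain ⟨q2, hq2, c, hc1, hc2, hc3⟩ := hA z q1 (hq1.trans hq)
      obtain ⟨q3, hq3, C0, hC0, hC0'⟩ := small_cover hcov hμ hc1
      let W0 : Set X := ⋃ ζ, ⋃ W : {W // W ∈ Z ζ ∧ #W ≤ μ}, W.1
      have hW0 : #W0 ≤ μ := by
        refine (mk_iUnion_le _).trans (mul_le_of_le hμ (by rw [mk_ord_toType])
          (ciSup_le' fun ζ => ?_))
        refine (mk_iUnion_le _).trans (mul_le_of_le hμ ?_ (ciSup_le' fun W => W.2.2))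
        exact (mk_le_mk_of_subset (s := {W | W ∈ Z ζ ∧ #W ≤ μ}) (t := Z ζ)
          fun W h => h.1).trans (hZ ζ)
      have hV : #(W0 ∪ C0 : Set X) ≤ μ :=
        (mk_union_le _ _).trans (add_le_of_le hμ hW0 hC0)
      obtain ⟨q4, hq4, ζ, hζ⟩ := hc3 (ck (W0 ∪ C0)) q3 hq3 (small_ck hV q3)
        (fun a u hu hua => Or.inr (hC0' a u hu hua))
      obtain ⟨q5, hq5, W, hWZ, hWμ, h7⟩ := hcz ζ q4 (hq4.trans (hq3.trans hq2))
      refine h7 q5 le_rfl (mem_ex_of (ck (W0 ∪ C0)) ⟨small_ck hV q5, fun a u hu hua => ?_,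
        RO.dn hζ hq5⟩)
      exact Or.inl (mem_iUnion.2 ⟨ζ, mem_iUnion.2 ⟨⟨W, hWZ, hWμ⟩, hua⟩⟩)
    · intro y z hyz ζ q hq hr
      obtain ⟨q1, hq1, c, hc1, hc2, hc3⟩ := hA y q hq
      obtain ⟨q2, hq2, x, hx1, hx2, hx3⟩ := hr.1 c q1 hq1 hc1 q1 le_rfl
      obtain ⟨q3, hq3, ξ, hξ⟩ := hc3 x q2 hq2 hx1 hx2
      refine ⟨q3, hq3.trans (hq2.trans hq1), ξ, RO.dn hr.1 (hq3.trans (hq2.trans hq1)),
        mem_EqN.2 fun a u hu => ?_⟩
      have h1 := mem_EqN.1 hξ a u hu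
      have h2 := mem_EqN.1 hx3 a u (hu.trans hq3)
      constructor
      · intro h3
        obtain ⟨h4, h5⟩ := h1.1 h3
        exact ⟨h2.2 ⟨h4, hyz h5⟩, h5⟩
      · intro h3
        exact h1.2 ⟨(h2.1 h3.1).1, h3.2⟩
    · intro y y' z ξ ξ' ζ q hy hy' h1 h2
      refine ⟨?_, mem_EqN.2 fun a u hu => ?_⟩
      · intro w r hr hw r' hr'
        obtain ⟨r2, hr2, x, hx1, hx2, hx3⟩ := h1.1 w r hr hw r' hr'
        refine ⟨r2, hr2, x, hx1, hx2, mem_EqN.2 fun a u hu => ?_⟩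
        have h3 := mem_EqN.1 hx3 a u hu
        have h4 := mem_EqN.1 h2.2 a u (hu.trans (hr2.trans (hr'.trans hr)))
        constructor
        · intro h5
          obtain ⟨h6, h7⟩ := h4.1 h5
          exact ⟨(h3.1 h6).1, h7⟩
        · intro h5
          exact h4.2 ⟨h3.2 ⟨h5.1, hy' h5.2⟩, h5.2⟩
      · have h3 := mem_EqN.1 h1.2 a u hu
        have h4 := mem_EqN.1 h2.2 a u hu
        constructor
        · intro h5
          obtain ⟨h6, h7⟩ := h3.1 h5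
          exact ⟨h4.2 ⟨h6, hy h7⟩, h7⟩
        · intro h5
          exact h3.2 ⟨(h4.1 h5.1).1, h5.2⟩
    · intro y y' z ξ ξ' ζ q hy hy' h1 h2
      refine ⟨h2.1, mem_EqN.2 fun a u hu => ?_⟩
      have h3 := mem_EqN.1 h1.2 a u hu
      have h4 := mem_EqN.1 h2.2 a u hu
      constructor
      · intro h5
        obtain ⟨h6, h7⟩ := h3.1 h5
        exact ⟨(h4.1 h6).1, h7⟩
      · intro h5
        exact h3.2 ⟨h4.2 ⟨h5.1, hy h5.2⟩, h5.2⟩
  obtain ⟨q, hq, br, hb⟩ := hbr Dd hDd Rel r1 hr1p hsys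
  -- the branch
  let b : X → RO P := fun a => ex fun y : Dd => ex fun ξ => an (br y ξ) (A y ξ a)
  refine ⟨q, hq.trans hr1, b, ?_⟩
  intro x s hs hx s1 hs1
  obtain ⟨s2, hs2, W, hW, hxW⟩ := small_cover hcov hμ (RO.dn hx hs1)
  obtain ⟨s3, hs3, y, hy, ξ, hξ⟩ := hb.1 (⟨W, hW⟩ : Dd) s2 (hs2.trans (hs1.trans hs))
  have hs3q : s3 ≤ q := hs3.trans (hs2.trans (hs1.trans hs))
  have hrel := hb.2 y y ξ ξ le_rfl s3 hs3q hξ hξ
  obtain ⟨s4, hs4, z, hz1, hz2, hz3⟩ := hrel.1 (ck y.1) s3 le_rfl (small_ck y.2 s3) s3 le_rfl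
  refine ⟨s4, hs4.trans (hs3.trans hs2), z, hz1, fun a u hu hua => ?_, mem_EqN.2 fun a u hu => ?_⟩
  · have h1 : a ∈ W := hxW a u (hu.trans (hs4.trans hs3)) hua
    exact hz2 a u hu (hy h1)
  · have h1 := mem_EqN.1 hz3 a u hu
    constructor
    · intro h2
      refine ⟨?_, h2.2⟩
      have h3 : a ∈ W := hxW a u (hu.trans (hs4.trans hs3)) h2.2
      have h4 : a ∈ y.1 := hy h3
      exact mem_ex_of y (mem_ex_of ξ ⟨RO.dn hξ (hu.trans hs4), h1.2 ⟨h2.1, h4⟩⟩)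
    · intro h2
      refine ⟨?_, h2.2⟩
      have h3 : a ∈ W := hxW a u (hu.trans (hs4.trans hs3)) h2.2
      have h4 : a ∈ y.1 := hy h3
      have h5 : u ∈ A y ξ a := by
        refine RO.rg fun v hv => ?_
        obtain ⟨v1, hv1, y2, h6⟩ := h2.1 v hv
        obtain ⟨v2, hv2, ξ2, h7, h8⟩ := h6 v1 le_rfl
        have hv2u : v2 ≤ u := hv2.trans (hv1.trans hv)
        have hv2q : v2 ≤ q := hv2u.trans (hu.trans (hs4.trans hs3q))
        obtain ⟨w, hw1, hw2⟩ := hDd.two hμ y y2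
        obtain ⟨v3, hv3, w', hw', ζ, hζ⟩ := hb.1 w v2 hv2q
        have g1 := hb.2 y w' ξ ζ (hw1.trans hw') v3 (hv3.trans hv2q)
          (RO.dn hξ ((hv3.trans hv2u).trans (hu.trans hs4))) hζ
        have g2 := hb.2 y2 w' ξ2 ζ (hw2.trans hw') v3 (hv3.trans hv2q) (RO.dn h7 hv3) hζ
        have g3 := (mem_EqN.1 g2.2 a v3 le_rfl).1 (RO.dn h8 hv3)
        exact ⟨v3, hv3.trans (hv2.trans hv1), (mem_EqN.1 g1.2 a v3 le_rfl).2 ⟨g3.1, h4⟩⟩
      exact (h1.1 h5).1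

end

end Run7.h888
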