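import Pool.Agent.Run7.h888.B4
import Pool.Agent.Run7.h888.C2

/-!
# Collapsed cardinals
-/

set_option autoImplicit false

namespace Run7.h888

open Cardinal Set Pool.Agent.Helper669.Forcing Pool.Agent.Helper669.K Pool.Agent.R588.S

theorem Prj.comp {P P' P'' : Type} [Preorder P] [Preorder P'] [Preorder P''] {π : P' → P}
    {π' : P'' → P'} (h : Prj π) (h' : Prj π') : Prj (fun p => π (π' p)) := by
  refine ⟨fun p q hpq => h.mono (h'.mono hpq), fun p q hq => ?_⟩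
  obtain ⟨r, hr, h1⟩ := h.lift (π' p) q hq
  obtain ⟨s, hs, h2⟩ := h'.lift p r hr
  exact ⟨s, hs, (h.mono h2).trans h1⟩

theorem Prj.fst {P P' : Type} [Preorder P] [Preorder P'] : Prj (fun p : P × P' => p.1) :=
  ⟨fun _ _ h => h.1, fun p q hq => ⟨(q, p.2), ⟨hq, le_rfl⟩, le_rfl⟩⟩

theorem Prj.snd {P P' : Type} [Preorder P] [Preorder P'] : Prj (fun p : P × P' => p.2) :=
  ⟨fun _ _ h => h.2, fun p q hq => ⟨(p.1, q), ⟨le_rfl, hq⟩, le_rfl⟩⟩

theorem Prj.pi {I : Type} {F : I → Type} [∀ i, Preorder (F i)] (i : I) :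
    Prj (fun p : ∀ i, F i => p i) := by
  classical
  refine ⟨fun _ _ h => h i, fun p q hq => ⟨Function.update p i q, ?_, ?_⟩⟩
  · intro j
    by_cases hj : j = i
    · subst hj
      rw [Function.update_self]
      exact hq
    · rw [Function.update_of_ne hj]
  · show Function.update p i q i ≤ q
    rw [Function.update_self]

section

variable {P : Type} [Preorder P]

/-- the generic function -/
def gen {mu : Cardinal.{0}} {A Y : Type} {G : A → Y → Prop} (π : P → Pf mu G) (a : A) (y : Y) :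
    RO P := cl {p | (π p).f a = some y}

theorem gen_fun {mu : Cardinal.{0}} {A Y : Type} {G : A → Y → Prop} {π : P → Pf mu G}
    (h : Prj π) {a : A} {y y' : Y} {p : P} (h1 : p ∈ gen π a y) (h2 : p ∈ gen π a y') : y = y' := by
  obtain ⟨r, hr, s, hs, hrs⟩ := h1 p le_rfl
  obtain ⟨r', hr', s', hs', hrs'⟩ := h2 r hr
  have h1 : (π r').f a = some y := h.mono (hr'.trans hrs) a y hs
  have h2 : (π r').f a = some y' := h.mono hrs' a y' hs'
  rw [h1] at h2
  exact Option.some.inj h2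

theorem gen_dense {mu : Cardinal.{0}} (hmu : ℵ₀ ≤ mu) {A Y : Type} {G : A → Y → Prop}
    {π : P → Pf mu G} (h : Prj π) {a : A} {y : Y} {p : P} (h1 : (π p).f a = none) (h2 : G a y) :
    ∃ q ≤ p, q ∈ gen π a y := by
  obtain ⟨d, hd, hd'⟩ := Pf.exists_insert hmu (π p) a y h1 h2
  obtain ⟨q, hq, hqd⟩ := h.lift p d hd
  exact ⟨q, hq, meets_of_mem (hqd a y hd')⟩

theorem exists_none {mu : Cardinal.{0}} {A Y : Type} {G : A → Y → Prop} (d : Pf mu G)
    {I : Type} (hI : mu ≤ #I) (g : I → A) (hg : Function.Injective g) : ∃ i, d.f (g i) = none := by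
  by_contra hcon
  push Not at hcon
  have h3 : #I ≤ #{x // d.f x ≠ none} :=
    mk_le_of_injective (f := fun i => (⟨g i, hcon i⟩ : {x // d.f x ≠ none}))
      fun a b h => hg (congrArg (fun z : {x // d.f x ≠ none} => z.1) h)
  exact absurd d.small (not_lt.2 (hI.trans h3))

theorem Lv.collapse {mu ka c : Cardinal.{0}} (hmu : ℵ₀ ≤ mu) {π : P → Lv mu ka} (h : Prj π)
    (h1 : mu < c) (h2 : c < ka) (p : P) : p ∉ (CardN c.ord : RO P) := by
  obtain ⟨a, ha⟩ := exists_Iio_card h2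
  obtain ⟨ι⟩ : Nonempty (c.ord.ToType ≃ Set.Iio a) :=
    Cardinal.eq.1 ((mk_ord_toType c).trans ha.symm)
  refine not_cardN (ord_lt_ord.2 h1) ⟨fun x y => gen π (a, x) (ι y).1, ?_, ?_⟩
  · intro x y y' q _ hq
    exact ι.injective (Subtype.ext (gen_fun h hq.1 hq.2))
  · intro y q _
    obtain ⟨x, hx⟩ := exists_none (π q) (I := mu.ord.ToType) (by rw [mk_ord_toType])
      (fun x => (a, x)) (fun x x' hx => (Prod.mk.inj hx).2)
    obtain ⟨r, hr, h3⟩ := gen_dense hmu h hx (ι y).2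
    exact ⟨r, hr, x, h3⟩

theorem Fn.collapse {θ c : Cardinal.{0}} {Y : Type} (hθ : ℵ₀ ≤ θ) {π : P → Fn θ Y} (h : Prj π)
    (h1 : θ < c) (h2 : c ≤ #Y) (p : P) : p ∉ (CardN c.ord : RO P) := by
  obtain ⟨ι⟩ : #c.ord.ToType ≤ #Y := by rw [mk_ord_toType]; exact h2
  refine not_cardN (ord_lt_ord.2 h1) ⟨fun x y => gen π x (ι y), ?_, ?_⟩
  · intro x y y' q _ hq
    exact ι.injective (gen_fun h hq.1 hq.2)
  · intro y q _
    obtain ⟨x, hx⟩ := exists_none (π q) (I := θ.ord.ToType) (by rw [mk_ord_toType])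
      (fun x => x) (fun x x' hx => hx)
    obtain ⟨r, hr, h3⟩ := gen_dense hθ h (y := ι y) hx trivial
    exact ⟨r, hr, x, h3⟩

theorem alephR_succ {μ : Cardinal.{0}} {α : Ordinal.{0}} {p : P} (h : p ∈ AlephR P α μ.ord)
    (h' : p ∈ (CardN (Order.succ μ).ord : RO P)) : p ∈ AlephR P (α + 1) (Order.succ μ).ord := by
  have hlt : μ.ord < (Order.succ μ).ord := ord_lt_ord.2 (Order.lt_succ μ)
  rw [AlephR]
  refine ⟨h', ?_, ?_⟩
  · intro α' q hq
    have h1 : α'.1 ≤ α := Order.lt_succ_iff.1 (by rw [Order.succ_eq_add_one]; exact α'.2)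
    rcases eq_or_lt_of_le h1 with h2 | h2
    · refine ⟨q, le_rfl, ⟨μ.ord, hlt⟩, ?_⟩
      rw [h2]
      exact RO.dn h hq
    · obtain ⟨r, hr, β', hβ', h3⟩ := AlephR.lt (RO.dn h hq) h2
      exact ⟨r, hr, ⟨β', hβ'.trans hlt⟩, h3⟩
  · intro β' q hq hc r hr
    have h1 : β'.1.card ≤ μ := Order.lt_succ_iff.1 (lt_ord.1 β'.2)
    rcases eq_or_lt_of_le h1 with h2 | h2
    · refine ⟨r, le_rfl, ⟨α, ?_⟩, ?_⟩
      · rw [← Order.succ_eq_add_one]
        exact Order.lt_succ α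
      · have h3 := cardN_ord hc
        rw [h2] at h3
        rw [← h3]
        exact RO.dn h (hr.trans hq)
    · have h3 : β'.1 < μ.ord := lt_ord.2 h2
      obtain ⟨r', hr', α', hα', h4⟩ := AlephR.lt' (RO.dn h (hr.trans hq)) h3 (RO.dn hc hr)
      refine ⟨r', hr', ⟨α', hα'.trans ?_⟩, h4⟩
      rw [← Order.succ_eq_add_one]
      exact Order.lt_succ α

end

namespace Blk

variable (b : Blk)

/-- the possible cardinals -/
noncomputable def g1 (t : b.Tt) : ℕ → Cardinal.{0}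
  | 0 => Order.succ b.χ
  | 1 => Order.succ (rho b.χ t)
  | 2 => Order.succ (Order.succ (rho b.χ t))
  | 3 => sg b.χ t
  | _ => b.κs

noncomputable def g2 (j : b.Γ) : ℕ → Cardinal.{0}
  | 0 => b.lam j
  | 1 => Order.succ (b.lam j)
  | 2 => b.mu j
  | _ => b.κ j

/-- the index set for the possible cardinals below `κ i` -/
abbrev VV (i : b.Γ) : Type := Option b.χ.ord.ToType ⊕ (ℕ ⊕ ({j : b.Γ // j ≤ i} × ℕ))

noncomputable def gg (t : b.Tt) (i : b.Γ) : b.VV i → Ordinal.{0}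
  | .inl none => b.χ.ord
  | .inl (some v) => (Ordinal.ToType.mk.symm v).1
  | .inr (.inl n) => (b.g1 t n).ord
  | .inr (.inr (j, n)) => (b.g2 j.1 n).ord

theorem mk_VV (i : b.Γ) : #(b.VV i) ≤ b.χ := by
  have h1 : #(Option b.χ.ord.ToType) ≤ b.χ := by
    rw [mk_option, mk_ord_toType]
    exact add_le_of_le b.hχ le_rfl (one_lt_aleph0.le.trans b.hχ)
  have h2 : #{j : b.Γ // j ≤ i} ≤ b.χ := by
    obtain ⟨k, hk⟩ := b.exists_gt i
    have h3 : #{j : b.Γ // j ≤ i} ≤ #(Set.Iio k) :=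
      mk_le_of_injective (f := fun j : {j : b.Γ // j ≤ i} =>
        (⟨j.1, lt_of_le_of_lt j.2 hk⟩ : Set.Iio k))
        fun a c h => Subtype.ext (congrArg (fun z : Set.Iio k => z.1) h)
    exact h3.trans (Order.lt_succ_iff.1 (Cardinal.mk_Iio_toType_ord_lt k))
  have h3 : #ℕ ≤ b.χ := by
    rw [mk_nat]
    exact b.hχ
  rw [mk_sum, mk_sum, mkp, lift_id, lift_id, lift_id, lift_id]
  exact add_le_of_le b.hχ h1 (add_le_of_le b.hχ h3 (mul_le_of_le b.hχ h2 h3))

theorem possible {P : Type} [Preorder P] {t : b.Tt} {S Q : Type} [Preorder S] [Preorder Q]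
    (e : P ≃o S × (b.P t × Q)) (i : b.Γ) {c : Cardinal.{0}} {p : P}
    (hp : p ∈ (CardN c.ord : RO P)) (hc : c < b.κ i) : ∃ v, b.gg t i v = c.ord := by
  have hS : Prj (fun p : P => e p) := Prj.iso e
  have hB : Prj (fun p : P => (e p).2.1) := (Prj.fst.comp Prj.snd).comp hS
  have hA : Prj (fun p : P => (e p).2.1.1.1) := (Prj.fst.comp Prj.fst).comp hB
  have hL : Prj (fun p : P => (e p).2.1.1.2) := (Prj.snd.comp Prj.fst).comp hB
  have hC : ∀ j, Prj (fun p : P => (e p).2.1.2 j) := fun j => ((Prj.pi j).comp Prj.snd).comp hB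
  have hγ0 : ℵ₀ ≤ Order.succ b.χ := b.hχ.trans (Order.le_succ _)
  rcases lt_trichotomy c b.χ with h1 | h1 | h1
  · refine ⟨.inl (some (Ordinal.ToType.mk ⟨c.ord, ord_lt_ord.2 h1⟩)), ?_⟩
    show (Ordinal.ToType.mk.symm _).1 = _
    rw [OrderIso.symm_apply_apply]
  · exact ⟨.inl none, by rw [h1]; rfl⟩
  rcases eq_or_lt_of_le (Order.succ_le_of_lt h1) with h2 | h2
  · exact ⟨.inr (.inl 0), by rw [← h2]; rfl⟩
  rcases le_or_gt c #(Set.Iio t) with h3 | h3
  · exact absurd hp (Fn.collapse hγ0 hA h2 h3 p)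
  have h4 : rho b.χ t < c := max_lt h1 h3
  rcases eq_or_lt_of_le (Order.succ_le_of_lt h4) with h5 | h5
  · exact ⟨.inr (.inl 1), by rw [← h5]; rfl⟩
  rcases eq_or_lt_of_le (Order.succ_le_of_lt h5) with h6 | h6
  · exact ⟨.inr (.inl 2), by rw [← h6]; rfl⟩
  rcases eq_or_lt_of_le (Order.succ_le_of_lt h6) with h7 | h7
  · exact ⟨.inr (.inl 3), by rw [← h7]; rfl⟩
  have hsg0 : ℵ₀ ≤ sg b.χ t := (b.hχ.trans (le_max_left _ _)).trans
    ((Order.le_succ _).trans ((Order.le_succ _).trans (Order.le_succ _)))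
  rcases lt_trichotomy c b.κs with h8 | h8 | h8
  · exact absurd hp (Lv.collapse hsg0 hL h7 h8 p)
  · exact ⟨.inr (.inl 4), by rw [h8]; rfl⟩
  obtain ⟨j, hj, hmin⟩ := WellFounded.has_min (wellFounded_lt (α := b.Γ))
    {j | c ≤ b.κ j} ⟨i, hc.le⟩
  have hji : j ≤ i := by
    by_contra h9
    exact hmin i hc.le (not_le.1 h9)
  rcases eq_or_lt_of_le (show c ≤ b.κ j from hj) with h9 | h9
  · exact ⟨.inr (.inr (⟨j, hji⟩, 3)), by rw [h9]; rfl⟩
  have h10 : b.lam j ≤ c := by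
    refine max_le h8.le (ciSup_le' fun k => ?_)
    by_contra h11
    exact hmin k.1 (not_le.1 h11).le k.2
  rcases eq_or_lt_of_le h10 with h11 | h11
  · exact ⟨.inr (.inr (⟨j, hji⟩, 0)), by rw [← h11]; rfl⟩
  rcases eq_or_lt_of_le (Order.succ_le_of_lt h11) with h12 | h12
  · exact ⟨.inr (.inr (⟨j, hji⟩, 1)), by rw [← h12]; rfl⟩
  rcases eq_or_lt_of_le (Order.succ_le_of_lt h12) with h13 | h13
  · exact ⟨.inr (.inr (⟨j, hji⟩, 2)), by rw [← h13]; rfl⟩
  exact absurd hp (Lv.collapse (b.mu_reg j).aleph0_le (hC j) h13 h9 p)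

/-- **All facts about one block.** -/
theorem facts {P : Type} [Preorder P] {t : b.Tt} {S Q : Type} [Preorder S] [Preorder Q]
    (e : P ≃o S × (b.P t × Q)) (hS : #S ≤ b.χ)
    (hQ : DirClosed (Order.succ (Order.succ b.top)) Q) (p : P) :
    p ∈ (RegN (Order.succ b.χ).ord : RO P) ∧
    p ∈ AlephR P (Order.succ b.χ).ord b.top.ord ∧
    p ∈ AlephR P ((Order.succ b.χ).ord + 1) (Order.succ b.top).ord ∧ Cov b.top P := by
  have hQ1 : Clo (Order.succ b.top) Q := DirClosed.clo hQ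
  have hQ2 : Clo b.top Q := hQ1.anti (Order.le_succ _)
  have hX : #(S × (AA b.χ t × LL b.χ t)) ≤ b.κs := by
    rw [mkp, mkp]
    exact mul_le_of_le b.κs0 (hS.trans b.hχκ.le)
      (mul_le_of_le b.κs0 (b.mk_AA_lt t).le (b.mk_LL_le t))
  let e1 : P ≃o (S × (AA b.χ t × LL b.χ t)) × (b.PC × Q) := e.trans
    ⟨⟨fun p => ((p.1, p.2.1.1), (p.2.1.2, p.2.2)), fun q => (q.1.1, ((q.1.2, q.2.1), q.2.2)),
      fun _ => rfl, fun _ => rfl⟩, by
      intro p q
      constructor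
      · intro h
        exact ⟨h.1.1, ⟨h.1.2, h.2.1⟩, h.2.2⟩
      · intro h
        exact ⟨⟨h.1, h.2.1.1⟩, h.2.1.2, h.2.2⟩⟩
  have hctop : Cov b.top P := (b.cov_top hX hQ2).iso e1
  have hcκ : ∀ i, Cov (b.κ i) P := fun i =>
    (b.cov_κ i (hX.trans (b.hsκ i).le) (hQ2.anti (b.κ_le_top i))).iso e1
  have hcχ : Cov b.χ P := by
    have hχs : b.χ < Order.succ b.χ := Order.lt_succ _
    have hA : Clo b.χ (AA b.χ t) := DirClosed.clo (Pf.dirClosed (isRegular_succ b.hχ))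
    have hsgr : (sg b.χ t).IsRegular := isRegular_succ
      ((b.hχ.trans (le_max_left _ _)).trans ((Order.le_succ _).trans (Order.le_succ _)))
    have hsχ : b.χ < sg b.χ t := (le_max_left b.χ #(Set.Iio t)).trans_lt
      ((Order.lt_succ _).trans ((Order.lt_succ _).trans (Order.lt_succ _)))
    have hL : Clo b.χ (LL b.χ t) :=
      DirClosed.clo (DirClosed.anti (Pf.dirClosed hsgr) (Order.succ_le_of_lt hsχ))
    have hC : Clo b.χ b.PC :=
      Clo.pi fun j => b.clo_C (b.hχκ.trans ((b.κs_le_lam j).trans_lt (b.lam_lt_mu j)))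
    exact (Cov.prod b.hχ hS (((hA.prod hL).prod hC).prod
      (hQ2.anti (b.hχκ.le.trans b.κs_lt_top.le)))).iso e
  have hcard : ∀ i, p ∈ (CardN (Order.succ (b.κ i)).ord : RO P) := fun i =>
    cardN_succ (hcκ i) (b.κ0 i) p
  have hlt : ∀ i, (Order.succ (b.κ i)).ord < b.top.ord := by
    intro i
    obtain ⟨j, hj⟩ := b.exists_gt i
    exact ord_lt_ord.2 ((Order.succ_le_of_lt (b.mono hj)).trans_lt (b.κ_lt_top j))
  have htop : p ∈ (CardN b.top.ord : RO P) := by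
    refine cardN_lim (omega_le_ord b.top0) fun α hα => ?_
    obtain ⟨i, hi⟩ := b.exists_lt_κ (lt_ord.1 hα)
    exact ⟨(Order.succ (b.κ i)).ord, lt_ord.2 (hi.trans (Order.lt_succ _)), (hlt i).le, hcard i⟩
  have hal : p ∈ AlephR P (Order.succ b.χ).ord b.top.ord := by
    refine alephR_top b.hχ hcχ htop ?_ ⟨fun i => (Order.succ (b.κ i)).ord, ?_,
      fun i => ⟨hlt i, hcard i⟩⟩
    · intro β' hβ'
      obtain ⟨i, hi⟩ := b.exists_lt_κ (lt_ord.1 hβ')
      refine ⟨b.VV i, b.gg t i, b.mk_VV i, fun β'' hβ'' r _ hr => ?_⟩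
      have h1 := cardN_ord hr
      have h2 : β''.card < b.κ i := (Ordinal.card_le_card hβ''.le).trans_lt hi
      obtain ⟨v, hv⟩ := b.possible e i (c := β''.card) (p := r) (by rw [h1]; exact hr) h2
      exact ⟨v, hv.trans h1⟩
    · intro i j hij
      have h1 : Order.succ (b.κ i) = Order.succ (b.κ j) := ord_injective hij
      exact b.mono.injective (Order.succ_injective h1)
  exact ⟨regN_succ hcχ b.hχ p, hal, alephR_succ hal (cardN_succ hctop b.top0 p), hctop⟩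

/-- **The strong tree property for one block.** -/
theorem strongTree {P : Type} [Preorder P] {t : b.Tt} {S Q : Type} [Preorder S] [Preorder Q]
    (e : P ≃o S × (b.P t × Q)) (hQ : DirClosed (Order.succ (Order.succ b.top)) Q)
    {c : b.PC} (hcov : Cov b.top P) (hmain : ∀ (Q : Type) [Preorder Q],
      DirClosed (Order.succ (Order.succ b.top)) Q → ∀ (D : Type) [Preorder D], UpDir b.top D →
      ∀ (R : D → b.top.ord.ToType → D → b.top.ord.ToType → RO (S × (b.P t × Q))) (p),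
        p.2.1.2 ≤ c → Sys R p → ∃ q ≤ p, ∃ br, IsBr R q br) (p0 : P) (hp0 : (e p0).2.1.2 ≤ c) :
    p0 ∈ StrongTreeN P (Order.succ b.top).ord := by
  refine strongTree_of b.top0 hcov p0 fun D iD hD R p hp hs => ?_
  have hs' : Sys (fun y ξ z ζ => (Prj.iso e.symm).pb (R y ξ z ζ)) (e p) := by
    refine (Prj.iso e.symm).sys ?_
    rw [e.symm_apply_apply]
    exact hs
  obtain ⟨q, hq, br, hbr⟩ := hmain Q hQ D hD (fun y ξ z ζ => (Prj.iso e.symm).pb (R y ξ z ζ))
    (e p) (le_trans (e.monotone hp).2.1.2 hp0) hs'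
  refine ⟨e.symm q, ?_, _, isBr_iso e.symm hbr⟩
  rw [← e.le_iff_le, e.apply_symm_apply]
  exact hq

end Blk

end Run7.h888
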