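import Pool.Agent.Run7.h888.C3

/-!
# The construction of the forcing notion
-/

set_option autoImplicit false

namespace Run7.h888

open Cardinal Set Pool.Agent.Helper669.Forcing Pool.Agent.Helper669.K Pool.Agent.R588.S

/-- there is a proper class of indestructibly supercompact cardinals -/
def ClassHyp : Prop := ∀ θ : Cardinal.{0}, ∃ κ, θ < κ ∧ IndestructiblySupercompact κ

section

variable (H : ClassHyp)

include H in
theorem exists_blk (χ : Cardinal.{0}) (hχ : ℵ₀ ≤ χ) : ∃ b : Blk, b.χ = χ := by
  choose f hf hf' using H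
  let K : (Order.succ χ).ord.ToType → Cardinal.{0} :=
    (wellFounded_lt (α := (Order.succ χ).ord.ToType)).fix
      (fun i (F : ∀ j, j < i → Cardinal.{0}) => f (max (f χ) (⨆ j : Set.Iio i, F j.1 j.2)))
  have hK : ∀ i, K i = f (max (f χ) (⨆ j : Set.Iio i, K j.1)) := fun i =>
    WellFounded.fix_eq _ _ _
  refine ⟨⟨χ, f χ, K, hχ, hf' χ, hf χ, fun i => ?_, fun i => ?_, fun i j hij => ?_⟩, rfl⟩
  · rw [hK]
    exact hf' _
  · rw [hK]
    exact (le_max_left _ _).trans_lt (hf _)
  · rw [hK j]
    refine lt_of_le_of_lt ?_ (hf _)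
    exact (le_ciSup (f := fun j : Set.Iio j => K j.1) (Cardinal.bddAbove_of_small)
      ⟨i, hij⟩).trans (le_max_right _ _)

/-- a stage of the construction -/
structure Stg where
  S : Type
  iS : Preorder S
  χ : Cardinal.{0}
  hχ : ℵ₀ ≤ χ
  hS : #S ≤ χ

attribute [instance] Stg.iS

/-- a block above a stage, with a good parameter and a good condition -/
structure Ch (s : Stg) where
  b : Blk
  hb : b.χ = s.χ
  t : b.Tt
  c : b.PC
  good : ∀ (Q : Type) [Preorder Q],
      DirClosed (Order.succ (Order.succ b.top)) Q → ∀ (D : Type) [Preorder D], UpDir b.top D →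
      ∀ (R : D → b.top.ord.ToType → D → b.top.ord.ToType → RO (s.S × (b.P t × Q))) (p),
        p.2.1.2 ≤ c → Sys R p → ∃ q ≤ p, ∃ br, IsBr R q br

include H in
theorem exists_ch (s : Stg) : Nonempty (Ch s) := by
  obtain ⟨b, hb⟩ := exists_blk H s.χ s.hχ
  obtain ⟨t, c, h⟩ := b.main (S := s.S) (by rw [hb]; exact s.hS)
  exact ⟨⟨b, hb, t, c, h⟩⟩

/-- the chosen block -/
noncomputable def ch (s : Stg) : Ch s := (exists_ch H s).some

/-- the forcing of the chosen block -/
abbrev FF (s : Stg) : Type := (ch H s).b.P (ch H s).t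

/-- the next stage -/
noncomputable def nxt (s : Stg) : Stg where
  S := s.S × FF H s
  iS := inferInstance
  χ := Order.succ (ch H s).b.top
  hχ := (ch H s).b.top0.trans (Order.le_succ _)
  hS := by
    have b0 := (ch H s).b.top0.trans (Order.le_succ _)
    have h1 : (ch H s).b.κs ≤ Order.succ (ch H s).b.top :=
      (ch H s).b.κs_lt_top.le.trans (Order.le_succ _)
    rw [mkp, mkp, mkp]
    refine mul_le_of_le b0 (s.hS.trans ?_) (mul_le_of_le b0 (mul_le_of_le b0
      (((ch H s).b.mk_AA_lt _).le.trans h1) (((ch H s).b.mk_LL_le _).trans h1))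
      (ch H s).b.mk_PC_le')
    rw [← (ch H s).hb]
    exact (ch H s).b.hχκ.le.trans h1

/-- the stages above `s` -/
noncomputable def stg (s : Stg) : ℕ → Stg
  | 0 => s
  | m + 1 => stg (nxt H s) m

/-- the tail of the forcing -/
abbrev Tail (s : Stg) : Type := ∀ m, FF H (stg H s m)

theorem χ_lt_nxt (s : Stg) : s.χ < (nxt H s).χ := by
  show s.χ < Order.succ (ch H s).b.top
  rw [← (ch H s).hb]
  exact ((ch H s).b.hχκ.trans (ch H s).b.κs_lt_top).trans (Order.lt_succ _)

theorem le_stg (s : Stg) (m : ℕ) : s.χ ≤ (stg H s m).χ := by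
  induction m generalizing s with
  | zero => exact le_rfl
  | succ m ih => exact (χ_lt_nxt H s).le.trans (ih (nxt H s))

theorem dir_FF (s : Stg) : DirClosed (Order.succ s.χ) (FF H s) := by
  have hb := (ch H s).hb
  have hχ := (ch H s).b.hχ
  have h1 : DirClosed (Order.succ (ch H s).b.χ) (FF H s) := by
    have hsgr : (sg (ch H s).b.χ (ch H s).t).IsRegular := isRegular_succ
      ((hχ.trans (le_max_left _ _)).trans ((Order.le_succ _).trans (Order.le_succ _)))
    have hsχ : (ch H s).b.χ < sg (ch H s).b.χ (ch H s).t :=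
      (le_max_left (ch H s).b.χ #(Set.Iio (ch H s).t)).trans_lt
      ((Order.lt_succ _).trans ((Order.lt_succ _).trans (Order.lt_succ _)))
    refine DirClosed.prod (DirClosed.prod (Pf.dirClosed (isRegular_succ hχ))
      (DirClosed.anti (Pf.dirClosed hsgr) (Order.succ_le_of_lt hsχ)))
      (DirClosed.pi fun i => DirClosed.anti ((ch H s).b.dirClosed_C i) ?_)
    exact Order.succ_le_succ (ch H s).b.hχκ.le
  exact DirClosed.anti h1 (Order.succ_le_succ hb.ge)

theorem dir_Tail (s : Stg) : DirClosed (Order.succ s.χ) (Tail H s) :=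
  DirClosed.pi fun m => DirClosed.anti (dir_FF H (stg H s m)) (Order.succ_le_succ (le_stg H s m))

/-- splitting off the first block -/
noncomputable def isoA (s : Stg) : s.S × Tail H s ≃o s.S × (FF H s × Tail H (nxt H s)) where
  toFun p := (p.1, (p.2 0, fun m => p.2 (m + 1)))
  invFun q := (q.1, fun m => match m with
    | 0 => q.2.1
    | m + 1 => q.2.2 m)
  left_inv := by
    intro p
    refine Prod.ext rfl ?_
    funext m
    cases m with
    | zero => rfl
    | succ m => rfl
  right_inv := fun q => rfl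
  map_rel_iff' := by
    intro p q
    constructor
    · intro h
      refine ⟨h.1, fun m => ?_⟩
      cases m with
      | zero => exact h.2.1
      | succ m => exact h.2.2 m
    · intro h
      exact ⟨h.1, h.2 0, fun m => h.2 (m + 1)⟩

/-- reassociation -/
noncomputable def isoB (s : Stg) : s.S × (FF H s × Tail H (nxt H s)) ≃o
    (nxt H s).S × Tail H (nxt H s) where
  toFun p := ((p.1, p.2.1), p.2.2)
  invFun q := (q.1.1, (q.1.2, q.2))
  left_inv := fun _ => rfl
  right_inv := fun _ => rfl
  map_rel_iff' := by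
    intro p q
    constructor
    · intro h
      exact ⟨h.1.1, h.1.2, h.2⟩
    · intro h
      exact ⟨⟨h.1, h.2.1⟩, h.2.2⟩

/-- the stages -/
noncomputable def it (s : Stg) : ℕ → Stg
  | 0 => s
  | n + 1 => nxt H (it s n)

/-- the decompositions of the forcing -/
noncomputable def isoN (s : Stg) : ∀ n, s.S × Tail H s ≃o (it H s n).S × Tail H (it H s n)
  | 0 => OrderIso.refl _
  | n + 1 => (isoN s n).trans ((isoA H (it H s n)).trans (isoB H (it H s n)))

/-- the good condition of a block -/
noncomputable def cond (s : Stg) : FF H s :=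
  ((Pf.top (aleph0_pos.trans_le ((ch H s).b.hχ.trans (Order.le_succ _))),
    Pf.top (aleph0_pos.trans_le (((ch H s).b.hχ.trans (le_max_left _ _)).trans
      ((Order.le_succ _).trans ((Order.le_succ _).trans (Order.le_succ _)))))), (ch H s).c)

theorem isoN_cond (s : Stg) (s0 : s.S) (n : ℕ) : ∃ s1 : (it H s n).S,
    isoN H s n (s0, fun m => cond H (stg H s m)) = (s1, fun m => cond H (stg H (it H s n) m)) := by
  induction n with
  | zero => exact ⟨s0, rfl⟩
  | succ n ih =>
    obtain ⟨s1, h1⟩ := ih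
    refine ⟨(s1, cond H (it H s n)), ?_⟩
    show isoB H (it H s n) (isoA H (it H s n) (isoN H s n _)) = _
    rw [h1]
    rfl

theorem it_lt (s : Stg) {m n : ℕ} (h : m < n) : (it H s m).χ < (it H s n).χ := by
  induction n with
  | zero => exact absurd h (Nat.not_lt_zero m)
  | succ n ih =>
    rcases Nat.lt_succ_iff_lt_or_eq.1 h with h1 | h1
    · exact (ih h1).trans (χ_lt_nxt H _)
    · rw [h1]
      exact χ_lt_nxt H _

end

/-- **The main theorem.** -/
theorem main_thm (H : ClassHyp) : ∃ (P : Type) (_ : Preorder P) (p : P)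
    (γ β κ : ℕ → Ordinal.{0}), Function.Injective γ ∧ ∀ n, γ n < β n ∧
      p ∈ (RegN (γ n) : RO P) ∧ p ∈ (AlephN (γ n) (β n) : RO P) ∧
      p ∈ (AlephN (γ n + 1) (κ n) : RO P) ∧ p ∈ StrongTreeN P (κ n) := by
  let s0 : Stg := ⟨Unit, inferInstance, ℵ₀, le_rfl, by rw [mk_unit]; exact one_lt_aleph0.le⟩
  let st : ℕ → Stg := it H s0
  let b : ℕ → Blk := fun n => (ch H (st n)).b
  refine ⟨s0.S × Tail H s0, inferInstance, ((), fun m => cond H (stg H s0 m)),
    fun n => (Order.succ (b n).χ).ord, fun n => (b n).top.ord,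
    fun n => (Order.succ (b n).top).ord, ?_, fun n => ?_⟩
  · have hmono : ∀ m n, m < n → (Order.succ (b m).χ).ord < (Order.succ (b n).χ).ord := by
      intro m n hmn
      refine ord_lt_ord.2 (Order.succ_lt_succ ?_)
      show (ch H (st m)).b.χ < (ch H (st n)).b.χ
      rw [(ch H (st m)).hb, (ch H (st n)).hb]
      exact it_lt H s0 hmn
    intro m n hmn
    rcases lt_trichotomy m n with h | h | h
    · exact absurd hmn (hmono m n h).ne
    · exact h
    · exact absurd hmn.symm (hmono n m h).ne
  · let e := (isoN H s0 n).trans (isoA H (st n))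
    have hS : #(st n).S ≤ (b n).χ := by
      show #(st n).S ≤ (ch H (st n)).b.χ
      rw [(ch H (st n)).hb]
      exact (st n).hS
    have hQ : DirClosed (Order.succ (Order.succ (b n).top)) (Tail H (nxt H (st n))) :=
      dir_Tail H (nxt H (st n))
    obtain ⟨h1, h2, h3, h4⟩ := (b n).facts (t := (ch H (st n)).t) e hS hQ
      ((), fun m => cond H (stg H s0 m))
    refine ⟨ord_lt_ord.2 ((b n).succ_lt.trans (b n).κs_lt_top), h1, AlephR.toN h2,
      AlephR.toN h3, ?_⟩
    refine (b n).strongTree (t := (ch H (st n)).t) e hQ h4 (ch H (st n)).good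
      ((), fun m => cond H (stg H s0 m)) ?_
    obtain ⟨s1, hs1⟩ := isoN_cond H s0 () n
    have h5 : e ((), fun m => cond H (stg H s0 m)) =
        isoA H (st n) (s1, fun m => cond H (stg H (st n) m)) := by
      show isoA H (st n) (isoN H s0 n _) = _
      rw [hs1]
    rw [h5]
    exact le_refl _

end Run7.h888
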